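import Mathlib

/-!
# Lower bounds for polynomials in functions of different growth
-/

set_option autoImplicit false

open Filter Topology Polynomial

namespace Pool.Agent.TH21.MS

/-- value at `t` of a polynomial in the `u k` with coefficients in `ℝ[t]` -/
noncomputable def ev {κ : Type} (u : κ → ℝ → ℝ) (P : MvPolynomial κ ℝ[X]) (t : ℝ) : ℝ :=
  MvPolynomial.eval₂ (Polynomial.evalRingHom t) (fun k => u k t) P

/-- lower bound for all the nonzero polynomials -/
def LB {κ : Type} (u : κ → ℝ → ℝ) (h : ℝ → ℝ) : Prop :=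
  ∀ P : MvPolynomial κ ℝ[X], P ≠ 0 → ∃ C : ℝ, ∀ᶠ t in atTop, Real.exp (-C * h t) ≤ |ev u P t|

/-- a function which dominates all the others -/
theorem exists_max {ι : Type} [DecidableEq ι] (S : Finset ι) (hS : S.Nonempty) (φ : ι → ℝ → ℝ)
    (h0 : ∀ i ∈ S, ∀ᶠ t in atTop, φ i t ≠ 0)
    (h : ∀ i ∈ S, ∀ j ∈ S, i ≠ j → Tendsto (fun t => φ i t / φ j t) atTop (𝓝 0) ∨
      Tendsto (fun t => φ j t / φ i t) atTop (𝓝 0)) :
    ∃ i ∈ S, ∀ j ∈ S, j ≠ i → Tendsto (fun t => φ j t / φ i t) atTop (𝓝 0) := by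
  induction hS using Finset.Nonempty.cons_induction with
  | singleton a =>
    refine ⟨a, Finset.mem_singleton_self a, ?_⟩
    intro j hj hja
    exact absurd (Finset.mem_singleton.1 hj) hja
  | cons a s ha hs ih =>
    obtain ⟨m, hm, hmax⟩ := ih (fun i hi => h0 i (Finset.mem_cons_of_mem hi))
      (fun i hi j hj => h i (Finset.mem_cons_of_mem hi) j (Finset.mem_cons_of_mem hj))
    have ham : a ≠ m := fun e => ha (e ▸ hm)
    rcases h a (Finset.mem_cons_self a s) m (Finset.mem_cons_of_mem hm) ham with h1 | h1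
    · refine ⟨m, Finset.mem_cons_of_mem hm, ?_⟩
      intro j hj hjm
      rcases Finset.mem_cons.1 hj with rfl | hj
      · exact h1
      · exact hmax j hj hjm
    · refine ⟨a, Finset.mem_cons_self a s, ?_⟩
      intro j hj hja
      rcases Finset.mem_cons.1 hj with rfl | hj
      · exact absurd rfl hja
      rcases eq_or_ne j m with rfl | hjm
      · exact h1
      have h2 := (hmax j hj hjm).mul h1
      rw [zero_mul] at h2
      refine h2.congr' ?_
      filter_upwards [h0 m (Finset.mem_cons_of_mem hm)] with t ht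
      field_simp

/-- size of the nonzero polynomials -/
theorem poly_log (p : ℝ[X]) (hp : p ≠ 0) :
    ∃ K : ℝ, ∀ᶠ t : ℝ in atTop, p.eval t ≠ 0 ∧ |Real.log (|p.eval t|)| ≤ K * Real.log t := by
  have hl : p.leadingCoeff ≠ 0 := leadingCoeff_ne_zero.2 hp
  have h1 := p.isEquivalent_atTop_lead
  have h2 : ∀ᶠ t : ℝ in atTop, p.leadingCoeff * t ^ p.natDegree ≠ 0 := by
    filter_upwards [eventually_gt_atTop (0 : ℝ)] with t ht
    positivity
  have h3 : Tendsto (fun t : ℝ => p.eval t / (p.leadingCoeff * t ^ p.natDegree)) atTop (𝓝 1) :=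
    (Asymptotics.isEquivalent_iff_tendsto_one h2).1 h1
  have h4 : ∀ᶠ t : ℝ in atTop, 1 / 2 < p.eval t / (p.leadingCoeff * t ^ p.natDegree) :=
    h3.eventually_const_lt (by norm_num)
  have h5 : ∀ᶠ t : ℝ in atTop, p.eval t / (p.leadingCoeff * t ^ p.natDegree) < 2 :=
    h3.eventually_lt_const (by norm_num)
  refine ⟨|Real.log (|p.leadingCoeff|)| + p.natDegree + 1, ?_⟩
  filter_upwards [h2, h4, h5, eventually_ge_atTop (Real.exp 1), eventually_gt_atTop (0 : ℝ)]
    with t h2 h4 h5 h6 h7
  have hlog : 1 ≤ Real.log t := by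
    rw [Real.le_log_iff_exp_le h7]; exact h6
  have hne : p.eval t ≠ 0 := by
    intro h0
    rw [h0, zero_div] at h4
    norm_num at h4
  refine ⟨hne, ?_⟩
  set r := p.eval t / (p.leadingCoeff * t ^ p.natDegree) with hr
  have he : p.eval t = r * (p.leadingCoeff * t ^ p.natDegree) := by
    rw [hr]; field_simp
  have hr0 : 0 < r := by linarith
  have hlr : |Real.log r| ≤ 1 := by
    rw [abs_le]
    constructor
    · have h8 : Real.log (1 / 2) ≤ Real.log r := Real.log_le_log (by norm_num) h4.le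
      have h9 : Real.log (1 / 2) = - Real.log 2 := by rw [one_div, Real.log_inv]
      have := Real.log_two_lt_d9
      linarith
    · have h8 : Real.log r ≤ Real.log 2 := Real.log_le_log hr0 h5.le
      have := Real.log_two_lt_d9
      linarith
  have hlog2 : Real.log |p.eval t| = Real.log r + (Real.log |p.leadingCoeff| +
      p.natDegree * Real.log t) := by
    rw [he, abs_mul, abs_mul, abs_pow, abs_of_pos hr0, abs_of_pos h7,
      Real.log_mul hr0.ne' (mul_ne_zero (abs_ne_zero.2 hl) (pow_ne_zero _ h7.ne')),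
      Real.log_mul (abs_ne_zero.2 hl) (pow_ne_zero _ h7.ne'), Real.log_pow]
  rw [hlog2]
  have e1 := abs_add_le (Real.log r) (Real.log |p.leadingCoeff| + p.natDegree * Real.log t)
  have e2 := abs_add_le (Real.log |p.leadingCoeff|) (p.natDegree * Real.log t)
  have e3 : |(p.natDegree : ℝ) * Real.log t| = p.natDegree * Real.log t :=
    abs_of_nonneg (by positivity)
  have e4 : 0 ≤ |Real.log (|p.leadingCoeff|)| := abs_nonneg _
  nlinarith

/-- a continuous function whose absolute value tends to infinity has a limit `± ∞` -/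
theorem sign_dich (S : ℝ → ℝ) (hc : ∃ t0, ContinuousOn S (Set.Ici t0))
    (h : Tendsto (fun t => |S t| / Real.log t) atTop atTop) :
    Tendsto (fun t => S t / Real.log t) atTop atTop ∨
      Tendsto (fun t => S t / Real.log t) atTop atBot := by
  obtain ⟨t0, hc⟩ := hc
  have h1 : ∀ᶠ t in atTop, 1 ≤ |S t| / Real.log t := h.eventually_ge_atTop 1
  obtain ⟨t1, ht1⟩ := (h1.and ((eventually_ge_atTop t0).and (eventually_gt_atTop 1))).exists_forall_of_atTop
  have hne : ∀ t, t1 ≤ t → S t ≠ 0 := by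
    intro t ht h0
    have := (ht1 t ht).1
    rw [h0, abs_zero, zero_div] at this
    norm_num at this
  have hcon : ContinuousOn S (Set.Ici t1) := hc.mono (by
    intro t ht
    exact (ht1 t1 le_rfl).2.1.trans ht)
  by_cases hs : 0 < S t1
  · left
    have hpos : ∀ t, t1 ≤ t → 0 < S t := by
      intro t ht
      by_contra hn
      push Not at hn
      have hz : (0 : ℝ) ∈ S '' Set.Icc t1 t :=
        intermediate_value_Icc' ht (hcon.mono Set.Icc_subset_Ici_self) ⟨hn, hs.le⟩
      obtain ⟨z, hz, hz0⟩ := hz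
      exact hne z hz.1 hz0
    refine h.congr' ?_
    filter_upwards [eventually_ge_atTop t1] with t ht
    rw [abs_of_pos (hpos t ht)]
  · right
    have hneg : ∀ t, t1 ≤ t → S t < 0 := by
      intro t ht
      by_contra hn
      push Not at hn hs
      have hz : (0 : ℝ) ∈ S '' Set.Icc t1 t :=
        intermediate_value_Icc ht (hcon.mono Set.Icc_subset_Ici_self) ⟨hs, hn⟩
      obtain ⟨z, hz, hz0⟩ := hz
      exact hne z hz.1 hz0
    have h2 := tendsto_neg_atTop_atBot.comp h
    refine h2.congr' ?_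
    filter_upwards [eventually_ge_atTop t1] with t ht
    simp only [Function.comp]
    rw [abs_of_neg (hneg t ht)]
    ring

theorem ev_eq_sum {κ : Type} [Fintype κ] (u : κ → ℝ → ℝ) (P : MvPolynomial κ ℝ[X]) (t : ℝ) :
    ev u P t = ∑ e ∈ P.support, (P.coeff e).eval t * ∏ k, u k t ^ e k := by
  unfold ev
  rw [MvPolynomial.eval₂_eq']
  rfl

/-- Lower bounds from the growth of the monomials. -/
theorem LB_of_growth {κ : Type} [Fintype κ] (u : κ → ℝ → ℝ) (h : ℝ → ℝ)
    (hpos : ∀ k, ∀ᶠ t in atTop, 0 < u k t)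
    (hcont : ∀ k, ∃ t0, ContinuousOn (u k) (Set.Ici t0))
    (hH : ∀ c : κ → ℤ, c ≠ 0 →
      Tendsto (fun t => |∑ k, (c k : ℝ) * Real.log (u k t)| / Real.log t) atTop atTop)
    (hh : ∀ᶠ t in atTop, Real.log t ≤ h t)
    (hu : ∀ k, ∃ C : ℝ, ∀ᶠ t in atTop, |Real.log (u k t)| ≤ C * h t) : LB u h := by
  classical
  intro P hP
  have hposA : ∀ᶠ t in atTop, ∀ k, 0 < u k t := eventually_all.2 hpos
  set φ : (κ →₀ ℕ) → ℝ → ℝ := fun e t => (P.coeff e).eval t * ∏ k, u k t ^ e k with hφ
  have hpl : ∀ e ∈ P.support, ∃ K : ℝ, ∀ᶠ t : ℝ in atTop, (P.coeff e).eval t ≠ 0 ∧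
      |Real.log (|(P.coeff e).eval t|)| ≤ K * Real.log t := fun e he =>
    poly_log _ (MvPolynomial.mem_support_iff.1 he)
  have hlogφ : ∀ e ∈ P.support, ∃ K : ℝ, ∀ᶠ t in atTop, φ e t ≠ 0 ∧
      |Real.log |φ e t| - ∑ k, (e k : ℝ) * Real.log (u k t)| ≤ K * Real.log t := by
    intro e he
    obtain ⟨K, hK⟩ := hpl e he
    refine ⟨K, ?_⟩
    filter_upwards [hK, hposA] with t ht hp
    have hprod : 0 < ∏ k, u k t ^ e k := Finset.prod_pos fun k _ => pow_pos (hp k) _
    refine ⟨mul_ne_zero ht.1 hprod.ne', ?_⟩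
    have : Real.log |φ e t| = Real.log |(P.coeff e).eval t| + ∑ k, (e k : ℝ) * Real.log (u k t) := by
      simp only [hφ]
      rw [abs_mul, abs_of_pos hprod, Real.log_mul (abs_ne_zero.2 ht.1) hprod.ne',
        Real.log_prod (fun k _ => (pow_pos (hp k) _).ne')]
      simp [Real.log_pow]
    rw [this]
    simpa using ht.2
  have hlt : ∀ᶠ t : ℝ in atTop, (1 : ℝ) ≤ Real.log t := by
    filter_upwards [Real.tendsto_log_atTop.eventually_ge_atTop 1] with t ht using ht
  -- the ratios
  have hratio : ∀ e ∈ P.support, ∀ e' ∈ P.support,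
      Tendsto (fun t => (∑ k, (((e k : ℤ) - (e' k : ℤ) : ℤ) : ℝ) * Real.log (u k t)) / Real.log t) atTop atBot →
      Tendsto (fun t => φ e t / φ e' t) atTop (𝓝 0) := by
    intro e he e' he' hS
    obtain ⟨K, hK⟩ := hlogφ e he
    obtain ⟨K', hK'⟩ := hlogφ e' he'
    have h1 : Tendsto (fun t => (K + K' + (∑ k, (((e k : ℤ) - (e' k : ℤ) : ℤ) : ℝ) * Real.log (u k t)) /
        Real.log t)) atTop atBot := tendsto_atBot_add_const_left _ _ hS
    have h2 : Tendsto (fun t => (K + K' + (∑ k, (((e k : ℤ) - (e' k : ℤ) : ℤ) : ℝ) * Real.log (u k t)) /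
        Real.log t) * Real.log t) atTop atBot := h1.atBot_mul_atTop₀ Real.tendsto_log_atTop
    have h3 := Real.tendsto_exp_atBot.comp h2
    rw [tendsto_zero_iff_abs_tendsto_zero]
    refine squeeze_zero' (Eventually.of_forall fun t => abs_nonneg _) ?_ h3
    filter_upwards [hK, hK', hlt] with t h4 h5 h6
    simp only [Function.comp]
    have h7 : |φ e t / φ e' t| = Real.exp (Real.log |φ e t| - Real.log |φ e' t|) := by
      rw [Real.exp_sub, Real.exp_log (abs_pos.2 h4.1), Real.exp_log (abs_pos.2 h5.1), abs_div]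
    rw [h7]
    apply Real.exp_le_exp.2
    have h8 := abs_le.1 h4.2
    have h9 := abs_le.1 h5.2
    have h10 : (∑ k, (((e k : ℤ) - (e' k : ℤ) : ℤ) : ℝ) * Real.log (u k t)) =
        (∑ k, (e k : ℝ) * Real.log (u k t)) - ∑ k, (e' k : ℝ) * Real.log (u k t) := by
      rw [← Finset.sum_sub_distrib]
      refine Finset.sum_congr rfl fun k _ => ?_
      push_cast
      ring
    have h11 : (K + K' + (∑ k, (((e k : ℤ) - (e' k : ℤ) : ℤ) : ℝ) * Real.log (u k t)) /
        Real.log t) * Real.log t = (K + K') * Real.log t +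
        ((∑ k, (e k : ℝ) * Real.log (u k t)) - ∑ k, (e' k : ℝ) * Real.log (u k t)) := by
      rw [h10]
      field_simp
    rw [h11]
    linarith [h8.2, h9.1]
  have hcontS : ∀ c : κ → ℤ, ∃ t0, ContinuousOn (fun t => ∑ k, (c k : ℝ) * Real.log (u k t)) (Set.Ici t0) := by
    intro c
    obtain ⟨t1, ht1⟩ := hposA.exists_forall_of_atTop
    choose t2 ht2 using hcont
    obtain ⟨t3, ht3⟩ : ∃ t3, ∀ k, t2 k ≤ t3 := by
      obtain ⟨M, hM⟩ := (Finset.univ.image t2).bddAbove
      exact ⟨M, fun k => hM (Finset.mem_coe.2 (Finset.mem_image_of_mem t2 (Finset.mem_univ k)))⟩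
    refine ⟨max t1 t3, ?_⟩
    refine continuousOn_finsetSum _ fun k _ => ?_
    refine ContinuousOn.mul continuousOn_const ?_
    refine ContinuousOn.log ((ht2 k).mono ?_) ?_
    · intro t ht
      exact (ht3 k).trans ((le_max_right _ _).trans ht)
    · intro t ht
      exact (ht1 t ((le_max_left _ _).trans ht) k).ne'
  obtain ⟨e, he, hmax⟩ := exists_max P.support (MvPolynomial.support_nonempty.2 hP) φ
    (fun e he => by
      obtain ⟨K, hK⟩ := hlogφ e he
      filter_upwards [hK] with t ht using ht.1)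
    (by
      intro e he e' he' hne
      have hc : (fun k => (e k : ℤ) - (e' k : ℤ)) ≠ 0 := by
        intro h0
        apply hne
        ext k
        have := congrFun h0 k
        simp only [Pi.zero_apply] at this
        omega
      rcases sign_dich _ (hcontS _) (hH _ hc) with h1 | h1
      · right
        refine hratio e' he' e he ?_
        refine (tendsto_neg_atTop_atBot.comp h1).congr fun t => ?_
        simp only [Function.comp]
        rw [← neg_div, ← Finset.sum_neg_distrib]
        congr 1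
        refine Finset.sum_congr rfl fun k _ => ?_
        push_cast
        ring
      · left
        exact hratio e he e' he' h1)
  -- the sum is about its largest term
  have hsum : Tendsto (fun t => ev u P t / φ e t) atTop (𝓝 1) := by
    have h1 : Tendsto (fun t => ∑ e' ∈ P.support, φ e' t / φ e t) atTop
        (𝓝 (∑ e' ∈ P.support, if e' = e then 1 else 0)) := by
      refine tendsto_finsetSum _ fun e' he' => ?_
      by_cases hee : e' = e
      · rw [if_pos hee, hee]
        refine tendsto_const_nhds.congr' ?_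
        obtain ⟨K, hK⟩ := hlogφ e he
        filter_upwards [hK] with t ht
        rw [div_self ht.1]
      · rw [if_neg hee]
        exact hmax e' he' hee
    rw [Finset.sum_ite_eq' P.support e (fun _ => (1 : ℝ)), if_pos he] at h1
    refine h1.congr fun t => ?_
    rw [ev_eq_sum, Finset.sum_div]
  obtain ⟨K, hK⟩ := hlogφ e he
  choose Cu hCu using hu
  have hCuA : ∀ᶠ t in atTop, ∀ k, |Real.log (u k t)| ≤ Cu k * h t := eventually_all.2 hCu
  refine ⟨|K| + (∑ k, (e k : ℝ) * Cu k) + 1, ?_⟩
  filter_upwards [hK, hsum.eventually_const_lt (show (1 / 2 : ℝ) < 1 by norm_num), hh, hCuA, hlt]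
    with t h1 h2 h3 h4 h5
  have h6 : |φ e t| / 2 ≤ |ev u P t| := by
    have h7 : |ev u P t| = |ev u P t / φ e t| * |φ e t| := by
      rw [← abs_mul, div_mul_cancel₀ _ h1.1]
    rw [h7]
    have : (1 / 2 : ℝ) ≤ |ev u P t / φ e t| := h2.le.trans (le_abs_self _)
    have h8 := abs_nonneg (φ e t)
    nlinarith
  refine le_trans ?_ h6
  have h7 : Real.exp (Real.log |φ e t| - Real.log 2) = |φ e t| / 2 := by
    rw [Real.exp_sub, Real.exp_log (abs_pos.2 h1.1), Real.exp_log (by norm_num)]
  rw [← h7]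
  apply Real.exp_le_exp.2
  have h8 := (abs_le.1 h1.2).1
  have h9 : -(∑ k, (e k : ℝ) * Cu k) * h t ≤ ∑ k, (e k : ℝ) * Real.log (u k t) := by
    rw [← Finset.sum_neg_distrib, Finset.sum_mul]
    refine Finset.sum_le_sum fun k _ => ?_
    have := (abs_le.1 (h4 k)).1
    have hek : (0 : ℝ) ≤ e k := Nat.cast_nonneg _
    nlinarith
  have h10 : K * Real.log t ≤ |K| * h t := by
    have h11 := le_abs_self K
    have h12 := abs_nonneg K
    nlinarith
  have h13 := Real.log_two_lt_d9
  nlinarith

end Pool.Agent.TH21.MS
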