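import Pool.Agent.TH21.MS.JDer
import Pool.Agent.TH818.AR.Tr

/-!
# Algebraic independence of `j`, `j'`, `j''`

Proof from the invariance of `j` under `τ ↦ -1/τ` and the transcendence of the logarithm over the
field of germs of meromorphic functions.
-/

set_option autoImplicit false

open Filter Topology Polynomial

namespace Pool.Agent.TH21.MS

open Pool.Agent.TH818.AR

/-- values of a polynomial at three numbers -/
noncomputable def ev3 (P : MvPolynomial (Fin 3) ℝ) (a b c : ℝ) : ℝ := MvPolynomial.eval ![a, b, c] P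

/-- the coefficients are analytic at zero -/
def AnP (P : ℝ → ℝ[X]) : Prop := ∀ m, AnalyticAt ℝ (fun s => (P s).coeff m) 0

theorem AnP.add {P Q : ℝ → ℝ[X]} (hP : AnP P) (hQ : AnP Q) : AnP (fun s => P s + Q s) := by
  intro m
  simp only [coeff_add]
  exact (hP m).add (hQ m)

theorem AnP.mul {P Q : ℝ → ℝ[X]} (hP : AnP P) (hQ : AnP Q) : AnP (fun s => P s * Q s) := by
  intro m
  simp only [coeff_mul]
  exact Finset.analyticAt_fun_sum _ (fun i _ => (hP _).mul (hQ _))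

theorem AnP.const (P : ℝ[X]) : AnP (fun _ => P) := fun _ => analyticAt_const

theorem AnP.pow {P : ℝ → ℝ[X]} (hP : AnP P) (n : ℕ) : AnP (fun s => P s ^ n) := by
  induction n with
  | zero => simpa using AnP.const 1
  | succ n ih => simpa only [pow_succ] using ih.mul hP

theorem AnP.C {φ : ℝ → ℝ} (hφ : AnalyticAt ℝ φ 0) : AnP (fun s => Polynomial.C (φ s)) := by
  intro m
  simp only [coeff_C]
  by_cases h : m = 0
  · simpa [h] using hφ
  · simpa [h] using analyticAt_const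

theorem AnP.sum {ι : Type} (S : Finset ι) (P : ι → ℝ → ℝ[X]) (hP : ∀ i ∈ S, AnP (P i)) :
    AnP (fun s => ∑ i ∈ S, P i s) := by
  intro m
  simp only [finsetSum_coeff]
  exact Finset.analyticAt_fun_sum _ (fun i hi => hP i hi m)

/-- the relation after the inversion, multiplied by `x ^ D`, as a polynomial in `y` -/
noncomputable def Phi (P : MvPolynomial (Fin 3) ℝ) (D : ℕ) (x : ℝ) : ℝ[X] :=
  ∑ e ∈ P.support, Polynomial.C (P.coeff e * x ^ (D - (e 0 + e 1 + e 2))) * (Polynomial.C (G0 x) ^ e 0 *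
    (Polynomial.C (-G1 x) * X ^ 2) ^ e 1 * (Polynomial.C (G2 x) * X ^ 4 + Polynomial.C (2 * G1 x) * X ^ 3) ^ e 2)

theorem Phi_an (P : MvPolynomial (Fin 3) ℝ) (D : ℕ) : AnP (Phi P D) := by
  have h0 : AnalyticAt ℝ G0 0 := G0_an 0 ⟨le_rfl, one_pos⟩
  have h1 : AnalyticAt ℝ G1 0 := G1_an 0 ⟨le_rfl, one_pos⟩
  have h2 : AnalyticAt ℝ G2 0 := G2_an 0 ⟨le_rfl, one_pos⟩
  refine AnP.sum _ _ fun e _ => ?_
  refine (AnP.C (analyticAt_const.mul (analyticAt_id.pow _))).mul (((AnP.C h0).pow _ |>.mul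
    (((AnP.C h1.neg).mul (AnP.const _)).pow _)).mul
    ((((AnP.C h2).mul (AnP.const _)).add ((AnP.C (analyticAt_const.mul h1)).mul (AnP.const _))).pow _))

theorem Phi_eval (P : MvPolynomial (Fin 3) ℝ) (D : ℕ) (hD : ∀ e ∈ P.support, e 0 + e 1 + e 2 ≤ D)
    (x Y : ℝ) (hx : x ≠ 0) : (Phi P D x).eval Y =
    x ^ D * ev3 P (G0 x / x) (-Y ^ 2 * (G1 x / x)) (Y ^ 4 * (G2 x / x) + 2 * Y ^ 3 * (G1 x / x)) := by
  unfold Phi ev3
  rw [MvPolynomial.eval_eq', eval_finsetSum, Finset.mul_sum]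
  refine Finset.sum_congr rfl fun e he => ?_
  rw [Fin.prod_univ_three]
  simp only [eval_mul, eval_pow, eval_C, eval_X, eval_add, Matrix.cons_val_zero, Matrix.cons_val_one,
    Matrix.cons_val]
  have h1 : x ^ D = x ^ (D - (e 0 + e 1 + e 2)) * (x ^ e 0 * x ^ e 1 * x ^ e 2) := by
    rw [← pow_add, ← pow_add, ← pow_add, Nat.sub_add_cancel (hD e he)]
  have h2 : -Y ^ 2 * (G1 x / x) = (-G1 x * Y ^ 2) / x := by ring
  have h3 : Y ^ 4 * (G2 x / x) + 2 * Y ^ 3 * (G1 x / x) = (G2 x * Y ^ 4 + 2 * G1 x * Y ^ 3) / x := by ring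
  rw [h1, h2, h3, div_pow, div_pow, div_pow]
  have hx0 := pow_ne_zero (e 0) hx
  have hx1 := pow_ne_zero (e 1) hx
  have hx2 := pow_ne_zero (e 2) hx
  field_simp

theorem Phi_deg (P : MvPolynomial (Fin 3) ℝ) (D : ℕ) (hD : ∀ e ∈ P.support, e 0 + e 1 + e 2 ≤ D) (x : ℝ) :
    (Phi P D x).natDegree ≤ 4 * D := by
  unfold Phi
  refine natDegree_sum_le_of_forall_le _ _ fun e he => ?_
  have h0 : (Polynomial.C (G0 x) ^ e 0).natDegree ≤ 0 := by
    rw [← Polynomial.C_pow]; exact (natDegree_C _).le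
  have h1 : ((Polynomial.C (-G1 x) * X ^ 2) ^ e 1).natDegree ≤ e 1 * 2 :=
    natDegree_pow_le_of_le _ (natDegree_C_mul_X_pow_le _ _)
  have h2 : ((Polynomial.C (G2 x) * X ^ 4 + Polynomial.C (2 * G1 x) * X ^ 3) ^ e 2).natDegree ≤ e 2 * 4 := by
    refine natDegree_pow_le_of_le _ ?_
    refine natDegree_add_le_of_degree_le (natDegree_C_mul_X_pow_le _ _) ?_
    exact (natDegree_C_mul_X_pow_le _ _).trans (by norm_num)
  have h3 := natDegree_C_mul_le (P.coeff e * x ^ (D - (e 0 + e 1 + e 2))) (Polynomial.C (G0 x) ^ e 0 *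
    (Polynomial.C (-G1 x) * X ^ 2) ^ e 1 * (Polynomial.C (G2 x) * X ^ 4 + Polynomial.C (2 * G1 x) * X ^ 3) ^ e 2)
  refine h3.trans ?_
  refine (natDegree_mul_le_of_le (natDegree_mul_le_of_le h0 h1) h2).trans ?_
  have := hD e he
  omega

theorem ev3_cont (P : MvPolynomial (Fin 3) ℝ) : Continuous fun v : Fin 3 → ℝ => MvPolynomial.eval v P := by
  exact MvPolynomial.continuous_eval P

/-- a relation which holds for large `y` holds for all `y` -/
theorem rel_all (P : MvPolynomial (Fin 3) ℝ) (F1 F2 F3 : ℝ → ℝ) (h1 : AnalyticOnNhd ℝ F1 (Set.Ioi 0))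
    (h2 : AnalyticOnNhd ℝ F2 (Set.Ioi 0)) (h3 : AnalyticOnNhd ℝ F3 (Set.Ioi 0))
    (h : ∀ᶠ y in atTop, ev3 P (F1 y) (F2 y) (F3 y) = 0) (y : ℝ) (hy : 0 < y) :
    ev3 P (F1 y) (F2 y) (F3 y) = 0 := by
  have han : AnalyticOnNhd ℝ (fun y => ev3 P (F1 y) (F2 y) (F3 y)) (Set.Ioi 0) := by
    intro s hs
    unfold ev3
    simp only [MvPolynomial.eval_eq']
    refine Finset.analyticAt_fun_sum _ fun e _ => AnalyticAt.mul analyticAt_const ?_
    refine Finset.analyticAt_fun_prod _ fun i _ => ?_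
    fin_cases i
    · exact (h1 s hs).fun_pow _
    · exact (h2 s hs).fun_pow _
    · exact (h3 s hs).fun_pow _
  obtain ⟨y0, hy0⟩ := (h.and (eventually_gt_atTop (0 : ℝ))).exists_forall_of_atTop
  have hm : y0 + 1 ∈ Set.Ioi (0 : ℝ) := by
    have := (hy0 y0 le_rfl).2
    simp only [Set.mem_Ioi]; linarith
  have := han.eqOn_zero_of_preconnected_of_eventuallyEq_zero isPreconnected_Ioi hm (by
    filter_upwards [eventually_gt_nhds (show y0 < y0 + 1 by linarith)] with s hs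
    exact (hy0 s hs.le).1)
  exact this hy

theorem keyK (P : MvPolynomial (Fin 3) ℝ) (hP : ∀ᶠ y in atTop, ev3 P (g0 y) (g1 y) (g2 y) = 0) (Y y : ℝ)
    (hy : 0 < y) : ev3 P (g0 y) (-Y ^ 2 * g1 y) (Y ^ 4 * g2 y + 2 * Y ^ 3 * g1 y) = 0 := by
  have hPa := rel_all P g0 g1 g2 g0_an g1_an g2_an hP
  obtain ⟨D, hD⟩ : ∃ D : ℕ, ∀ e ∈ P.support, e 0 + e 1 + e 2 ≤ D :=
    ⟨P.support.sup (fun e => e 0 + e 1 + e 2), fun e he =>
      Finset.le_sup (f := fun e : Fin 3 →₀ ℕ => e 0 + e 1 + e 2) he⟩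
  have hpi := Real.pi_pos
  have htr := tr (4 * D) (fun i x => (Phi P D x).coeff i) (-(1 / (2 * Real.pi))) (fun _ => 0)
    (by
      have : (0 : ℝ) < 1 / (2 * Real.pi) := by positivity
      linarith [this] |> fun h => ne_of_lt h)
    analyticAt_const (fun i => Phi_an P D i) (by
      have h1 : ∀ᶠ x : ℝ in 𝓝[>] 0, x < 1 := (eventually_lt_nhds one_pos).filter_mono nhdsWithin_le_nhds
      filter_upwards [h1, self_mem_nhdsWithin] with x hx1 hx0
      have hx0' : (0 : ℝ) < x := hx0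
      have hlog := Real.log_neg hx0' hx1
      have hy0 : 0 < -Real.log x / (2 * Real.pi) := div_pos (by linarith) (by positivity)
      have hxx : xx (-Real.log x / (2 * Real.pi)) = x := by
        unfold xx
        rw [← Real.exp_log hx0']
        congr 1
        rw [Real.exp_log hx0']
        field_simp
      have h2 := hPa (1 / (-Real.log x / (2 * Real.pi))) (by positivity)
      rw [g0_inv _ hy0, g1_inv _ hy0, g2_inv _ hy0] at h2
      have h3 := Phi_eval P D hD x (-Real.log x / (2 * Real.pi)) hx0'.ne'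
      unfold g0 g1 g2 at h2
      rw [hxx] at h2
      rw [h2, mul_zero] at h3
      rw [eval_eq_sum_range' (Nat.lt_succ_of_le (Phi_deg P D hD x))] at h3
      refine Eq.trans ?_ h3
      refine Finset.sum_congr rfl fun i _ => ?_
      congr 2
      ring)
  have hall : ∀ᶠ x : ℝ in 𝓝 0, ∀ i ∈ Finset.range (4 * D + 1), (Phi P D x).coeff i = 0 := by
    rw [Filter.eventually_all_finset]
    intro i hi
    exact htr i (Nat.lt_succ_iff.1 (Finset.mem_range.1 hi))
  have hlarge : ∀ᶠ y in atTop, ev3 P (g0 y) (-Y ^ 2 * g1 y) (Y ^ 4 * g2 y + 2 * Y ^ 3 * g1 y) = 0 := by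
    filter_upwards [xx_tendsto.eventually hall] with y h4
    have h5 := Phi_eval P D hD (xx y) Y (xx_pos y).ne'
    rw [eval_eq_sum_range' (Nat.lt_succ_of_le (Phi_deg P D hD _)), Finset.sum_eq_zero (fun i hi => by
      rw [h4 i hi, zero_mul])] at h5
    have h6 := mul_eq_zero.1 h5.symm
    exact h6.resolve_left (pow_ne_zero _ (xx_pos y).ne')
  refine rel_all P g0 (fun y => -Y ^ 2 * g1 y) (fun y => Y ^ 4 * g2 y + 2 * Y ^ 3 * g1 y) g0_an ?_ ?_ hlarge y hy
  · exact fun s hs => analyticAt_const.mul (g1_an s hs)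
  · exact fun s hs => (analyticAt_const.mul (g2_an s hs)).add (analyticAt_const.mul (g1_an s hs))

/-- the substitution -/
noncomputable def subY (Y : ℝ) (P : MvPolynomial (Fin 3) ℝ) : MvPolynomial (Fin 3) ℝ :=
  MvPolynomial.bind₁ ![MvPolynomial.X 0, MvPolynomial.C (-Y ^ 2) * MvPolynomial.X 1,
    MvPolynomial.C (Y ^ 4) * MvPolynomial.X 2 + MvPolynomial.C (2 * Y ^ 3) * MvPolynomial.X 1] P

theorem ev3_subY (Y : ℝ) (P : MvPolynomial (Fin 3) ℝ) (a b c : ℝ) :
    ev3 (subY Y P) a b c = ev3 P a (-Y ^ 2 * b) (Y ^ 4 * c + 2 * Y ^ 3 * b) := by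
  unfold ev3 subY
  rw [← MvPolynomial.coe_aeval_eq_eval, ← MvPolynomial.coe_aeval_eq_eval]
  simp only [RingHom.coe_coe]
  rw [MvPolynomial.aeval_bind₁]
  congr 2
  funext i
  fin_cases i <;> simp

theorem g1_pos : ∀ᶠ y in atTop, 0 < g1 y := by
  have hc : ContinuousAt G1 0 := (G1_an 0 ⟨le_rfl, one_pos⟩).continuousAt
  have h1 : Tendsto (fun y => G1 (xx y)) atTop (𝓝 (2 * Real.pi)) := by
    have := hc.tendsto.comp xx_tendsto
    rwa [G1_zero] at this
  filter_upwards [h1.eventually_const_lt (show (0 : ℝ) < 2 * Real.pi by positivity)] with y hy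
  exact div_pos hy (xx_pos y)

/-- `j`, `j'`, `j''` are algebraically independent -/
theorem alg3 (P : MvPolynomial (Fin 3) ℝ) (hP : ∀ᶠ y in atTop, ev3 P (g0 y) (g1 y) (g2 y) = 0) : P = 0 := by
  have hK2 : ∀ Y Z y : ℝ, 0 < y → ev3 P (g0 y) (Y ^ 2 * Z ^ 2 * g1 y)
      (Y ^ 4 * (Z ^ 4 * g2 y + 2 * Z ^ 3 * g1 y) - 2 * Y ^ 3 * (Z ^ 2 * g1 y)) = 0 := by
    intro Y Z y hy
    have h1 : ∀ᶠ y in atTop, ev3 (subY Y P) (g0 y) (g1 y) (g2 y) = 0 := by
      filter_upwards [eventually_gt_atTop (0 : ℝ)] with s hs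
      rw [ev3_subY]
      exact keyK P hP Y s hs
    have h2 := keyK (subY Y P) h1 Z y hy
    rw [ev3_subY] at h2
    convert h2 using 2 <;> ring
  obtain ⟨y1, hy1⟩ := (g1_pos.and (eventually_gt_atTop (0 : ℝ))).exists_forall_of_atTop
  -- all `U > 0`, `U ≠ g1 y`, `W ≠ w ^ 4 g2 y`
  have hU1 : ∀ y, y1 ≤ y → ∀ U, 0 < U → U ≠ g1 y → ∀ W, W ≠ (U / g1 y) ^ 2 * g2 y →
      ev3 P (g0 y) U W = 0 := by
    intro y hy U hU hU1 W hW
    obtain ⟨hg, hy0⟩ := hy1 y hy
    set w := √(U / g1 y) with hw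
    have hw2 : w ^ 2 = U / g1 y := Real.sq_sqrt (by positivity)
    have hw0 : 0 < w := Real.sqrt_pos.2 (by positivity)
    have hw1 : w - 1 ≠ 0 := by
      intro h0
      have h1 : w = 1 := by linarith
      rw [h1, one_pow] at hw2
      rw [eq_div_iff hg.ne', one_mul] at hw2
      exact hU1 hw2.symm
    have hUw : U = w ^ 2 * g1 y := by rw [hw2]; field_simp
    have hW' : W - w ^ 4 * g2 y ≠ 0 := by
      intro h0
      apply hW
      have : w ^ 4 = (U / g1 y) ^ 2 := by rw [← hw2]; ring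
      rw [← this]; linarith
    have hden : 2 * w ^ 2 * (w - 1) * g1 y ≠ 0 :=
      mul_ne_zero (mul_ne_zero (by positivity) hw1) hg.ne'
    set Y := (W - w ^ 4 * g2 y) / (2 * w ^ 2 * (w - 1) * g1 y) with hY
    have hY0 : Y ≠ 0 := div_ne_zero hW' hden
    have hYW : W = w ^ 4 * g2 y + 2 * Y * (w ^ 2 * (w - 1) * g1 y) := by
      rw [hY]; field_simp; ring
    have h2 := hK2 Y (w / Y) y hy0
    have e1 : Y ^ 2 * (w / Y) ^ 2 * g1 y = U := by rw [hUw]; field_simp
    have e2 : Y ^ 4 * ((w / Y) ^ 4 * g2 y + 2 * (w / Y) ^ 3 * g1 y) - 2 * Y ^ 3 * ((w / Y) ^ 2 * g1 y) = W := by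
      rw [hYW]; field_simp; ring
    rwa [e1, e2] at h2
  have hcontW : ∀ a U : ℝ, Continuous fun W => ev3 P a U W := by
    intro a U
    refine (ev3_cont P).comp (f := fun W : ℝ => ![a, U, W]) ?_
    refine continuous_pi fun i => ?_
    fin_cases i
    · exact continuous_const
    · exact continuous_const
    · exact continuous_id
  have hcontU : ∀ a W : ℝ, Continuous fun U => ev3 P a U W := by
    intro a W
    refine (ev3_cont P).comp (f := fun U : ℝ => ![a, U, W]) ?_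
    refine continuous_pi fun i => ?_
    fin_cases i
    · exact continuous_const
    · exact continuous_id
    · exact continuous_const
  have hdense : ∀ (f : ℝ → ℝ) (_ : Continuous f) (p : ℝ), (∀ᶠ s in 𝓝[≠] p, f s = 0) → f p = 0 := by
    intro f hf p h
    have h1 : Tendsto f (𝓝[≠] p) (𝓝 (f p)) := (hf.tendsto p).mono_left nhdsWithin_le_nhds
    have h2 : Tendsto f (𝓝[≠] p) (𝓝 0) := tendsto_const_nhds.congr' (h.mono fun s hs => hs.symm)
    exact tendsto_nhds_unique h1 h2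
  have hU2 : ∀ y, y1 ≤ y → ∀ U, 0 < U → U ≠ g1 y → ∀ W, ev3 P (g0 y) U W = 0 := by
    intro y hy U hU hU0 W
    by_cases hW : W = (U / g1 y) ^ 2 * g2 y
    · refine hdense _ (hcontW (g0 y) U) W ?_
      filter_upwards [self_mem_nhdsWithin] with s hs
      exact hU1 y hy U hU hU0 s (by rw [← hW]; exact hs)
    · exact hU1 y hy U hU hU0 W hW
  have hU3 : ∀ y, y1 ≤ y → ∀ U, 0 < U → ∀ W, ev3 P (g0 y) U W = 0 := by
    intro y hy U hU W
    by_cases hU0 : U = g1 y
    · refine hdense _ (hcontU (g0 y) W) U ?_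
      filter_upwards [self_mem_nhdsWithin, (eventually_gt_nhds hU).filter_mono nhdsWithin_le_nhds] with s hs hs0
      exact hU2 y hy s hs0 (by rw [← hU0]; exact hs) W
    · exact hU2 y hy U hU hU0 W
  have hinf : (g0 '' Set.Ici y1).Infinite := by
    obtain ⟨y0, hy0, hg⟩ := g0_log
    have ht : Tendsto g0 atTop atTop := by
      have h1 : ∀ᶠ y in atTop, y ≤ g0 y := by
        filter_upwards [eventually_ge_atTop y0, eventually_ge_atTop (1 : ℝ)] with y h2 h3
        obtain ⟨h4, h5⟩ := hg y h2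
        have h6 := (abs_le.1 h5).1
        have h7 : y ≤ Real.log (g0 y) := by
          have := Real.pi_gt_three
          nlinarith
        have h8 := Real.add_one_le_exp (Real.log (g0 y))
        rw [Real.exp_log h4] at h8
        linarith
      exact tendsto_atTop_mono' _ h1 tendsto_id
    intro hfin
    obtain ⟨M, hM⟩ := hfin.bddAbove
    obtain ⟨y, hy, hy2⟩ := ((ht.eventually_gt_atTop M).and (eventually_ge_atTop y1)).exists
    exact absurd (hM ⟨y, hy2, rfl⟩) (not_le.2 hy)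
  refine MvPolynomial.funext_set ![g0 '' Set.Ici y1, Set.Ioi 0, Set.univ] ?_ ?_
  · intro i
    fin_cases i
    · exact hinf
    · exact Set.Ioi_infinite 0
    · exact Set.infinite_univ
  · intro v hv
    obtain ⟨y, hy, hy'⟩ := hv 0 (Set.mem_univ _)
    have hU : 0 < v 1 := hv 1 (Set.mem_univ _)
    have h1 := hU3 y hy (v 1) hU (v 2)
    rw [hy'] at h1
    rw [map_zero]
    unfold ev3 at h1
    have hv' : v = ![v 0, v 1, v 2] := by
      funext i
      fin_cases i <;> rfl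
    rw [hv']
    exact h1

end Pool.Agent.TH21.MS
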