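import Pool.Agent.TH21.MS.StepB

/-!
# Adjoining functions of several `exp (- 2 π f_k)` of comparable size: preparations
-/

set_option autoImplicit false

open Set Filter Topology Polynomial Asymptotics

namespace Pool.Agent.TH21.MS

/-- the Taylor coefficients of `φ` at zero -/
def Tay (φ : ℝ → ℝ) (τ : ℕ → ℝ) : Prop :=
  (∀ᶠ z in 𝓝 (0 : ℝ), HasSum (fun n => τ n * z ^ n) (φ z)) ∧
    ∀ N : ℕ, (fun z => φ z - ∑ n ∈ Finset.range N, τ n * z ^ n) =O[𝓝 0] (fun z => z ^ N)

theorem exists_tay (φ : ℝ → ℝ) (hφ : AnalyticAt ℝ φ 0) : ∃ τ : ℕ → ℝ, Tay φ τ := by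
  obtain ⟨p, hp⟩ := hφ
  refine ⟨p.coeff, ?_, ?_⟩
  · have := hasFPowerSeriesAt_iff.1 hp
    filter_upwards [this] with z hz
    simpa [smul_eq_mul, mul_comm] using hz
  · intro N
    have h1 := hp.isBigO_sub_partialSum_pow N
    have h2 : (fun y : ℝ => φ (0 + y) - p.partialSum N y) =
        fun z => φ z - ∑ n ∈ Finset.range N, p.coeff n * z ^ n := by
      funext y
      rw [zero_add, FormalMultilinearSeries.partialSum]
      congr 1
      refine Finset.sum_congr rfl fun n _ => ?_
      rw [FormalMultilinearSeries.apply_eq_pow_smul_coeff, smul_eq_mul, mul_comm]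
    rw [h2] at h1
    refine h1.trans ?_
    refine IsBigO.of_bound 1 (Eventually.of_forall fun z => ?_)
    simp

/-- differences of products -/
theorem prod_sub_O {ι : Type} (S : Finset ι) (a b : ι → ℝ → ℝ) (ε : ℝ → ℝ)
    (ha : ∀ i ∈ S, a i =O[atTop] (fun _ => (1 : ℝ))) (hb : ∀ i ∈ S, b i =O[atTop] (fun _ => (1 : ℝ)))
    (hab : ∀ i ∈ S, (fun t => a i t - b i t) =O[atTop] ε) :
    (fun t => ∏ i ∈ S, a i t - ∏ i ∈ S, b i t) =O[atTop] ε ∧
      (fun t => ∏ i ∈ S, b i t) =O[atTop] (fun _ => (1 : ℝ)) := by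
  classical
  induction S using Finset.induction_on with
  | empty =>
    refine ⟨?_, ?_⟩
    · simp only [Finset.prod_empty, sub_self]
      exact isBigO_zero _ _
    · simp only [Finset.prod_empty]
      exact isBigO_refl _ _
  | insert i s hi ih =>
    obtain ⟨h1, h2⟩ := ih (fun j hj => ha j (Finset.mem_insert_of_mem hj))
      (fun j hj => hb j (Finset.mem_insert_of_mem hj)) (fun j hj => hab j (Finset.mem_insert_of_mem hj))
    refine ⟨?_, ?_⟩
    · have h3 : (fun t => ∏ j ∈ insert i s, a j t - ∏ j ∈ insert i s, b j t) =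
          fun t => a i t * (∏ j ∈ s, a j t - ∏ j ∈ s, b j t) + (a i t - b i t) * ∏ j ∈ s, b j t := by
        funext t
        rw [Finset.prod_insert hi, Finset.prod_insert hi]
        ring
      rw [h3]
      have h4 := (ha i (Finset.mem_insert_self i s)).mul h1
      have h5 := (hab i (Finset.mem_insert_self i s)).mul h2
      simp only [one_mul] at h4
      simp only [mul_one] at h5
      exact h4.add h5
    · have h3 : (fun t => ∏ j ∈ insert i s, b j t) = fun t => b i t * ∏ j ∈ s, b j t := by
        funext t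
        rw [Finset.prod_insert hi]
      rw [h3]
      have := (hb i (Finset.mem_insert_self i s)).mul h2
      simpa using this

/-- a continuous function whose absolute value is much larger than `h` has a constant sign -/
theorem sign_dich' (S h : ℝ → ℝ) (hc : ∃ t0, ContinuousOn S (Set.Ici t0)) (h1 : ∀ᶠ t in atTop, 1 ≤ h t)
    (hS : Tendsto (fun t => |S t| / h t) atTop atTop) :
    Tendsto (fun t => S t / h t) atTop atTop ∨ Tendsto (fun t => S t / h t) atTop atBot := by
  obtain ⟨t0, hc⟩ := hc
  have h2 : ∀ᶠ t in atTop, S t ≠ 0 := by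
    filter_upwards [hS.eventually_gt_atTop 0] with t ht h0
    rw [h0, abs_zero, zero_div] at ht
    exact lt_irrefl _ ht
  obtain ⟨t1, ht1⟩ := h2.exists_forall_of_atTop
  set m := max t0 t1 with hm
  have hne : ∀ t ∈ Ici m, S t ≠ 0 := fun t ht => ht1 t ((le_max_right _ _).trans ht)
  have hcm : ContinuousOn S (Ici m) := hc.mono (Ici_subset_Ici.2 (le_max_left _ _))
  rcases lt_or_gt_of_ne (hne m (mem_Ici.2 le_rfl)) with hneg | hpos
  · right
    have hall : ∀ t, m ≤ t → S t < 0 := by
      intro t ht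
      by_contra hcon
      push Not at hcon
      have hIcc : ContinuousOn S (Icc m t) := hcm.mono fun s hs => hs.1
      obtain ⟨s, hs, hs0⟩ := intermediate_value_Icc ht hIcc (show (0 : ℝ) ∈ Icc (S m) (S t) from ⟨hneg.le, hcon⟩)
      exact hne s hs.1 hs0
    refine (tendsto_neg_atTop_atBot.comp hS).congr' ?_
    filter_upwards [eventually_ge_atTop m] with t ht
    simp only [Function.comp]
    rw [abs_of_neg (hall t ht)]
    ring
  · left
    have hall : ∀ t, m ≤ t → 0 < S t := by
      intro t ht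
      by_contra hcon
      push Not at hcon
      have hIcc : ContinuousOn S (Icc m t) := hcm.mono fun s hs => hs.1
      obtain ⟨s, hs, hs0⟩ := intermediate_value_Icc' ht hIcc (show (0 : ℝ) ∈ Icc (S t) (S m) from ⟨hcon, hpos.le⟩)
      exact hne s hs.1 hs0
    refine hS.congr' ?_
    filter_upwards [eventually_ge_atTop m] with t ht
    rw [abs_of_pos (hall t ht)]

/-- independence in one group of variables, from a small interval -/
theorem hind' {r : ℕ} (Gf : Fin r → ℝ → ℝ) (δ : ℝ) (hG : ∀ i, AnalyticOnNhd ℝ (Gf i) (Icc 0 δ))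
    (hind : ∀ P : MvPolynomial (Fin r) ℝ,
      (∀ x ∈ Ioc 0 δ, MvPolynomial.eval (fun i => Gf i x / x) P = 0) → P = 0)
    (ρ : ℝ) (hρ : 0 < ρ) (hρδ : ρ ≤ δ) (P : MvPolynomial (Fin r) ℝ)
    (hP : ∀ x ∈ Ioo 0 ρ, MvPolynomial.eval (fun i => Gf i x / x) P = 0) : P = 0 := by
  refine hind P ?_
  have han : AnalyticOnNhd ℝ (fun x => MvPolynomial.eval (fun i => Gf i x / x) P) (Ioc 0 δ) := by
    intro s hs
    simp only [MvPolynomial.eval_eq']
    refine Finset.analyticAt_fun_sum _ fun e _ => AnalyticAt.mul analyticAt_const ?_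
    refine Finset.analyticAt_fun_prod _ fun i _ => AnalyticAt.fun_pow ?_ _
    exact (hG i s ⟨hs.1.le, hs.2⟩).div analyticAt_id hs.1.ne'
  have hm : ρ / 2 ∈ Ioc 0 δ := ⟨by linarith, by linarith⟩
  have := han.eqOn_zero_of_preconnected_of_eventuallyEq_zero isPreconnected_Ioc hm (by
    have hnb : Ioo 0 ρ ∈ 𝓝 (ρ / 2) := Ioo_mem_nhds (by linarith) (by linarith)
    filter_upwards [hnb] with t ht
    exact hP t ht)
  intro x hx
  exact this hx

/-- independence in several groups of variables -/
theorem block_ind {p r : ℕ} (Gf : Fin r → ℝ → ℝ) (δ : ℝ) (hG : ∀ i, AnalyticOnNhd ℝ (Gf i) (Icc 0 δ))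
    (hind : ∀ P : MvPolynomial (Fin r) ℝ,
      (∀ x ∈ Ioc 0 δ, MvPolynomial.eval (fun i => Gf i x / x) P = 0) → P = 0)
    (ρ : ℝ) (hρ : 0 < ρ) (hρδ : ρ ≤ δ) (R : MvPolynomial (Fin p × Fin r) ℝ)
    (hR : ∀ x : Fin p → ℝ, (∀ k, x k ∈ Ioo 0 ρ) → MvPolynomial.eval (fun q => Gf q.2 (x q.1) / x q.1) R = 0) :
    R = 0 := by
  classical
  have key : ∀ s : Finset (Fin p), ∀ w : Fin p × Fin r → ℝ,
      (∀ k, k ∉ s → ∃ x ∈ Ioo 0 ρ, ∀ i, w (k, i) = Gf i x / x) → MvPolynomial.eval w R = 0 := by
    intro s
    induction s using Finset.induction_on with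
    | empty =>
      intro w hw
      choose x hx hw using fun k => hw k (Finset.notMem_empty k)
      have : w = fun q => Gf q.2 (x q.1) / x q.1 := by
        funext q
        exact hw q.1 q.2
      rw [this]
      exact hR x hx
    | insert k0 s hk0 ih =>
      intro w hw
      set R' : MvPolynomial (Fin r) ℝ := MvPolynomial.aeval (fun q : Fin p × Fin r =>
        if q.1 = k0 then MvPolynomial.X q.2 else MvPolynomial.C (w q)) R with hR'
      have hev : ∀ y : Fin r → ℝ, MvPolynomial.eval y R' =
          MvPolynomial.eval (fun q => if q.1 = k0 then y q.2 else w q) R := by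
        intro y
        rw [hR', MvPolynomial.aeval_def, ← MvPolynomial.coe_eval₂Hom, ← RingHom.comp_apply]
        congr 1
        refine MvPolynomial.ringHom_ext ?_ ?_
        · intro x
          simp
        · intro q
          by_cases h : q.1 = k0 <;> simp [h]
      have hzero : R' = 0 := by
        refine hind' Gf δ hG hind ρ hρ hρδ R' fun x hx => ?_
        rw [hev]
        refine ih _ fun k hk => ?_
        by_cases hkk : k = k0
        · exact ⟨x, hx, fun i => by simp [hkk]⟩
        · obtain ⟨x', hx', hw'⟩ := hw k (by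
            rw [Finset.mem_insert]
            exact fun h => h.elim hkk hk)
          exact ⟨x', hx', fun i => by simp [hkk, hw']⟩
      have h1 := hev (fun i => w (k0, i))
      rw [hzero, map_zero] at h1
      have h2 : (fun q : Fin p × Fin r => if q.1 = k0 then w (k0, q.2) else w q) = w := by
        funext q
        by_cases h : q.1 = k0
        · rw [if_pos h, ← h]
        · rw [if_neg h]
      rw [h2] at h1
      exact h1.symm
  refine MvPolynomial.funext fun w => ?_
  rw [map_zero]
  exact key Finset.univ w fun k hk => absurd (Finset.mem_univ k) hk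

end Pool.Agent.TH21.MS
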