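import Pool.Agent.TH21.MS.BlockA

/-!
# Adjoining functions of several `exp (- 2 π f_k)` of comparable size
-/

set_option autoImplicit false

open Set Filter Topology Polynomial Asymptotics

namespace Pool.Agent.TH21.MS

section

variable {κ : Type} {ι : Type} [Fintype ι] {p : ℕ}

/-- the coefficient of the monomial with exponents `α` -/
noncomputable def Pα (a : ι → MvPolynomial κ ℝ[X]) (τ : ι → Fin p → ℕ → ℝ) (α : Fin p → ℕ) :
    MvPolynomial κ ℝ[X] := ∑ e, MvPolynomial.C (C (∏ k, τ e k (α k))) * a e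

theorem ev_Pα (u : κ → ℝ → ℝ) (a : ι → MvPolynomial κ ℝ[X]) (τ : ι → Fin p → ℕ → ℝ) (α : Fin p → ℕ) (t : ℝ) :
    ev u (Pα a τ α) t = ∑ e, (∏ k, τ e k (α k)) * ev u (a e) t := by
  simp only [Pα, ev, MvPolynomial.eval₂_sum, MvPolynomial.eval₂_mul, MvPolynomial.eval₂_C,
    coe_evalRingHom, eval_C]

/-- the truncated sum -/
theorem trunc_sum (A : ι → ℝ) (τ : ι → Fin p → ℕ → ℝ) (N : ℕ) (x : Fin p → ℝ) :
    ∑ e, A e * ∏ k, ∑ n ∈ Finset.range N, τ e k n * x k ^ n =
      ∑ α ∈ Fintype.piFinset (fun _ : Fin p => Finset.range N), (∑ e, (∏ k, τ e k (α k)) * A e) *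
        ∏ k, x k ^ α k := by
  have h1 : ∀ e, A e * ∏ k, ∑ n ∈ Finset.range N, τ e k n * x k ^ n =
      ∑ α ∈ Fintype.piFinset (fun _ : Fin p => Finset.range N), (∏ k, τ e k (α k)) * A e * ∏ k, x k ^ α k := by
    intro e
    rw [Finset.prod_univ_sum, Finset.mul_sum]
    refine Finset.sum_congr rfl fun α _ => ?_
    rw [Finset.prod_mul_distrib]
    ring
  simp only [h1]
  rw [Finset.sum_comm]
  refine Finset.sum_congr rfl fun α _ => ?_
  rw [Finset.sum_mul]

/-- if all coefficients vanish, the sum vanishes for small independent variables -/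
theorem all_zero (A : ι → ℝ) (φ : ι → Fin p → ℝ → ℝ) (τ : ι → Fin p → ℕ → ℝ)
    (hz : ∀ α : Fin p → ℕ, ∑ e, (∏ k, τ e k (α k)) * A e = 0) (x : Fin p → ℝ)
    (hx : ∀ e k, HasSum (fun n => τ e k n * x k ^ n) (φ e k (x k))) :
    ∑ e, A e * ∏ k, φ e k (x k) = 0 := by
  have h1 : Tendsto (fun N => ∑ e, A e * ∏ k, ∑ n ∈ Finset.range N, τ e k n * x k ^ n) atTop
      (𝓝 (∑ e, A e * ∏ k, φ e k (x k))) := by
    refine tendsto_finsetSum _ fun e _ => Tendsto.const_mul _ ?_
    exact tendsto_finsetProd _ fun k _ => (hx e k).tendsto_sum_nat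
  have h2 : ∀ N, ∑ e, A e * ∏ k, ∑ n ∈ Finset.range N, τ e k n * x k ^ n = 0 := by
    intro N
    rw [trunc_sum]
    refine Finset.sum_eq_zero fun α _ => ?_
    rw [hz, zero_mul]
  simp only [h2] at h1
  exact tendsto_nhds_unique h1 tendsto_const_nhds |>.symm ▸ rfl

end

/-- the main estimate -/
theorem block_core {κ : Type} (u : κ → ℝ → ℝ) (h : ℝ → ℝ) (hLB : LB u h)
    (hh : ∀ᶠ t in atTop, Real.log t ≤ h t)
    (hu : ∀ k, ∃ C : ℝ, 0 ≤ C ∧ ∀ᶠ t in atTop, |u k t| ≤ Real.exp (C * h t))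
    (h1 : ∀ᶠ t in atTop, 1 ≤ h t) {p : ℕ} (f : Fin p → ℝ → ℝ)
    (hpos : ∀ k, ∀ᶠ t in atTop, 0 < f k t)
    (hcont : ∀ k, ∃ t0, ContinuousOn (f k) (Set.Ici t0))
    (hH : ∀ c : Fin p → ℤ, c ≠ 0 → Tendsto (fun t => |∑ k, (c k : ℝ) * f k t| / h t) atTop atTop)
    (K : ℝ) (hK : ∀ k l, ∀ᶠ t in atTop, f l t ≤ K * f k t)
    {ι : Type} [Fintype ι] (a : ι → MvPolynomial κ ℝ[X]) (φ : ι → Fin p → ℝ → ℝ) (τ : ι → Fin p → ℕ → ℝ)
    (hτ : ∀ e k, Tay (φ e k) (τ e k)) (α0 : Fin p → ℕ) (hα0 : Pα a τ α0 ≠ 0) :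
    ∃ C : ℝ, ∀ᶠ t in atTop, Real.exp (-C * (h t + ∑ k, f k t)) ≤
      |∑ e, ev u (a e) t * ∏ k, φ e k (xp (f k t))| := by
  classical
  have hfh : ∀ k, Tendsto (fun t => f k t / h t) atTop atTop := by
    intro k
    have hc : (Pi.single k 1 : Fin p → ℤ) ≠ 0 := by
      intro h0
      have := congrFun h0 k
      simp at this
    refine (hH _ hc).congr' ?_
    filter_upwards [hpos k] with t ht
    have : ∑ l, ((Pi.single k 1 : Fin p → ℤ) l : ℝ) * f l t = f k t := by
      rw [Finset.sum_eq_single k]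
      · simp
      · intro l _ hl
        simp [hl]
      · intro hk
        exact absurd (Finset.mem_univ k) hk
    rw [this, abs_of_pos ht]
  have hft : ∀ k, Tendsto (f k) atTop atTop := by
    intro k
    refine tendsto_atTop_mono' _ ?_ (hfh k)
    filter_upwards [h1, hpos k] with t h2 h3
    exact div_le_self h3.le h2
  have hX : ∀ k, Tendsto (fun t => xp (f k t)) atTop (𝓝 0) := fun k => xp_tendsto _ (hft k)
  have hXpos : ∀ k t, 0 < xp (f k t) := fun k t => Real.exp_pos _
  -- the choice of `N`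
  obtain ⟨N, hN1, hN2⟩ : ∃ N : ℕ, (∀ k, α0 k < N) ∧ |K| * (∑ k, (α0 k : ℝ)) + 1 ≤ N := by
    obtain ⟨N1, hN1⟩ := exists_nat_ge (|K| * (∑ k, (α0 k : ℝ)) + 1)
    refine ⟨N1 + (∑ k, α0 k) + 1, fun k => ?_, ?_⟩
    · have h2 : α0 k ≤ ∑ k, α0 k :=
        Finset.single_le_sum (f := fun k => α0 k) (fun i _ => Nat.zero_le _) (Finset.mem_univ k)
      omega
    · push_cast
      have : (0 : ℝ) ≤ ∑ k, (α0 k : ℝ) := Finset.sum_nonneg fun i _ => Nat.cast_nonneg _
      linarith
  set S : Finset (Fin p → ℕ) := (Fintype.piFinset (fun _ : Fin p => Finset.range N)).filter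
    (fun α => Pα a τ α ≠ 0) with hS
  have hα0S : α0 ∈ S := by
    rw [hS, Finset.mem_filter, Fintype.mem_piFinset]
    exact ⟨fun k => Finset.mem_range.2 (hN1 k), hα0⟩
  set ψ : (Fin p → ℕ) → ℝ → ℝ := fun α t => ev u (Pα a τ α) t * ∏ k, xp (f k t) ^ α k with hψ
  -- logarithms
  have hlog : ∀ α ∈ S, ∃ C : ℝ, 0 ≤ C ∧ ∀ᶠ t in atTop, ψ α t ≠ 0 ∧
      |Real.log |ψ α t| + 2 * Real.pi * ∑ k, (α k : ℝ) * f k t| ≤ C * h t := by
    intro α hα
    have hne : Pα a τ α ≠ 0 := (Finset.mem_filter.1 hα).2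
    obtain ⟨C1, hC1⟩ := hLB _ hne
    obtain ⟨C2, hC2, hC2'⟩ := ev_ub u h hh hu (Pα a τ α)
    refine ⟨|C1| + C2, by positivity, ?_⟩
    filter_upwards [hC1, hC2', h1] with t g1 g2 g3
    have hev : 0 < |ev u (Pα a τ α) t| := (Real.exp_pos _).trans_le g1
    have hprod : 0 < ∏ k, xp (f k t) ^ α k := Finset.prod_pos fun k _ => pow_pos (hXpos k t) _
    refine ⟨mul_ne_zero (abs_pos.1 hev) hprod.ne', ?_⟩
    have e1 : Real.log |ψ α t| = Real.log |ev u (Pα a τ α) t| - 2 * Real.pi * ∑ k, (α k : ℝ) * f k t := by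
      simp only [hψ]
      rw [abs_mul, abs_of_pos hprod, Real.log_mul hev.ne' hprod.ne', Real.log_prod (fun k _ => (pow_pos (hXpos k t) _).ne'),
        sub_eq_add_neg]
      congr 1
      rw [Finset.mul_sum, ← Finset.sum_neg_distrib]
      refine Finset.sum_congr rfl fun k _ => ?_
      rw [Real.log_pow, xp, Real.log_exp]
      ring
    rw [e1, sub_add_cancel, abs_le]
    have e2 : Real.log |ev u (Pα a τ α) t| ≤ C2 * h t := by
      rw [Real.log_le_iff_le_exp hev]
      exact g2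
    have e3 : -C1 * h t ≤ Real.log |ev u (Pα a τ α) t| := by
      rw [Real.le_log_iff_exp_le hev]
      exact g1
    have e4 : C1 * h t ≤ |C1| * h t := mul_le_mul_of_nonneg_right (le_abs_self C1) (by linarith)
    have e5 : 0 ≤ |C1| * h t := mul_nonneg (abs_nonneg _) (by linarith)
    have e6 : 0 ≤ C2 * h t := mul_nonneg hC2 (by linarith)
    constructor <;> linarith
  have hratio : ∀ α ∈ S, ∀ α' ∈ S,
      Tendsto (fun t => (∑ k, (((α k : ℤ) - (α' k : ℤ) : ℤ) : ℝ) * f k t) / h t) atTop atTop →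
      Tendsto (fun t => ψ α t / ψ α' t) atTop (𝓝 0) := by
    intro α hα α' hα' hT
    obtain ⟨C, -, hC⟩ := hlog α hα
    obtain ⟨C', -, hC'⟩ := hlog α' hα'
    have e1 : Tendsto (fun t => (C + C' - 2 * Real.pi * ((∑ k, (((α k : ℤ) - (α' k : ℤ) : ℤ) : ℝ) * f k t) / h t)) *
        h t) atTop atBot := by
      have e2 : Tendsto (fun t => (C + C' - 2 * Real.pi * ((∑ k, (((α k : ℤ) - (α' k : ℤ) : ℤ) : ℝ) * f k t) / h t)))
          atTop atBot := by
        have := (tendsto_neg_atTop_atBot.comp (Tendsto.const_mul_atTop (show (0 : ℝ) < 2 * Real.pi by positivity) hT))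
        refine (tendsto_atBot_add_const_left _ (C + C') this).congr fun t => ?_
        simp only [Function.comp]
        ring
      have e3 := e2.eventually_le_atBot 0
      refine tendsto_atBot_mono' _ ?_ e2
      filter_upwards [e3, h1] with t g1 g2
      nlinarith
    have e4 := Real.tendsto_exp_atBot.comp e1
    rw [tendsto_zero_iff_abs_tendsto_zero]
    refine squeeze_zero' (Eventually.of_forall fun t => abs_nonneg _) ?_ e4
    filter_upwards [hC, hC', h1] with t g1 g2 g3
    simp only [Function.comp]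
    have e5 : |ψ α t / ψ α' t| = Real.exp (Real.log |ψ α t| - Real.log |ψ α' t|) := by
      rw [Real.exp_sub, Real.exp_log (abs_pos.2 g1.1), Real.exp_log (abs_pos.2 g2.1), abs_div]
    rw [e5]
    apply Real.exp_le_exp.2
    have e6 := abs_le.1 g1.2
    have e7 := abs_le.1 g2.2
    have hht : 0 < h t := by linarith
    have e8 : (C + C' - 2 * Real.pi * ((∑ k, (((α k : ℤ) - (α' k : ℤ) : ℤ) : ℝ) * f k t) / h t)) * h t =
        C * h t + C' * h t - 2 * Real.pi * (∑ k, (α k : ℝ) * f k t - ∑ k, (α' k : ℝ) * f k t) := by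
      rw [← Finset.sum_sub_distrib]
      have e9 : ∑ k, (((α k : ℤ) - (α' k : ℤ) : ℤ) : ℝ) * f k t = ∑ k, ((α k : ℝ) * f k t - (α' k : ℝ) * f k t) := by
        refine Finset.sum_congr rfl fun k _ => ?_
        push_cast
        ring
      rw [e9]
      field_simp
    rw [e8]
    linarith [e6.2, e7.1]
  have hcontS : ∀ c : Fin p → ℤ, ∃ t0, ContinuousOn (fun t => ∑ k, (c k : ℝ) * f k t) (Set.Ici t0) := by
    intro c
    choose t2 ht2 using hcont
    obtain ⟨t3, ht3⟩ : ∃ t3, ∀ k, t2 k ≤ t3 := by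
      obtain ⟨M, hM⟩ := (Finset.univ.image t2).bddAbove
      exact ⟨M, fun k => hM (Finset.mem_coe.2 (Finset.mem_image_of_mem t2 (Finset.mem_univ k)))⟩
    refine ⟨t3, ?_⟩
    refine continuousOn_finsetSum _ fun k _ => ?_
    exact ContinuousOn.mul continuousOn_const ((ht2 k).mono (Ici_subset_Ici.2 (ht3 k)))
  obtain ⟨α1, hα1, hmax⟩ := exists_max S ⟨α0, hα0S⟩ ψ
    (fun α hα => by
      obtain ⟨C, -, hC⟩ := hlog α hα
      filter_upwards [hC] with t ht using ht.1)
    (by
      intro α hα α' hα' hne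
      have hc : (fun k => (α k : ℤ) - (α' k : ℤ)) ≠ 0 := by
        intro h0
        apply hne
        funext k
        have := congrFun h0 k
        simp only [Pi.zero_apply] at this
        omega
      rcases sign_dich' _ h (hcontS _) h1 (hH _ hc) with g | g
      · left
        exact hratio α hα α' hα' g
      · right
        refine hratio α' hα' α hα ?_
        refine (tendsto_neg_atBot_atTop.comp g).congr fun t => ?_
        simp only [Function.comp]
        rw [← neg_div, ← Finset.sum_neg_distrib]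
        congr 1
        refine Finset.sum_congr rfl fun k _ => ?_
        push_cast
        ring)
  have hne1 : ∀ᶠ t in atTop, ψ α1 t ≠ 0 := by
    obtain ⟨C, -, hC⟩ := hlog α1 hα1
    filter_upwards [hC] with t ht using ht.1
  -- `ψ α0` is at most `ψ α1`
  have h01 : (ψ α0) =O[atTop] (ψ α1) := by
    by_cases he : α0 = α1
    · rw [he]
    · have := hmax α0 hα0S he
      exact (isLittleO_of_tendsto' (by filter_upwards [hne1] with t ht h0 using absurd h0 ht) this).isBigO
  -- the powers `x_k ^ N` are small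
  have hsmall : ∀ k, ∀ C : ℝ, (fun t => Real.exp (C * h t) * xp (f k t) ^ N) =o[atTop] (ψ α0) := by
    intro k C
    obtain ⟨C', -, hC'⟩ := hlog α0 hα0S
    refine isLittleO_of_tendsto' (by filter_upwards [hC'] with t ht h0 using absurd h0 ht.1) ?_
    have hKall : ∀ᶠ t in atTop, ∀ l, f l t ≤ K * f k t := eventually_all.2 fun l => hK k l
    have e1 : Tendsto (fun t => (C + C' - 2 * Real.pi * (f k t / h t)) * h t) atTop atBot := by
      have e2 : Tendsto (fun t => (C + C' - 2 * Real.pi * (f k t / h t))) atTop atBot := by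
        have := (tendsto_neg_atTop_atBot.comp (Tendsto.const_mul_atTop (show (0 : ℝ) < 2 * Real.pi by positivity) (hfh k)))
        refine (tendsto_atBot_add_const_left _ (C + C') this).congr fun t => ?_
        simp only [Function.comp]
        ring
      have e3 := e2.eventually_le_atBot 0
      refine tendsto_atBot_mono' _ ?_ e2
      filter_upwards [e3, h1] with t g1 g2
      nlinarith
    have e4 := Real.tendsto_exp_atBot.comp e1
    rw [tendsto_zero_iff_abs_tendsto_zero]
    refine squeeze_zero' (Eventually.of_forall fun t => abs_nonneg _) ?_ e4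
    filter_upwards [hC', h1, hKall, hpos k, eventually_all.2 hpos] with t g1 g3 g4 g5 g6
    simp only [Function.comp]
    have e5 : |Real.exp (C * h t) * xp (f k t) ^ N / ψ α0 t| =
        Real.exp (C * h t - 2 * Real.pi * N * f k t - Real.log |ψ α0 t|) := by
      rw [abs_div, Real.exp_sub, Real.exp_log (abs_pos.2 g1.1), Real.exp_sub]
      congr 1
      rw [abs_of_pos (mul_pos (Real.exp_pos _) (pow_pos (hXpos k t) _)), div_eq_mul_inv, ← Real.exp_neg]
      congr 1
      unfold xp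
      rw [← Real.exp_nat_mul]
      congr 1
      ring
    rw [e5]
    apply Real.exp_le_exp.2
    have e6 := abs_le.1 g1.2
    have hht : 0 < h t := by linarith
    have e7 : (C + C' - 2 * Real.pi * (f k t / h t)) * h t = C * h t + C' * h t - 2 * Real.pi * f k t := by
      field_simp
    rw [e7]
    have e8 : ∑ l, (α0 l : ℝ) * f l t ≤ |K| * (∑ l, (α0 l : ℝ)) * f k t := by
      rw [Finset.mul_sum, Finset.sum_mul]
      refine Finset.sum_le_sum fun l _ => ?_
      have e9 : f l t ≤ |K| * f k t := (g4 l).trans (mul_le_mul_of_nonneg_right (le_abs_self K) g5.le)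
      have e10 : (0 : ℝ) ≤ α0 l := Nat.cast_nonneg _
      calc (α0 l : ℝ) * f l t ≤ (α0 l : ℝ) * (|K| * f k t) := mul_le_mul_of_nonneg_left e9 e10
        _ = |K| * (α0 l : ℝ) * f k t := by ring
    have e11 : (|K| * (∑ l, (α0 l : ℝ)) + 1) * f k t ≤ N * f k t := mul_le_mul_of_nonneg_right hN2 g5.le
    have e12 : ∑ l, (α0 l : ℝ) * f l t + f k t ≤ N * f k t := by nlinarith
    have hpi := Real.pi_pos
    have e13 : 2 * Real.pi * (∑ l, (α0 l : ℝ) * f l t + f k t) ≤ 2 * Real.pi * (N * f k t) :=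
      mul_le_mul_of_nonneg_left e12 (by positivity)
    linarith [e6.1, e13]
  -- the truncation error
  set M : ℝ → ℝ := fun t => ∑ e, ev u (a e) t * ∏ k, ∑ n ∈ Finset.range N, τ e k n * xp (f k t) ^ n with hM
  set F : ℝ → ℝ := fun t => ∑ e, ev u (a e) t * ∏ k, φ e k (xp (f k t)) with hF
  have herr : (fun t => F t - M t) =o[atTop] (ψ α0) := by
    have e0 : (fun t => F t - M t) = fun t => ∑ e, ev u (a e) t * (∏ k, φ e k (xp (f k t)) -
        ∏ k, ∑ n ∈ Finset.range N, τ e k n * xp (f k t) ^ n) := by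
      funext t
      simp only [hF, hM]
      rw [← Finset.sum_sub_distrib]
      refine Finset.sum_congr rfl fun e _ => ?_
      ring
    rw [e0]
    refine IsLittleO.fun_sum fun e _ => ?_
    obtain ⟨C, -, hC⟩ := ev_ub u h hh hu (a e)
    have e1 : (fun t => ev u (a e) t) =O[atTop] (fun t => Real.exp (C * h t)) := by
      refine IsBigO.of_bound 1 ?_
      filter_upwards [hC] with t ht
      rw [one_mul, Real.norm_eq_abs, Real.norm_eq_abs, abs_of_pos (Real.exp_pos _)]
      exact ht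
    have hbd : ∀ k, (fun t => φ e k (xp (f k t))) =O[atTop] (fun _ => (1 : ℝ)) := by
      intro k
      have e2 := ((hτ e k).2 0).comp_tendsto (hX k)
      simpa [Function.comp_def] using e2
    have hab : ∀ k, (fun t => φ e k (xp (f k t)) - ∑ n ∈ Finset.range N, τ e k n * xp (f k t) ^ n) =O[atTop]
        (fun t => xp (f k t) ^ N) := by
      intro k
      exact ((hτ e k).2 N).comp_tendsto (hX k)
    have hsum : ∀ k, (fun t => xp (f k t) ^ N) =O[atTop] (fun t => ∑ l, xp (f l t) ^ N) := by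
      intro k
      refine IsBigO.of_bound 1 (Eventually.of_forall fun t => ?_)
      rw [one_mul, Real.norm_eq_abs, Real.norm_eq_abs, abs_of_pos (pow_pos (hXpos k t) _),
        abs_of_nonneg (Finset.sum_nonneg fun l _ => (pow_pos (hXpos l t) _).le)]
      exact Finset.single_le_sum (f := fun l => xp (f l t) ^ N) (fun l _ => (pow_pos (hXpos l t) _).le)
        (Finset.mem_univ k)
    have hone : ∀ k, (fun t => xp (f k t) ^ N) =O[atTop] (fun _ => (1 : ℝ)) := by
      intro k
      have : Tendsto (fun t => xp (f k t) ^ N) atTop (𝓝 (0 ^ N)) := (hX k).pow N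
      exact this.isBigO_one ℝ
    have e2 := (prod_sub_O Finset.univ (fun k t => φ e k (xp (f k t)))
      (fun k t => ∑ n ∈ Finset.range N, τ e k n * xp (f k t) ^ n) (fun t => ∑ l, xp (f l t) ^ N)
      (fun k _ => hbd k) (fun k _ => by
        have e3 := (hbd k).sub ((hab k).trans (hone k))
        refine e3.congr_left fun t => ?_
        ring) (fun k _ => (hab k).trans (hsum k))).1
    have e3 := e1.mul e2
    refine e3.trans_isLittleO ?_
    have e4 : (fun t => Real.exp (C * h t) * ∑ l, xp (f l t) ^ N) =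
        fun t => ∑ l, Real.exp (C * h t) * xp (f l t) ^ N := by
      funext t
      rw [Finset.mul_sum]
    rw [e4]
    exact IsLittleO.fun_sum fun l _ => hsmall l C
  -- the main term
  have hmain : Tendsto (fun t => M t / ψ α1 t) atTop (𝓝 1) := by
    have e1 : Tendsto (fun t => ∑ α ∈ S, ψ α t / ψ α1 t) atTop
        (𝓝 (∑ α ∈ S, if α = α1 then 1 else 0)) := by
      refine tendsto_finsetSum _ fun α hα => ?_
      by_cases hee : α = α1
      · rw [if_pos hee, hee]
        refine tendsto_const_nhds.congr' ?_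
        filter_upwards [hne1] with t ht
        rw [div_self ht]
      · rw [if_neg hee]
        exact hmax α hα hee
    rw [Finset.sum_ite_eq' S α1 (fun _ => (1 : ℝ)), if_pos hα1] at e1
    refine e1.congr fun t => ?_
    rw [← Finset.sum_div]
    congr 1
    simp only [hM]
    rw [trunc_sum, hS, Finset.sum_filter]
    refine Finset.sum_congr rfl fun α _ => ?_
    by_cases hc : Pα a τ α = 0
    · rw [if_neg (not_not.2 hc), ← ev_Pα, hc, ev_zero, zero_mul]
    · rw [if_pos hc, ← ev_Pα]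
  have htot : Tendsto (fun t => F t / ψ α1 t) atTop (𝓝 1) := by
    have e1 : Tendsto (fun t => (F t - M t) / ψ α1 t) atTop (𝓝 0) :=
      (herr.trans_isBigO h01).tendsto_div_nhds_zero
    have e2 := e1.add hmain
    rw [zero_add] at e2
    refine e2.congr fun t => ?_
    ring
  obtain ⟨c0, hc0, hc0'⟩ := h01.exists_pos
  rw [isBigOWith_iff] at hc0'
  obtain ⟨C, hC0, hC⟩ := hlog α0 hα0S
  refine ⟨C + 2 * Real.pi * (∑ k, (α0 k : ℝ)) + |Real.log (2 * c0)|, ?_⟩
  filter_upwards [hC, hc0', htot.eventually_const_lt (show (1 / 2 : ℝ) < 1 by norm_num), hne1, h1,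
    eventually_all.2 hpos] with t g1 g2 g3 g4 g5 g6
  have e1 : |ψ α1 t| / 2 ≤ |F t| := by
    have e2 : |F t| = |F t / ψ α1 t| * |ψ α1 t| := by
      rw [← abs_mul, div_mul_cancel₀ _ g4]
    rw [e2]
    have : (1 / 2 : ℝ) ≤ |F t / ψ α1 t| := g3.le.trans (le_abs_self _)
    have := abs_nonneg (ψ α1 t)
    nlinarith
  rw [Real.norm_eq_abs, Real.norm_eq_abs] at g2
  have e3 : |ψ α0 t| / (2 * c0) ≤ |F t| := by
    refine le_trans ?_ e1
    rw [div_le_div_iff₀ (by positivity) (by norm_num)]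
    nlinarith
  refine le_trans ?_ e3
  have e4 : |ψ α0 t| / (2 * c0) = Real.exp (Real.log |ψ α0 t| - Real.log (2 * c0)) := by
    rw [Real.exp_sub, Real.exp_log (abs_pos.2 g1.1), Real.exp_log (by positivity)]
  rw [e4]
  apply Real.exp_le_exp.2
  have e5 := (abs_le.1 g1.2).1
  have e6 : ∑ k, (α0 k : ℝ) * f k t ≤ (∑ k, (α0 k : ℝ)) * ∑ k, f k t := by
    rw [Finset.sum_mul]
    refine Finset.sum_le_sum fun k _ => ?_
    refine mul_le_mul_of_nonneg_left ?_ (Nat.cast_nonneg _)
    exact Finset.single_le_sum (f := fun l => f l t) (fun l _ => (g6 l).le) (Finset.mem_univ k)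
  have hsumf : 0 ≤ ∑ k, f k t := Finset.sum_nonneg fun k _ => (g6 k).le
  have hsumα : (0 : ℝ) ≤ ∑ k, (α0 k : ℝ) := Finset.sum_nonneg fun i _ => Nat.cast_nonneg _
  have hpi := Real.pi_pos
  have e7 : 2 * Real.pi * ∑ k, (α0 k : ℝ) * f k t ≤ 2 * Real.pi * ((∑ k, (α0 k : ℝ)) * ∑ k, f k t) :=
    mul_le_mul_of_nonneg_left e6 (by positivity)
  have e8 := le_abs_self (Real.log (2 * c0))
  have e9 := abs_nonneg (Real.log (2 * c0))
  have e10 : 0 ≤ C * ∑ k, f k t := mul_nonneg hC0 hsumf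
  have e11 : 0 ≤ 2 * Real.pi * (∑ k, (α0 k : ℝ)) * h t := by positivity
  have e12 : |Real.log (2 * c0)| ≤ |Real.log (2 * c0)| * (h t + ∑ k, f k t) :=
    le_mul_of_one_le_right e9 (by linarith)
  have e13 : -(C + 2 * Real.pi * (∑ k, (α0 k : ℝ)) + |Real.log (2 * c0)|) * (h t + ∑ k, f k t) =
      -(C * h t) - C * ∑ k, f k t - 2 * Real.pi * (∑ k, (α0 k : ℝ)) * h t -
        2 * Real.pi * ((∑ k, (α0 k : ℝ)) * ∑ k, f k t) - |Real.log (2 * c0)| * (h t + ∑ k, f k t) := by ring
  rw [e13]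
  linarith

end Pool.Agent.TH21.MS
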