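import Pool.Agent.TH21.MS.StepB

/-!
# Adjoining functions of `exp (- 2 π f_k)` for functions `f_0 ≪ f_1 ≪ …`
-/

set_option autoImplicit false

open Set Filter Topology Polynomial

namespace Pool.Agent.TH21.MS

open Pool.Agent.TH818.AR

theorem LB_equiv {κ κ' : Type} (e : κ' ≃ κ) (u : κ → ℝ → ℝ) (u' : κ' → ℝ → ℝ) (hu : ∀ k, u' k = u (e k))
    (h : ℝ → ℝ) (hLB : LB u h) : LB u' h := by
  intro P hP
  have h1 : ∀ t, ev u' P t = ev u (MvPolynomial.rename e P) t := by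
    intro t
    unfold ev
    rw [MvPolynomial.eval₂_rename]
    congr 1
    funext k
    simp only [hu, Function.comp]
  have h2 : MvPolynomial.rename e P ≠ 0 := by
    intro h0
    exact hP (MvPolynomial.rename_injective e e.injective (by rw [h0, map_zero]))
  obtain ⟨C, hC⟩ := hLB _ h2
  refine ⟨C, ?_⟩
  simpa only [h1] using hC

/-- the control functions -/
def Hc (h0 : ℝ → ℝ) (f : ℕ → ℝ → ℝ) : ℕ → ℝ → ℝ
  | 0 => h0
  | k + 1 => f k

/-- the family of functions -/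
noncomputable def V {κ : Type} (u : κ → ℝ → ℝ) {r : ℕ} (Gf : Fin r → ℝ → ℝ) (f : ℕ → ℝ → ℝ) (n : ℕ) :
    κ ⊕ (Fin n × Fin r) → ℝ → ℝ :=
  Sum.elim u (fun p t => Gf p.2 (xp (f p.1 t)) / xp (f p.1 t))

/-- the bijection of the indices -/
def eqIdx (κ : Type) (r n : ℕ) : κ ⊕ (Fin (n + 1) × Fin r) ≃ Fin r ⊕ (κ ⊕ (Fin n × Fin r)) where
  toFun := Sum.elim (fun x => Sum.inr (Sum.inl x)) (fun p =>
    Fin.lastCases (motive := fun _ => Fin r ⊕ (κ ⊕ (Fin n × Fin r))) (Sum.inl p.2)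
      (fun i => Sum.inr (Sum.inr (i, p.2))) p.1)
  invFun := Sum.elim (fun j => Sum.inr (Fin.last n, j))
    (Sum.elim Sum.inl (fun p => Sum.inr (p.1.castSucc, p.2)))
  left_inv := by
    rintro (x | ⟨i, j⟩)
    · rfl
    · refine Fin.lastCases ?_ (fun i => ?_) i
      · simp
      · simp
  right_inv := by
    rintro (j | x | ⟨i, j⟩)
    · simp
    · rfl
    · simp

theorem V_step {κ : Type} (u : κ → ℝ → ℝ) {r : ℕ} (Gf : Fin r → ℝ → ℝ) (f : ℕ → ℝ → ℝ) (n : ℕ)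
    (k : κ ⊕ (Fin (n + 1) × Fin r)) : V u Gf f (n + 1) k =
    (Sum.elim (fun (i : Fin r) t => Gf i (xp (f n t)) / xp (f n t)) (V u Gf f n)) (eqIdx κ r n k) := by
  rcases k with x | ⟨i, j⟩
  · rfl
  · refine Fin.lastCases ?_ (fun i => ?_) i
    · simp [V, eqIdx]
    · simp [V, eqIdx]

theorem quot_ub {r : ℕ} (Gf : Fin r → ℝ → ℝ) (δ : ℝ) (hδ : 0 < δ)
    (hG : ∀ i, AnalyticOnNhd ℝ (Gf i) (Icc 0 δ)) (f : ℝ → ℝ) (hf : Tendsto f atTop atTop) (i : Fin r) :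
    ∃ C : ℝ, 0 ≤ C ∧ ∀ᶠ t in atTop, |Gf i (xp (f t)) / xp (f t)| ≤ Real.exp (C * f t) := by
  have hc : ContinuousAt (Gf i) 0 := (hG i 0 ⟨le_rfl, hδ.le⟩).continuousAt
  have h1 : Tendsto (fun t => |Gf i (xp (f t))|) atTop (𝓝 |Gf i 0|) :=
    (hc.tendsto.comp (xp_tendsto f hf)).abs
  have hpi := Real.pi_pos
  refine ⟨|Gf i 0| + 1 + 2 * Real.pi, by positivity, ?_⟩
  filter_upwards [h1.eventually_lt_const (show |Gf i 0| < |Gf i 0| + 1 by linarith), hf.eventually_ge_atTop 1]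
    with t h2 h3
  have hx : 0 < xp (f t) := Real.exp_pos _
  rw [abs_div, abs_of_pos hx, add_mul, Real.exp_add]
  have h4 : Real.exp (2 * Real.pi * f t) = (xp (f t))⁻¹ := by
    unfold xp
    rw [← Real.exp_neg, neg_neg]
  rw [h4, div_eq_mul_inv]
  refine mul_le_mul_of_nonneg_right ?_ (inv_pos.2 hx).le
  have h5 := Real.add_one_le_exp ((|Gf i 0| + 1) * f t)
  have h6 : |Gf i 0| + 1 ≤ (|Gf i 0| + 1) * f t := le_mul_of_one_le_right (by positivity) h3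
  linarith

theorem LB_iter {κ : Type} (u : κ → ℝ → ℝ) (h0 : ℝ → ℝ) (hLB : LB u h0)
    (hh : ∀ᶠ t in atTop, Real.log t ≤ h0 t)
    (hu : ∀ k, ∃ C : ℝ, 0 ≤ C ∧ ∀ᶠ t in atTop, |u k t| ≤ Real.exp (C * h0 t))
    {r : ℕ} (Gf : Fin r → ℝ → ℝ) (δ : ℝ) (hδ : 0 < δ)
    (hδ1 : δ < 1) (hG : ∀ i, AnalyticOnNhd ℝ (Gf i) (Icc 0 δ))
    (hind : ∀ P : MvPolynomial (Fin r) ℝ,
      (∀ x ∈ Ioc 0 δ, MvPolynomial.eval (fun i => Gf i x / x) P = 0) → P = 0)
    (f : ℕ → ℝ → ℝ) (N : ℕ)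
    (hf : ∀ k, k < N → Tendsto (fun t => f k t / Hc h0 f k t) atTop atTop) :
    ∀ n, n ≤ N → LB (V u Gf f n) (Hc h0 f n) ∧ (∀ᶠ t in atTop, Real.log t ≤ Hc h0 f n t) ∧
      ∀ k, ∃ C : ℝ, 0 ≤ C ∧ ∀ᶠ t in atTop, |V u Gf f n k t| ≤ Real.exp (C * Hc h0 f n t) := by
  intro n
  induction n with
  | zero =>
    intro _
    refine ⟨?_, hh, ?_⟩
    · refine LB_equiv (Equiv.sumEmpty κ (Fin 0 × Fin r)) u _ ?_ _ hLB
      rintro (x | ⟨i, -⟩)
      · rfl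
      · exact i.elim0
    · rintro (x | ⟨i, -⟩)
      · exact hu x
      · exact i.elim0
  | succ n ih =>
    intro hn
    obtain ⟨ih1, ih2, ih3⟩ := ih (by omega)
    have hfn := hf n (by omega)
    have h1 : ∀ᶠ t in atTop, 1 ≤ Hc h0 f n t := by
      filter_upwards [ih2, Real.tendsto_log_atTop.eventually_ge_atTop 1] with t h2 h3
      linarith
    have hle : ∀ᶠ t in atTop, Hc h0 f n t ≤ f n t := by
      filter_upwards [hfn.eventually_ge_atTop 1, h1] with t h2 h3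
      rwa [le_div_iff₀ (by linarith), one_mul] at h2
    have hlog : ∀ᶠ t in atTop, Real.log t ≤ f n t := by
      filter_upwards [ih2, hle] with t h2 h3
      exact h2.trans h3
    have hft : Tendsto (f n) atTop atTop := tendsto_atTop_mono' _ hlog Real.tendsto_log_atTop
    refine ⟨?_, hlog, ?_⟩
    · exact LB_equiv (eqIdx κ r n) _ _ (V_step u Gf f n) _
        (LB_step (V u Gf f n) (Hc h0 f n) (f n) ih1 ih2 ih3 hfn Gf δ hδ hδ1 hG hind)
    · intro k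
      rw [V_step]
      rcases eqIdx κ r n k with i | k'
      · exact quot_ub Gf δ hδ hG (f n) hft i
      · obtain ⟨C, hC, h2⟩ := ih3 k'
        refine ⟨C, hC, ?_⟩
        filter_upwards [h2, hle] with t h3 h4
        exact h3.trans (Real.exp_le_exp.2 (mul_le_mul_of_nonneg_left h4 hC))

end Pool.Agent.TH21.MS
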