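import Pool.Agent.TH21.MS.BlockB
import Pool.Agent.TH21.MS.Iter

/-!
# Adjoining functions of several `exp (- 2 π f_k)` of comparable size
-/

set_option autoImplicit false

open Set Filter Topology Polynomial

namespace Pool.Agent.TH21.MS

theorem ev_sumElim' {σ κ : Type} (x : σ → ℝ → ℝ) (u : κ → ℝ → ℝ)
    (P : MvPolynomial (σ ⊕ κ) ℝ[X]) (t : ℝ) :
    ev (Sum.elim x u) P t = MvPolynomial.eval₂ (MvPolynomial.eval₂Hom (Polynomial.evalRingHom t)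
      (fun k => u k t)) (fun i => x i t) (MvPolynomial.sumAlgEquiv ℝ[X] σ κ P) := by
  induction P using MvPolynomial.induction_on with
  | C p => simp [ev]
  | add p q hp hq =>
    have h7 : ev (Sum.elim x u) (p + q) t = ev (Sum.elim x u) p t + ev (Sum.elim x u) q t := by simp [ev]
    rw [h7, hp, hq, map_add, MvPolynomial.eval₂_add]
  | mul_X p k hp =>
    have h7 : ev (Sum.elim x u) (p * MvPolynomial.X k) t = ev (Sum.elim x u) p t * (Sum.elim x u) k t := by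
      simp [ev]
    rw [h7, hp, map_mul, MvPolynomial.eval₂_mul]
    congr 1
    cases k with
    | inl i => simp
    | inr i => simp

/-- the exponents in the `k`-th group -/
noncomputable def eK {p r : ℕ} (e : Fin p × Fin r →₀ ℕ) (k : Fin p) : Fin r →₀ ℕ :=
  Finsupp.equivFunOnFinite.symm (fun i => e (k, i))

theorem eK_le {p r : ℕ} (e : Fin p × Fin r →₀ ℕ) (k : Fin p) : ∑ i, eK e k i ≤ ∑ q, e q := by
  rw [Fintype.sum_prod_type]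
  exact Finset.single_le_sum (f := fun k => ∑ i, e (k, i)) (fun _ _ => Nat.zero_le _) (Finset.mem_univ k)

theorem block_ev {κ : Type} {p r : ℕ} (Gf : Fin r → ℝ → ℝ) (D : ℕ)
    (P' : MvPolynomial (Fin p × Fin r) (MvPolynomial κ ℝ[X])) (hD : ∀ e ∈ P'.support, ∑ q, e q ≤ D)
    (ν : MvPolynomial κ ℝ[X] →+* ℝ) (x : Fin p → ℝ) (hx : ∀ k, x k ≠ 0) :
    MvPolynomial.eval₂ ν (fun q => Gf q.2 (x q.1) / x q.1) P' =
      (∑ e : P'.support, ν (P'.coeff e) * ∏ k, psi Gf D (eK e.1 k) (x k)) / ∏ k, x k ^ D := by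
  rw [MvPolynomial.eval₂_eq', Finset.sum_div, ← Finset.sum_coe_sort P'.support]
  refine Finset.sum_congr rfl fun e _ => ?_
  rw [mul_div_assoc, ← Finset.prod_div_distrib, Fintype.prod_prod_type]
  congr 1
  refine Finset.prod_congr rfl fun k _ => ?_
  rw [← psi_eq Gf D (eK e.1 k) ((eK_le e.1 k).trans (hD _ e.2)) (x k) (hx k)]
  rfl

/-- the coefficients vanish if all the Taylor coefficients vanish -/
theorem coeff_zero_of {κ : Type} {p r : ℕ} (Gf : Fin r → ℝ → ℝ) (δ : ℝ) (hδ : 0 < δ)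
    (hG : ∀ i, AnalyticOnNhd ℝ (Gf i) (Icc 0 δ))
    (hind : ∀ P : MvPolynomial (Fin r) ℝ,
      (∀ x ∈ Ioc 0 δ, MvPolynomial.eval (fun i => Gf i x / x) P = 0) → P = 0) (D : ℕ)
    (P' : MvPolynomial (Fin p × Fin r) (MvPolynomial κ ℝ[X])) (hD : ∀ e ∈ P'.support, ∑ q, e q ≤ D)
    (τ : P'.support → Fin p → ℕ → ℝ) (hτ : ∀ e k, Tay (psi Gf D (eK e.1 k)) (τ e k))
    (ν : MvPolynomial κ ℝ[X] →+* ℝ)
    (hz : ∀ α : Fin p → ℕ, ∑ e : P'.support, (∏ k, τ e k (α k)) * ν (P'.coeff e) = 0) (e : Fin p × Fin r →₀ ℕ) :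
    ν (P'.coeff e) = 0 := by
  have hrad : ∀ᶠ z in 𝓝[>] (0 : ℝ), ∀ (e : P'.support) (k : Fin p),
      HasSum (fun n => τ e k n * z ^ n) (psi Gf D (eK e.1 k) z) :=
    eventually_all.2 fun e => eventually_all.2 fun k => (hτ e k).1.filter_mono nhdsWithin_le_nhds
  obtain ⟨ρ1, hρ1, hρ1'⟩ := mem_nhdsGT_iff_exists_Ioo_subset.1 hrad
  have hρ1p : (0 : ℝ) < ρ1 := hρ1
  have hR : MvPolynomial.map ν P' = 0 := by
    refine block_ind Gf δ hG hind (min ρ1 δ) (lt_min hρ1p hδ) (min_le_right _ _) _ fun x hx => ?_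
    rw [MvPolynomial.eval_map, block_ev Gf D P' hD ν x fun k => (hx k).1.ne']
    have := all_zero (fun e : P'.support => ν (P'.coeff e)) (fun e k => psi Gf D (eK e.1 k)) τ hz x
      (fun e k => hρ1' ⟨(hx k).1, (hx k).2.trans_le (min_le_left _ _)⟩ e k)
    rw [this, zero_div]
  have h3 := congrArg (MvPolynomial.coeff e) hR
  rw [MvPolynomial.coeff_map, MvPolynomial.coeff_zero] at h3
  exact h3

theorem exists_alpha {κ : Type} (u : κ → ℝ → ℝ) (h : ℝ → ℝ) (hLB : LB u h) {p r : ℕ} (Gf : Fin r → ℝ → ℝ)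
    (δ : ℝ) (hδ : 0 < δ) (hG : ∀ i, AnalyticOnNhd ℝ (Gf i) (Icc 0 δ))
    (hind : ∀ P : MvPolynomial (Fin r) ℝ,
      (∀ x ∈ Ioc 0 δ, MvPolynomial.eval (fun i => Gf i x / x) P = 0) → P = 0) (D : ℕ)
    (P' : MvPolynomial (Fin p × Fin r) (MvPolynomial κ ℝ[X])) (hP'0 : P' ≠ 0)
    (hD : ∀ e ∈ P'.support, ∑ q, e q ≤ D)
    (τ : P'.support → Fin p → ℕ → ℝ) (hτ : ∀ e k, Tay (psi Gf D (eK e.1 k)) (τ e k)) :
    ∃ α0, Pα (fun e : P'.support => P'.coeff e) τ α0 ≠ 0 := by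
  by_contra hcon
  push Not at hcon
  obtain ⟨e, he⟩ := MvPolynomial.support_nonempty.2 hP'0
  obtain ⟨C, hC⟩ := hLB _ (MvPolynomial.mem_support_iff.1 he)
  obtain ⟨t, ht⟩ := hC.exists
  have h0 : ev u (P'.coeff e) t = 0 :=
    coeff_zero_of Gf δ hδ hG hind D P' hD τ hτ (MvPolynomial.eval₂Hom (Polynomial.evalRingHom t) (fun k => u k t))
      (fun α => by
        have h2 := ev_Pα u (fun e : P'.support => P'.coeff e) τ α t
        rw [hcon α, ev_zero] at h2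
        exact h2.symm) e
  rw [h0, abs_zero] at ht
  exact absurd ht (not_le.2 (Real.exp_pos _))

theorem LB_block_core {κ : Type} (u : κ → ℝ → ℝ) (h : ℝ → ℝ) (hLB : LB u h)
    (hh : ∀ᶠ t in atTop, Real.log t ≤ h t)
    (hu : ∀ k, ∃ C : ℝ, 0 ≤ C ∧ ∀ᶠ t in atTop, |u k t| ≤ Real.exp (C * h t))
    (h1 : ∀ᶠ t in atTop, 1 ≤ h t) {p : ℕ} (f : Fin p → ℝ → ℝ)
    (hpos : ∀ k, ∀ᶠ t in atTop, 0 < f k t)
    (hcont : ∀ k, ∃ t0, ContinuousOn (f k) (Set.Ici t0))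
    (hH : ∀ c : Fin p → ℤ, c ≠ 0 → Tendsto (fun t => |∑ k, (c k : ℝ) * f k t| / h t) atTop atTop)
    (K : ℝ) (hK : ∀ k l, ∀ᶠ t in atTop, f l t ≤ K * f k t)
    {r : ℕ} (Gf : Fin r → ℝ → ℝ) (δ : ℝ) (hδ : 0 < δ) (hG : ∀ i, AnalyticOnNhd ℝ (Gf i) (Icc 0 δ))
    (hind : ∀ P : MvPolynomial (Fin r) ℝ,
      (∀ x ∈ Ioc 0 δ, MvPolynomial.eval (fun i => Gf i x / x) P = 0) → P = 0) (D : ℕ)
    (P' : MvPolynomial (Fin p × Fin r) (MvPolynomial κ ℝ[X])) (hP'0 : P' ≠ 0)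
    (hD : ∀ e ∈ P'.support, ∑ q, e q ≤ D)
    (τ : P'.support → Fin p → ℕ → ℝ) (hτ : ∀ e k, Tay (psi Gf D (eK e.1 k)) (τ e k)) :
    ∃ C : ℝ, ∀ᶠ t in atTop, Real.exp (-C * (h t + ∑ k, f k t)) ≤
      |∑ e : P'.support, ev u (P'.coeff e) t * ∏ k, psi Gf D (eK e.1 k) (xp (f k t))| := by
  have hα := exists_alpha u h hLB Gf δ hδ hG hind D P' hP'0 hD τ hτ
  have hcore := @block_core κ u h hLB hh hu h1 p f hpos hcont hH K hK P'.support _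
    (fun e : P'.support => P'.coeff e) (fun e k => psi Gf D (eK e.1 k)) τ hτ
  obtain ⟨α0, hα0⟩ := hα
  exact hcore α0 hα0

theorem LB_block_core' {κ : Type} (u : κ → ℝ → ℝ) (h : ℝ → ℝ) (hLB : LB u h)
    (hh : ∀ᶠ t in atTop, Real.log t ≤ h t)
    (hu : ∀ k, ∃ C : ℝ, 0 ≤ C ∧ ∀ᶠ t in atTop, |u k t| ≤ Real.exp (C * h t))
    (h1 : ∀ᶠ t in atTop, 1 ≤ h t) {p : ℕ} (f : Fin p → ℝ → ℝ)
    (hpos : ∀ k, ∀ᶠ t in atTop, 0 < f k t)
    (hcont : ∀ k, ∃ t0, ContinuousOn (f k) (Set.Ici t0))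
    (hH : ∀ c : Fin p → ℤ, c ≠ 0 → Tendsto (fun t => |∑ k, (c k : ℝ) * f k t| / h t) atTop atTop)
    (K : ℝ) (hK : ∀ k l, ∀ᶠ t in atTop, f l t ≤ K * f k t)
    {r : ℕ} (Gf : Fin r → ℝ → ℝ) (δ : ℝ) (hδ : 0 < δ) (hG : ∀ i, AnalyticOnNhd ℝ (Gf i) (Icc 0 δ))
    (hind : ∀ P : MvPolynomial (Fin r) ℝ,
      (∀ x ∈ Ioc 0 δ, MvPolynomial.eval (fun i => Gf i x / x) P = 0) → P = 0) (D : ℕ)
    (P' : MvPolynomial (Fin p × Fin r) (MvPolynomial κ ℝ[X])) (hP'0 : P' ≠ 0)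
    (hD : ∀ e ∈ P'.support, ∑ q, e q ≤ D) :
    ∃ C : ℝ, ∀ᶠ t in atTop, Real.exp (-C * (h t + ∑ k, f k t)) ≤
      |∑ e : P'.support, ev u (P'.coeff e) t * ∏ k, psi Gf D (eK e.1 k) (xp (f k t))| :=
  LB_block_core u h hLB hh hu h1 f hpos hcont hH K hK Gf δ hδ hG hind D P' hP'0 hD
    (fun e k => Classical.choose (exists_tay _ (psi_an Gf D (eK e.1 k) δ hG 0 ⟨le_rfl, hδ.le⟩)))
    (fun e k => Classical.choose_spec (exists_tay _ (psi_an Gf D (eK e.1 k) δ hG 0 ⟨le_rfl, hδ.le⟩)))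

theorem LB_block_aux {κ : Type} (u : κ → ℝ → ℝ) (h : ℝ → ℝ) (hLB : LB u h)
    (hh : ∀ᶠ t in atTop, Real.log t ≤ h t)
    (hu : ∀ k, ∃ C : ℝ, 0 ≤ C ∧ ∀ᶠ t in atTop, |u k t| ≤ Real.exp (C * h t)) {p : ℕ} (f : Fin p → ℝ → ℝ)
    (hpos : ∀ k, ∀ᶠ t in atTop, 0 < f k t)
    (hcont : ∀ k, ∃ t0, ContinuousOn (f k) (Set.Ici t0))
    (hH : ∀ c : Fin p → ℤ, c ≠ 0 → Tendsto (fun t => |∑ k, (c k : ℝ) * f k t| / h t) atTop atTop)
    (K : ℝ) (hK : ∀ k l, ∀ᶠ t in atTop, f l t ≤ K * f k t)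
    {r : ℕ} (Gf : Fin r → ℝ → ℝ) (δ : ℝ) (hδ : 0 < δ) (hG : ∀ i, AnalyticOnNhd ℝ (Gf i) (Icc 0 δ))
    (hind : ∀ P : MvPolynomial (Fin r) ℝ,
      (∀ x ∈ Ioc 0 δ, MvPolynomial.eval (fun i => Gf i x / x) P = 0) → P = 0) (D : ℕ)
    (P' : MvPolynomial (Fin p × Fin r) (MvPolynomial κ ℝ[X])) (hP'0 : P' ≠ 0)
    (hD : ∀ e ∈ P'.support, ∑ q, e q ≤ D) :
    ∃ C : ℝ, ∀ᶠ t in atTop, Real.exp (-C * (h t + ∑ k, f k t)) ≤
      |MvPolynomial.eval₂ (MvPolynomial.eval₂Hom (Polynomial.evalRingHom t) (fun k => u k t))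
        (fun q => Gf q.2 (xp (f q.1 t)) / xp (f q.1 t)) P'| := by
  have h1 : ∀ᶠ t in atTop, 1 ≤ h t := by
    filter_upwards [hh, Real.tendsto_log_atTop.eventually_ge_atTop 1] with t h2 h3
    linarith
  obtain ⟨C, hC⟩ := LB_block_core' u h hLB hh hu h1 f hpos hcont hH K hK Gf δ hδ hG hind D P' hP'0 hD
  refine ⟨C, ?_⟩
  filter_upwards [hC, eventually_all.2 hpos] with t g1 g2
  have hx0 : ∀ k, 0 < xp (f k t) := fun k => Real.exp_pos _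
  have hx1 : ∀ k, xp (f k t) ≤ 1 := by
    intro k
    unfold xp
    rw [Real.exp_le_one_iff]
    have := mul_pos (mul_pos two_pos Real.pi_pos) (g2 k)
    linarith
  have hprod : 0 < ∏ k, xp (f k t) ^ D := Finset.prod_pos fun k _ => pow_pos (hx0 k) D
  have hprod1 : ∏ k, xp (f k t) ^ D ≤ 1 := Finset.prod_le_one (fun k _ => (pow_pos (hx0 k) D).le)
    fun k _ => pow_le_one₀ (hx0 k).le (hx1 k)
  rw [block_ev Gf D P' hD _ (fun k => xp (f k t)) fun k => (hx0 k).ne', abs_div,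
    abs_of_pos hprod]
  refine g1.trans ?_
  rw [le_div_iff₀ hprod]
  exact mul_le_of_le_one_right (abs_nonneg _) hprod1

/-- Adjoining the functions `G_i (x_k) / x_k`, `x_k = exp (-2π f_k)`, for functions `f_k` of comparable size whose
integer linear combinations are much larger than the functions of the base. -/
theorem LB_block {κ : Type} (u : κ → ℝ → ℝ) (h : ℝ → ℝ) (hLB : LB u h)
    (hh : ∀ᶠ t in atTop, Real.log t ≤ h t)
    (hu : ∀ k, ∃ C : ℝ, 0 ≤ C ∧ ∀ᶠ t in atTop, |u k t| ≤ Real.exp (C * h t)) {p : ℕ} (f : Fin p → ℝ → ℝ)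
    (hpos : ∀ k, ∀ᶠ t in atTop, 0 < f k t)
    (hcont : ∀ k, ∃ t0, ContinuousOn (f k) (Set.Ici t0))
    (hH : ∀ c : Fin p → ℤ, c ≠ 0 → Tendsto (fun t => |∑ k, (c k : ℝ) * f k t| / h t) atTop atTop)
    (K : ℝ) (hK : ∀ k l, ∀ᶠ t in atTop, f l t ≤ K * f k t)
    {r : ℕ} (Gf : Fin r → ℝ → ℝ) (δ : ℝ) (hδ : 0 < δ) (hG : ∀ i, AnalyticOnNhd ℝ (Gf i) (Icc 0 δ))
    (hind : ∀ P : MvPolynomial (Fin r) ℝ,
      (∀ x ∈ Ioc 0 δ, MvPolynomial.eval (fun i => Gf i x / x) P = 0) → P = 0) :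
    LB (Sum.elim (fun (q : Fin p × Fin r) t => Gf q.2 (xp (f q.1 t)) / xp (f q.1 t)) u)
      (fun t => h t + ∑ k, f k t) := by
  intro P hP
  have hP'0 : MvPolynomial.sumAlgEquiv ℝ[X] (Fin p × Fin r) κ P ≠ 0 := by
    intro h0
    exact hP ((MvPolynomial.sumAlgEquiv ℝ[X] (Fin p × Fin r) κ).injective (by rw [h0, map_zero]))
  obtain ⟨C, hC⟩ := LB_block_aux u h hLB hh hu f hpos hcont hH K hK Gf δ hδ hG hind _ _ hP'0
    (fun e he => Finset.le_sup (f := fun e : Fin p × Fin r →₀ ℕ => ∑ q, e q) he)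
  refine ⟨C, ?_⟩
  filter_upwards [hC] with t g1
  rw [ev_sumElim']
  exact g1

end Pool.Agent.TH21.MS
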