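import Pool.Agent.TH21.MS.Alg3
import Pool.Agent.TH21.MS.Iter

/-!
# Values of `j`, `j'`, `j''` at points `i f(q)` for rational `q`
-/

set_option autoImplicit false

open Set Filter Topology

namespace Pool.Agent.TH21.MS

/-- the three functions of `x` -/
noncomputable def Gj : Fin 3 → ℝ → ℝ := ![G0, G1, G2]

theorem Gj_an (i : Fin 3) : AnalyticOnNhd ℝ (Gj i) (Icc 0 (1 / 2)) := by
  have hsub : Icc (0 : ℝ) (1 / 2) ⊆ Ico 0 1 := fun x hx => ⟨hx.1, lt_of_le_of_lt hx.2 (by norm_num)⟩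
  fin_cases i
  · exact G0_an.mono hsub
  · exact G1_an.mono hsub
  · exact G2_an.mono hsub

theorem Gj_ind (P : MvPolynomial (Fin 3) ℝ)
    (h : ∀ x ∈ Ioc (0 : ℝ) (1 / 2), MvPolynomial.eval (fun i => Gj i x / x) P = 0) : P = 0 := by
  refine alg3 P ?_
  filter_upwards [xx_tendsto.eventually_le_const (show (0 : ℝ) < 1 / 2 by norm_num)] with y hy
  have h1 := h (xx y) ⟨xx_pos y, hy⟩
  unfold ev3
  have h2 : ![g0 y, g1 y, g2 y] = fun i => Gj i (xx y) / xx y := by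
    funext i
    fin_cases i <;> rfl
  rw [h2]
  exact h1

theorem LB_empty : LB (fun (k : Empty) (_ : ℝ) => (k.elim : ℝ)) Real.log := by
  refine LB_of_growth _ _ (fun k => k.elim) (fun k => k.elim) ?_ (Eventually.of_forall fun t => le_rfl)
    (fun k => k.elim)
  intro c hc
  exact absurd (Subsingleton.elim c 0) hc

/-- the powers of `i` in front of the real functions -/
def sj : Fin 3 → ℕ := ![0, 3, 2]

/-- the jet of `j` -/
noncomputable def jet (z : ℂ) : Fin 3 → ℂ := ![jj z, deriv jj z, deriv (deriv jj) z]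

theorem jet_I (y : ℝ) (hy : 0 < y) (i : Fin 3) :
    jet (Complex.I * y) i = Complex.I ^ sj i * ((Gj i (xp y) / xp y : ℝ) : ℂ) := by
  fin_cases i
  · show jj (Complex.I * y) = Complex.I ^ 0 * ((g0 y : ℝ) : ℂ)
    rw [jj_I, pow_zero, one_mul]
  · show deriv jj (Complex.I * y) = Complex.I ^ 3 * ((g1 y : ℝ) : ℂ)
    rw [jj_deriv y hy]
    have : Complex.I ^ 3 = -Complex.I := by rw [pow_succ, Complex.I_sq]; ring
    rw [this]
  · show deriv (deriv jj) (Complex.I * y) = Complex.I ^ 2 * ((g2 y : ℝ) : ℂ)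
    rw [jj_deriv2 y hy, Complex.I_sq]
    ring

/-- extension of a finite family -/
noncomputable def ext {n : ℕ} (f : Fin n → ℝ → ℝ) (k : ℕ) : ℝ → ℝ :=
  if h : k < n then f ⟨k, h⟩ else fun _ => 0

theorem ext_val {n : ℕ} (f : Fin n → ℝ → ℝ) (i : Fin n) : ext f i = f i := by
  unfold ext
  rw [dif_pos i.2]

/-- lower bounds for the polynomials in the jets, over any base -/
theorem LB_jets {κ : Type} (u : κ → ℝ → ℝ) (h0 : ℝ → ℝ) (hLB : LB u h0)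
    (hh : ∀ᶠ t in atTop, Real.log t ≤ h0 t)
    (hu : ∀ k, ∃ C : ℝ, 0 ≤ C ∧ ∀ᶠ t in atTop, |u k t| ≤ Real.exp (C * h0 t))
    {n : ℕ} (f : Fin n → ℝ → ℝ) (hf0 : ∀ k, Tendsto (fun t => f k t / h0 t) atTop atTop)
    (hf : ∀ k l, k < l → Tendsto (fun t => f l t / f k t) atTop atTop) :
    ∃ h : ℝ → ℝ, LB (Sum.elim u (fun (p : Fin n × Fin 3) t => Gj p.2 (xp (f p.1 t)) / xp (f p.1 t))) h := by
  have hmain := LB_iter u h0 hLB hh hu Gj (1 / 2) (by norm_num) (by norm_num) Gj_an Gj_ind (ext f) n (by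
    intro k hk
    cases k with
    | zero =>
      have := hf0 ⟨0, hk⟩
      simpa [Hc, ext, hk] using this
    | succ k =>
      have hk' : k < n := by omega
      have := hf ⟨k, hk'⟩ ⟨k + 1, hk⟩ (by simp)
      simpa [Hc, ext, hk, hk'] using this) n le_rfl
  refine ⟨_, LB_equiv (Equiv.refl _) _ _ ?_ _ hmain.1⟩
  rintro (x | ⟨i, j⟩)
  · rfl
  · simp only [Equiv.refl_apply, V, Sum.elim_inr, ext_val]

/-- the real functions -/
noncomputable def uj {n : ℕ} (f : Fin n → ℝ → ℝ) (p : Fin n × Fin 3) (t : ℝ) : ℝ :=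
  Gj p.2 (xp (f p.1 t)) / xp (f p.1 t)

theorem Gj_an' (i : Fin 3) : AnalyticOnNhd ℝ (Gj i) (Ico 0 1) := by
  fin_cases i
  · exact G0_an
  · exact G1_an
  · exact G2_an

theorem uj_an {n : ℕ} (f : Fin n → ℝ → ℝ) (a0 : ℝ)
    (han : ∀ k, AnalyticOnNhd ℝ (f k) (Ici a0)) (hpos : ∀ k, ∀ t, a0 ≤ t → 0 < f k t) (p : Fin n × Fin 3) :
    AnalyticOnNhd ℝ (uj f p) (Ici a0) := by
  intro t ht
  have h1 : AnalyticAt ℝ (fun y => Gj p.2 (xx y) / xx y) (f p.1 t) :=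
    comp_an (Gj p.2) (Gj_an' p.2) (f p.1 t) (hpos p.1 t ht)
  exact h1.comp (han p.1 t ht)

/-- the index `Empty` can be omitted -/
def eqE (β : Type) : β ≃ Empty ⊕ β where
  toFun := Sum.inr
  invFun := Sum.elim (fun k => k.elim) id
  left_inv := fun _ => rfl
  right_inv := by
    rintro (k | b)
    · exact k.elim
    · rfl

/-- the empty family -/
noncomputable def ue (k : Empty) (_ : ℝ) : ℝ := k.elim

theorem LB_ue : LB ue Real.log := LB_empty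

theorem ue_ub (k : Empty) : ∃ C : ℝ, 0 ≤ C ∧ ∀ᶠ t in atTop, |ue k t| ≤ Real.exp (C * Real.log t) := k.elim

theorem LB_uj' {n : ℕ} (f : Fin n → ℝ → ℝ)
    (hf0 : ∀ k, Tendsto (fun t => f k t / Real.log t) atTop atTop)
    (hf : ∀ k l, k < l → Tendsto (fun t => f l t / f k t) atTop atTop) :
    ∃ h : ℝ → ℝ, LB (Sum.elim ue (uj f)) h :=
  LB_jets ue Real.log LB_ue (Eventually.of_forall fun _ => le_rfl) ue_ub f hf0 hf

theorem LB_uj {n : ℕ} (f : Fin n → ℝ → ℝ)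
    (hf0 : ∀ k, Tendsto (fun t => f k t / Real.log t) atTop atTop)
    (hf : ∀ k l, k < l → Tendsto (fun t => f l t / f k t) atTop atTop) : ∃ h : ℝ → ℝ, LB (uj f) h := by
  obtain ⟨h, hLB⟩ := LB_uj' f hf0 hf
  have h2 : ∀ p : Fin n × Fin 3, uj f p = Sum.elim ue (uj f) (eqE (Fin n × Fin 3) p) := by
    intro p
    show uj f p = Sum.elim ue (uj f) (Sum.inr p)
    rw [Sum.elim_inr]
  exact ⟨h, LB_equiv (eqE (Fin n × Fin 3)) (Sum.elim ue (uj f)) (uj f) h2 h hLB⟩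

theorem jet_eq {n : ℕ} (f : Fin n → ℝ → ℝ) (t : ℝ) (hpos : ∀ k, 0 < f k t) :
    (fun p : Fin n × Fin 3 => jet (Complex.I * (f p.1 t : ℂ)) p.2) =
      fun p : Fin n × Fin 3 => Complex.I ^ sj p.2 * ((uj f p t : ℝ) : ℂ) := by
  funext p
  exact jet_I (f p.1 t) (hpos p.1) p.2

/-- the exceptional rational numbers -/
def BadJ {n : ℕ} (f : Fin n → ℝ → ℝ) (d : ℕ) (A a b T : ℝ) : Set ℚ :=
  {q : ℚ | (q : ℝ) ∈ Icc a b ∧ (q.den : ℝ) ≤ T ∧
    Rel d (T ^ A) (fun p : Fin n × Fin 3 => jet (Complex.I * (f p.1 q : ℂ)) p.2)}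

theorem BadJ_sub {n : ℕ} (f : Fin n → ℝ → ℝ) (a0 : ℝ) (hpos : ∀ k, ∀ t, a0 ≤ t → 0 < f k t)
    (d : ℕ) (A a b T : ℝ) (ha : a0 ≤ a) : BadJ f d A a b T ⊆
    {q : ℚ | (q : ℝ) ∈ Icc a b ∧ (q.den : ℝ) ≤ T ∧
        Rel d (T ^ A) (fun p : Fin n × Fin 3 => Complex.I ^ sj p.2 * ((uj f p q : ℝ) : ℂ))} := by
  rintro q ⟨h1, h2, h3⟩
  refine ⟨h1, h2, ?_⟩
  rw [jet_eq f q (fun k => hpos k q (ha.trans h1.1))] at h3
  exact h3

/-- The counting theorem for values of `j`, `j'`, `j''`. -/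
theorem jetmain {n : ℕ} (f : Fin n → ℝ → ℝ) (a0 : ℝ)
    (han : ∀ k, AnalyticOnNhd ℝ (f k) (Ici a0)) (hpos : ∀ k, ∀ t, a0 ≤ t → 0 < f k t)
    (hf0 : ∀ k, Tendsto (fun t => f k t / Real.log t) atTop atTop)
    (hf : ∀ k l, k < l → Tendsto (fun t => f l t / f k t) atTop atTop)
    (d : ℕ) (A a b : ℝ) (ha : a0 ≤ a) (hab : a < b) (β : ℝ)
    (hβ : 2 - 2 / (((d : ℝ) + 1) ^ (3 * n) + 1) < β) :
    ∃ C : ℝ, ∀ T : ℝ, 1 ≤ T → (BadJ f d A a b T).Finite ∧ ((BadJ f d A a b T).ncard : ℝ) ≤ C * T ^ β := by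
  obtain ⟨h, hLB⟩ := LB_uj f hf0 hf
  have hcard : Fintype.card (Fin n × Fin 3) = 3 * n := by
    rw [Fintype.card_prod, Fintype.card_fin, Fintype.card_fin, mul_comm]
  obtain ⟨C, -, hC⟩ := count (uj f) (fun p => sj p.2) h a0 (uj_an f a0 han hpos) hLB d A a b ha hab β
    (by rw [hcard]; exact hβ)
  refine ⟨C, fun T hT => ?_⟩
  obtain ⟨h1, h2⟩ := hC T hT
  have hsub := BadJ_sub f a0 hpos d A a b T ha
  refine ⟨h1.subset hsub, le_trans ?_ h2⟩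
  exact_mod_cast Set.ncard_le_ncard hsub h1

end Pool.Agent.TH21.MS
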