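import Pool.Agent.TH21.MS.Rel
import Pool.Agent.TH818.AP.Mv2

/-!
# Several rational parameters, approximate relations, powers of `i`
-/

set_option autoImplicit false

open Set Filter Topology Polynomial

namespace Pool.Agent.TH21.MS

section

variable {κ : Type} [Fintype κ] [DecidableEq κ]

/-- independence over `ℝ[t]` from the lower bounds -/
theorem rindep_of_LB (u : κ → ℝ → ℝ) (h : ℝ → ℝ) (a0 : ℝ) (han : ∀ k, AnalyticOnNhd ℝ (u k) (Ici a0))
    (hLB : LB u h) (d : ℕ) (a b : ℝ) (ha : a0 ≤ a) (hab : a < b) :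
    TH818.AP.RIndep (fun (e : κ → Fin (d + 1)) (t : ℝ) => ∏ k, u k t ^ (e k : ℕ)) a b := by
  intro p hp
  have hev : ∀ t, ev u (∑ e, MvPolynomial.monomial (emb e) (p e)) t =
      ∑ e, (p e).eval t * ∏ k, u k t ^ (e k : ℕ) := by
    intro t
    unfold ev
    rw [MvPolynomial.eval₂_sum]
    refine Finset.sum_congr rfl fun e _ => ?_
    rw [MvPolynomial.eval₂_monomial, Finsupp.prod_fintype _ _ (by simp)]
    rfl
  have hevan : AnalyticOnNhd ℝ (ev u (∑ e, MvPolynomial.monomial (emb e) (p e))) (Ici a0) := by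
    have h1 : ev u (∑ e, MvPolynomial.monomial (emb e) (p e)) =
        fun t => ∑ e, (p e).eval t * ∏ k, u k t ^ (e k : ℕ) := funext hev
    rw [h1]
    intro t ht
    refine Finset.analyticAt_fun_sum _ fun e _ => AnalyticAt.mul ?_ ?_
    · have h2 : (fun t : ℝ => (p e).eval t) = fun t => aeval (id t) (p e) := by
        funext t
        simp [aeval_def]
      rw [h2]
      exact AnalyticAt.aeval_polynomial analyticAt_id _
    · exact Finset.analyticAt_fun_prod _ fun k _ => (han k t ht).fun_pow _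
  have hz : ∀ t ∈ Ici a0, ev u (∑ e, MvPolynomial.monomial (emb e) (p e)) t = 0 := by
    have hm : (a + b) / 2 ∈ Ici a0 := by
      have : a ≤ (a + b) / 2 := by linarith
      exact ha.trans this
    have := hevan.eqOn_zero_of_preconnected_of_eventuallyEq_zero isPreconnected_Ici hm (by
      have hnb : Icc a b ∈ 𝓝 ((a + b) / 2) := Icc_mem_nhds (by linarith) (by linarith)
      filter_upwards [hnb] with t ht
      rw [hev]
      exact hp t ht)
    intro t ht
    exact this ht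
  have hP : (∑ e, MvPolynomial.monomial (emb e) (p e) : MvPolynomial κ ℝ[X]) = 0 := by
    by_contra hne
    obtain ⟨C, hC⟩ := hLB _ hne
    obtain ⟨t, ht1, ht2⟩ := (hC.and (eventually_ge_atTop a0)).exists
    rw [hz t ht2, abs_zero] at ht1
    exact absurd ht1 (not_le.2 (Real.exp_pos _))
  funext e0
  have h3 := congrArg (MvPolynomial.coeff (emb e0)) hP
  rw [MvPolynomial.coeff_sum, MvPolynomial.coeff_zero, Finset.sum_eq_single e0] at h3
  · rwa [MvPolynomial.coeff_monomial, if_pos rfl] at h3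
  · intro e _ he
    rw [MvPolynomial.coeff_monomial, if_neg]
    intro h
    exact he (emb_inj h)
  · intro h
    exact absurd (Finset.mem_univ _) h

/-- the exponent vector -/
noncomputable def sO {n d : ℕ} (e : (Fin n → κ → Fin (d + 1)) × Fin (d + 1)) : Option (Fin n × κ) →₀ ℕ :=
  Finsupp.equivFunOnFinite.symm fun x => match x with
    | none => (e.2 : ℕ)
    | some y => (e.1 y.1 y.2 : ℕ)

omit [DecidableEq κ] in
theorem sO_inj {n d : ℕ} : Function.Injective (sO (κ := κ) (n := n) (d := d)) := by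
  intro e e' h
  refine Prod.ext ?_ ?_
  · funext j i
    have := DFunLike.congr_fun h (some (j, i))
    exact Fin.ext (by simpa [sO] using this)
  · have := DFunLike.congr_fun h none
    exact Fin.ext (by simpa [sO] using this)

theorem aeval_eqO {n d : ℕ} (f : Option (Fin n × κ) → ℂ) (P : MvPolynomial (Option (Fin n × κ)) ℤ)
    (hP : ∀ x, P.degreeOf x ≤ d) : MvPolynomial.aeval f P =
      ∑ e : (Fin n → κ → Fin (d + 1)) × Fin (d + 1), ((P.coeff (sO e) : ℤ) : ℂ) *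
        ((∏ j, ∏ i, f (some (j, i)) ^ (e.1 j i : ℕ)) * f none ^ (e.2 : ℕ)) := by
  have h1 : ∀ e : (Fin n → κ → Fin (d + 1)) × Fin (d + 1),
      (∏ j, ∏ i, f (some (j, i)) ^ (e.1 j i : ℕ)) * f none ^ (e.2 : ℕ) = ∏ x, f x ^ (sO e x) := by
    intro e
    rw [Fintype.prod_option, Fintype.prod_prod_type, mul_comm]
    simp [sO]
  simp only [h1]
  rw [MvPolynomial.aeval_def, MvPolynomial.eval₂_eq']
  rw [← Finset.sum_image (f := fun u : Option (Fin n × κ) →₀ ℕ => ((P.coeff u : ℤ) : ℂ) * ∏ x, f x ^ (u x))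
    (fun a _ b _ hab => sO_inj hab)]
  refine Finset.sum_subset_zero_on_sdiff ?_ ?_ ?_
  · intro u hu
    rw [Finset.mem_image]
    have hle : ∀ x, u x < d + 1 := fun x =>
      Nat.lt_succ_of_le ((MvPolynomial.monomial_le_degreeOf x hu).trans (hP x))
    refine ⟨(fun j i => ⟨u (some (j, i)), hle _⟩, ⟨u none, hle _⟩), Finset.mem_univ _, ?_⟩
    ext x
    cases x <;> simp [sO]
  · intro u hu
    rw [Finset.mem_sdiff, MvPolynomial.notMem_support_iff] at hu
    rw [hu.2]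
    simp
  · intro u _
    simp

theorem exists_coeff {n d : ℕ} (P : MvPolynomial (Option (Fin n × κ)) ℤ) (hP0 : P ≠ 0)
    (hP : ∀ x, P.degreeOf x ≤ d) :
    ∃ e : (Fin n → κ → Fin (d + 1)) × Fin (d + 1), P.coeff (sO e) ≠ 0 := by
  obtain ⟨u, hu⟩ := MvPolynomial.ne_zero_iff.1 hP0
  have hle : ∀ x, u x < d + 1 := fun x =>
    Nat.lt_succ_of_le ((MvPolynomial.monomial_le_degreeOf x (MvPolynomial.mem_support_iff.2 hu)).trans (hP x))
  refine ⟨(fun j i => ⟨u (some (j, i)), hle _⟩, ⟨u none, hle _⟩), ?_⟩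
  have he : sO ((fun j i => ⟨u (some (j, i)), hle _⟩, ⟨u none, hle _⟩) :
      (Fin n → κ → Fin (d + 1)) × Fin (d + 1)) = u := by
    ext x
    cases x <;> simp [sO]
  rw [he]
  exact hu

/-- the numbers `π` and `i ^ (s_k) u_k (x_j)` -/
noncomputable def numI {n : ℕ} (u : κ → ℝ → ℝ) (s : κ → ℕ) (x : Fin n → ℚ) (i : Option (Fin n × κ)) : ℂ :=
  i.elim (Real.pi : ℂ) fun q => Complex.I ^ s q.2 * ((u q.2 (x q.1) : ℝ) : ℂ)

/-- the exceptional tuples -/
def ExcI (n d : ℕ) (u : κ → ℝ → ℝ) (s : κ → ℕ) (a b A B T : ℝ) : Set (Fin n → ℚ) :=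
  {x | (∀ j, (x j : ℝ) ∈ Icc a b ∧ ((x j).den : ℝ) ≤ T) ∧
    ∃ P : MvPolynomial (Option (Fin n × κ)) ℤ, P ≠ 0 ∧ (∀ i, P.degreeOf i ≤ d) ∧
      (∀ v, |((P.coeff v : ℤ) : ℝ)| ≤ T ^ A) ∧ ‖MvPolynomial.aeval (numI u s x) P‖ ≤ T ^ (-B)}

/-- the total power of `i` -/
def sig {n d : ℕ} (s : κ → ℕ) (e : (Fin n → κ → Fin (d + 1)) × Fin (d + 1)) : ℕ :=
  ∑ j, ∑ k, s k * (e.1 j k : ℕ)

theorem value_eq {n d : ℕ} (u : κ → ℝ → ℝ) (s : κ → ℕ) (x : Fin n → ℚ)
    (P : MvPolynomial (Option (Fin n × κ)) ℤ) (hP : ∀ i, P.degreeOf i ≤ d) :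
    MvPolynomial.aeval (numI u s x) P = ∑ e : (Fin n → κ → Fin (d + 1)) × Fin (d + 1),
      ((P.coeff (sO e) : ℤ) : ℂ) * (Complex.I ^ sig s e *
        ((((∏ j, ∏ k, u k (x j) ^ (e.1 j k : ℕ)) * Real.pi ^ (e.2 : ℕ) : ℝ)) : ℂ)) := by
  rw [aeval_eqO _ P hP]
  refine Finset.sum_congr rfl fun e _ => ?_
  congr 1
  have h1 : ∀ j k, numI u s x (some (j, k)) ^ (e.1 j k : ℕ) =
      Complex.I ^ (s k * (e.1 j k : ℕ)) * (((u k (x j)) ^ (e.1 j k : ℕ) : ℝ) : ℂ) := by
    intro j k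
    simp only [numI, Option.elim_some]
    rw [mul_pow, ← pow_mul]
    push_cast
    rfl
  simp only [h1]
  have h2 : numI u s x none = (Real.pi : ℂ) := rfl
  rw [h2]
  simp only [Finset.prod_mul_distrib, Finset.prod_pow_eq_pow_sum, sig]
  push_cast
  ring

/-- The counting theorem for families of functions with lower bounds near infinity, for several rational
parameters, with `π`, and for approximate relations. -/
theorem count2 (u : κ → ℝ → ℝ) (s : κ → ℕ) (h : ℝ → ℝ) (a0 : ℝ)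
    (han : ∀ k, AnalyticOnNhd ℝ (u k) (Ici a0)) (hLB : LB u h) (n d : ℕ) (hn : 1 ≤ n) (A a b : ℝ) (hA : 0 ≤ A)
    (ha : a0 ≤ a) (hab : a < b) (β : ℝ) (hβ : 2 - 2 / (((d : ℝ) + 1) ^ (Fintype.card κ * n + 1) + 1) < β) :
    ∃ B C : ℝ, ∀ T : ℝ, 1 ≤ T → (ExcI n d u s a b A B T).Finite ∧
      ((ExcI n d u s a b A B T).ncard : ℝ) ≤ C * T ^ (2 * ((n : ℝ) - 1) + β) := by
  have hι : 0 < Fintype.card (κ → Fin (d + 1)) := Fintype.card_pos
  have hcard : (Fintype.card (κ → Fin (d + 1))) ^ n * Fintype.card (Fin (d + 1)) =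
      (d + 1) ^ (Fintype.card κ * n + 1) := by
    simp only [Fintype.card_pi, Fintype.card_fin, Finset.prod_const, Finset.card_univ]
    rw [← pow_mul, ← pow_succ]
  have hβ' : 2 * (((Fintype.card (κ → Fin (d + 1))) ^ n * Fintype.card (Fin (d + 1)) : ℕ) : ℝ) /
      ((((Fintype.card (κ → Fin (d + 1))) ^ n * Fintype.card (Fin (d + 1)) : ℕ) : ℝ) + 1) < β := by
    rw [hcard]
    refine lt_of_le_of_lt (le_of_eq ?_) hβ
    have hM0 : (0 : ℝ) < ((d : ℝ) + 1) ^ (Fintype.card κ * n + 1) := by positivity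
    push_cast
    field_simp
    ring
  have hIcc : Icc a b ⊆ Ici a0 := fun t ht => ha.trans ht.1
  obtain ⟨B, C, hBC⟩ := TH818.AP.multi_gen hι _ (TH818.AP.goodConst_pi d) n hn
    (fun _ => fun (e : κ → Fin (d + 1)) (t : ℝ) => ∏ k, u k t ^ (e k : ℕ)) (fun _ => a) (fun _ => b)
    (fun _ => hab) (fun _ e t ht => Finset.analyticAt_fun_prod _ fun k _ => (han k t (hIcc ht)).fun_pow _)
    (fun _ => rindep_of_LB u h a0 han hLB d a b ha hab) A β hA hβ'
  refine ⟨B, C, fun T hT => ?_⟩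
  obtain ⟨hfin, hle⟩ := hBC T hT
  have hsub : ExcI n d u s a b A B T ⊆
      TH818.AP.ExcM (fun _ => fun (e : κ → Fin (d + 1)) (t : ℝ) => ∏ k, u k t ^ (e k : ℕ))
        (fun e : Fin (d + 1) => Real.pi ^ (e : ℕ)) (fun _ : Fin n => a) (fun _ => b) A B T := by
    rintro x ⟨hx, P, hP0, hPd, hPc, hPs⟩
    refine ⟨hx, ?_⟩
    rw [value_eq u s x P hPd] at hPs
    obtain ⟨e0, he0⟩ := exists_coeff P hP0 hPd
    have hre : |∑ e : (Fin n → κ → Fin (d + 1)) × Fin (d + 1), ((P.coeff (sO e) * reI (sig s e) : ℤ) : ℝ) *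
        ((∏ j, ∏ k, u k (x j) ^ (e.1 j k : ℕ)) * Real.pi ^ (e.2 : ℕ))| ≤ T ^ (-B) := by
      refine le_trans (le_of_eq ?_) ((Complex.abs_re_le_norm _).trans hPs)
      congr 1
      rw [Complex.re_sum]
      refine Finset.sum_congr rfl fun e _ => ?_
      generalize (∏ j, ∏ k, u k (x j) ^ (e.1 j k : ℕ)) * Real.pi ^ (e.2 : ℕ) = m
      rw [I_pow]
      simp
      ring
    have him : |∑ e : (Fin n → κ → Fin (d + 1)) × Fin (d + 1), ((P.coeff (sO e) * imI (sig s e) : ℤ) : ℝ) *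
        ((∏ j, ∏ k, u k (x j) ^ (e.1 j k : ℕ)) * Real.pi ^ (e.2 : ℕ))| ≤ T ^ (-B) := by
      refine le_trans (le_of_eq ?_) ((Complex.abs_im_le_norm _).trans hPs)
      congr 1
      rw [Complex.im_sum]
      refine Finset.sum_congr rfl fun e _ => ?_
      generalize (∏ j, ∏ k, u k (x j) ^ (e.1 j k : ℕ)) * Real.pi ^ (e.2 : ℕ) = m
      rw [I_pow]
      simp
      ring
    rcases reI_or (sig s e0) with h1 | h1
    · refine ⟨fun e => P.coeff (sO e) * reI (sig s e), ?_, ?_, hre⟩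
      · intro h0
        have := congrFun h0 e0
        simp only [Pi.zero_apply, mul_eq_zero] at this
        exact this.elim he0 h1
      · intro e
        push_cast
        rw [abs_mul]
        have h2 := hPc (sO e)
        have h3 := abs_reI (sig s e)
        calc |((P.coeff (sO e) : ℤ) : ℝ)| * |((reI (sig s e) : ℤ) : ℝ)| ≤ |((P.coeff (sO e) : ℤ) : ℝ)| * 1 := by
              gcongr
          _ ≤ T ^ A := by rw [mul_one]; exact h2
    · refine ⟨fun e => P.coeff (sO e) * imI (sig s e), ?_, ?_, him⟩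
      · intro h0
        have := congrFun h0 e0
        simp only [Pi.zero_apply, mul_eq_zero] at this
        exact this.elim he0 h1
      · intro e
        push_cast
        rw [abs_mul]
        have h2 := hPc (sO e)
        have h3 := abs_imI (sig s e)
        calc |((P.coeff (sO e) : ℤ) : ℝ)| * |((imI (sig s e) : ℤ) : ℝ)| ≤ |((P.coeff (sO e) : ℤ) : ℝ)| * 1 := by
              gcongr
          _ ≤ T ^ A := by rw [mul_one]; exact h2
  refine ⟨hfin.subset hsub, le_trans ?_ hle⟩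
  exact_mod_cast Set.ncard_le_ncard hsub hfin

end

end Pool.Agent.TH21.MS
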