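import Pool.Agent.TH21.MS.BlockC
import Pool.Agent.TH21.MS.Multi
import Pool.Agent.TH21.MS.H2

/-!
# Values of `j`, `j'`, `j''` at points `i f_k (q_j)` for comparable functions `f_k`
-/

set_option autoImplicit false

open Set Filter Topology

namespace Pool.Agent.TH21.MS

theorem LB_comp {m : ℕ} (f : Fin m → ℝ → ℝ) (a0 : ℝ)
    (han : ∀ k, AnalyticOnNhd ℝ (f k) (Ici a0)) (hpos : ∀ k, ∀ t, a0 ≤ t → 0 < f k t)
    (K : ℝ) (hK : ∀ k l, ∀ᶠ t in atTop, f l t ≤ K * f k t)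
    (hH : ∀ c : Fin m → ℤ, c ≠ 0 → Tendsto (fun t => |∑ k, (c k : ℝ) * f k t| / Real.log t) atTop atTop) :
    ∃ h : ℝ → ℝ, LB (uj f) h := by
  have h1 := LB_block ue Real.log LB_ue (Eventually.of_forall fun _ => le_rfl) ue_ub f
    (fun k => by filter_upwards [eventually_ge_atTop a0] with t ht using hpos k t ht)
    (fun k => ⟨a0, fun t ht => (han k t ht).continuousAt.continuousWithinAt⟩) hH K hK Gj (1 / 2) (by norm_num)
    Gj_an Gj_ind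
  have h2 : ∀ p : Fin m × Fin 3, uj f p =
      Sum.elim (fun (q : Fin m × Fin 3) t => Gj q.2 (xp (f q.1 t)) / xp (f q.1 t)) ue (Sum.inl p) := by
    intro p
    rw [Sum.elim_inl]
    rfl
  refine ⟨_, LB_equiv (κ' := Fin m × Fin 3) (κ := (Fin m × Fin 3) ⊕ Empty)
    ⟨Sum.inl, Sum.elim id (fun k => k.elim), fun _ => rfl, fun x => ?_⟩ _ (uj f) h2 _ h1⟩
  rcases x with x | x
  · rfl
  · exact x.elim

theorem compmain {m : ℕ} (f : Fin m → ℝ → ℝ) (a0 : ℝ)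
    (han : ∀ k, AnalyticOnNhd ℝ (f k) (Ici a0)) (hpos : ∀ k, ∀ t, a0 ≤ t → 0 < f k t)
    (K : ℝ) (hK : ∀ k l, ∀ᶠ t in atTop, f l t ≤ K * f k t)
    (hH : ∀ c : Fin m → ℤ, c ≠ 0 → Tendsto (fun t => |∑ k, (c k : ℝ) * f k t| / Real.log t) atTop atTop)
    (n d : ℕ) (hn : 1 ≤ n) (A a b : ℝ) (hA : 0 ≤ A) (ha : a0 ≤ a) (hab : a < b) (β : ℝ)
    (hβ : 2 - 2 / (((d : ℝ) + 1) ^ (3 * m * n + 1) + 1) < β) :
    ∃ B C : ℝ, ∀ T : ℝ, 1 ≤ T → (ExcI n d (uj f) (fun p : Fin m × Fin 3 => sj p.2) a b A B T).Finite ∧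
      ((ExcI n d (uj f) (fun p : Fin m × Fin 3 => sj p.2) a b A B T).ncard : ℝ) ≤
        C * T ^ (2 * ((n : ℝ) - 1) + β) := by
  obtain ⟨h, hLB⟩ := LB_comp f a0 han hpos K hK hH
  refine count2 (uj f) (fun p : Fin m × Fin 3 => sj p.2) h a0 (uj_an f a0 han hpos) hLB n d hn A a b hA ha hab β ?_
  have hc : Fintype.card (Fin m × Fin 3) = 3 * m := by
    simp [mul_comm]
  rw [hc]
  exact hβ

/-- the numbers `π` and `j, j', j''` at the points `i f_k (x_j)` -/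
noncomputable def numC {m n : ℕ} (f : Fin m → ℝ → ℝ) (x : Fin n → ℚ) (i : Option (Fin n × (Fin m × Fin 3))) : ℂ :=
  i.elim (Real.pi : ℂ) fun q => jet (Complex.I * (f q.2.1 (x q.1) : ℂ)) q.2.2

theorem numC_eq {m n : ℕ} (f : Fin m → ℝ → ℝ) (x : Fin n → ℚ) (hpos : ∀ k j, 0 < f k (x j)) :
    numC f x = numI (uj f) (fun p : Fin m × Fin 3 => sj p.2) x := by
  funext i
  cases i with
  | none => rfl
  | some q => exact jet_I (f q.2.1 (x q.1)) (hpos _ _) q.2.2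

end Pool.Agent.TH21.MS
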