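import Pool.Agent.TH818.AR.Count
import Pool.Agent.TH818.AR.Det
import Pool.Agent.TH818.AR.Arith
import Pool.Agent.TH818.AR.AuxVec
import Pool.Agent.TH818.AR.Zero
import Pool.Agent.TH818.AR.Low
import Pool.Agent.TH818.AR.Ord
import Pool.Agent.TH818.AR.Taylor
import Pool.Agent.TH21.MS.Grow

/-!
# Relations at rational points: from lower bounds near infinity to the counting theorem

The counting theorem is `theoremG` of `Pool.Agent.TH818.AR` (helper818 and others).
-/

set_option autoImplicit false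

open Set Polynomial Filter Topology

namespace Pool.Agent.TH21.MS

open Pool.Agent.TH818.AR

/-- a nontrivial integer polynomial relation of degree at most `d` in each variable with coefficients
of absolute value at most `H` -/
def Rel {κ : Type} (d : ℕ) (H : ℝ) (x : κ → ℂ) : Prop :=
  ∃ P : MvPolynomial κ ℤ, P ≠ 0 ∧ (∀ k, P.degreeOf k ≤ d) ∧ (∀ e, |((P.coeff e : ℤ) : ℝ)| ≤ H) ∧
    MvPolynomial.aeval x P = 0

theorem G {m : ℕ} (v : Fin m → ℝ → ℝ) (a b : ℝ) (hab : a < b)
    (han : ∀ l, AnalyticOnNhd ℝ (v l) (Icc a b)) (hv : PolyIndep v a b) (A β : ℝ)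
    (hβ : 2 * (m : ℝ) / (m + 1) < β) :
    ∃ C : ℝ, 0 < C ∧ ∀ T : ℝ, 1 ≤ T → (Exc v a b A T).Finite ∧ ((Exc v a b A T).ncard : ℝ) ≤ C * T ^ β :=
  theoremG (low_of ord bd) taylor det_le arith aux (zero_of ord bd) v a b hab han hv A β hβ

/-- the real part of `I ^ n` -/
def reI (n : ℕ) : ℤ := if n % 4 = 0 then 1 else if n % 4 = 2 then -1 else 0

/-- the imaginary part of `I ^ n` -/
def imI (n : ℕ) : ℤ := if n % 4 = 1 then 1 else if n % 4 = 3 then -1 else 0

theorem I_pow (n : ℕ) : Complex.I ^ n = (reI n : ℂ) + (imI n : ℂ) * Complex.I := by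
  rw [Complex.I_pow_eq_pow_mod]
  have h : n % 4 < 4 := Nat.mod_lt _ (by norm_num)
  unfold reI imI
  interval_cases hn : n % 4 <;> simp [pow_succ]

theorem abs_reI (n : ℕ) : |((reI n : ℤ) : ℝ)| ≤ 1 := by
  unfold reI; split_ifs <;> simp

theorem abs_imI (n : ℕ) : |((imI n : ℤ) : ℝ)| ≤ 1 := by
  unfold imI; split_ifs <;> simp

theorem reI_or (n : ℕ) : reI n ≠ 0 ∨ imI n ≠ 0 := by
  have h : n % 4 < 4 := Nat.mod_lt _ (by norm_num)
  unfold reI imI
  interval_cases hn : n % 4 <;> simp

section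

variable {κ : Type} [Fintype κ]

/-- exponent vector -/
noncomputable def emb {d : ℕ} (e : κ → Fin (d + 1)) : κ →₀ ℕ :=
  Finsupp.equivFunOnFinite.symm (fun k => (e k : ℕ))

@[simp] theorem emb_apply {d : ℕ} (e : κ → Fin (d + 1)) (k : κ) : emb e k = e k := rfl

theorem emb_inj {d : ℕ} : Function.Injective (emb (κ := κ) (d := d)) := by
  intro e e' h
  funext k
  have := DFunLike.congr_fun h k
  exact Fin.ext (by simpa using this)

theorem aeval_eq {d : ℕ} [DecidableEq κ] (x : κ → ℂ) (P : MvPolynomial κ ℤ) (hP : ∀ k, P.degreeOf k ≤ d) :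
    MvPolynomial.aeval x P = ∑ e : κ → Fin (d + 1), ((P.coeff (emb e) : ℤ) : ℂ) * ∏ k, x k ^ (e k : ℕ) := by
  rw [MvPolynomial.aeval_def, MvPolynomial.eval₂_eq']
  have h1 : ∑ e : κ → Fin (d + 1), ((P.coeff (emb e) : ℤ) : ℂ) * ∏ k, x k ^ (e k : ℕ) =
      ∑ m ∈ Finset.univ.image (emb (κ := κ) (d := d)), ((P.coeff m : ℤ) : ℂ) * ∏ k, x k ^ (m k) := by
    rw [Finset.sum_image (fun _ _ _ _ h => emb_inj h)]
    rfl
  rw [h1]
  refine Finset.sum_subset ?_ ?_
  · intro m hm
    rw [Finset.mem_image]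
    refine ⟨fun k => ⟨m k, Nat.lt_succ_of_le ((MvPolynomial.monomial_le_degreeOf k hm).trans (hP k))⟩,
      Finset.mem_univ _, ?_⟩
    ext k
    simp
  · intro m _ hm
    rw [MvPolynomial.notMem_support_iff.1 hm]
    simp

/-- The counting theorem for families of functions with lower bounds near infinity. The functions
`u k` are real, the numbers `I ^ (s k) * u k` satisfy relations only at few rational points. -/
theorem count [DecidableEq κ] (u : κ → ℝ → ℝ) (s : κ → ℕ) (h : ℝ → ℝ) (a0 : ℝ)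
    (han : ∀ k, AnalyticOnNhd ℝ (u k) (Ici a0)) (hLB : LB u h) (d : ℕ) (A a b : ℝ) (ha : a0 ≤ a)
    (hab : a < b) (β : ℝ) (hβ : 2 - 2 / (((d : ℝ) + 1) ^ Fintype.card κ + 1) < β) :
    ∃ C : ℝ, 0 < C ∧ ∀ T : ℝ, 1 ≤ T →
      {q : ℚ | (q : ℝ) ∈ Icc a b ∧ (q.den : ℝ) ≤ T ∧
        Rel d (T ^ A) (fun k => Complex.I ^ s k * (u k q : ℂ))}.Finite ∧
      ({q : ℚ | (q : ℝ) ∈ Icc a b ∧ (q.den : ℝ) ≤ T ∧
        Rel d (T ^ A) (fun k => Complex.I ^ s k * (u k q : ℂ))}.ncard : ℝ) ≤ C * T ^ β := by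
  classical
  set M : ℕ := (d + 1) ^ Fintype.card κ with hM
  have hcard : Fintype.card (κ → Fin (d + 1)) = M := by simp [hM]
  let eqv : (κ → Fin (d + 1)) ≃ Fin M := Fintype.equivFinOfCardEq hcard
  let v : Fin M → ℝ → ℝ := fun l t => ∏ k, u k t ^ (eqv.symm l k : ℕ)
  have hvan : ∀ l, AnalyticOnNhd ℝ (v l) (Ici a0) := by
    intro l t ht
    exact Finset.analyticAt_fun_prod _ fun k _ => (han k t ht).fun_pow _
  have hIcc : Icc a b ⊆ Ici a0 := fun t ht => ha.trans ht.1
  have hβ' : 2 * (M : ℝ) / (M + 1) < β := by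
    refine lt_of_le_of_lt (le_of_eq ?_) hβ
    have hMc : (M : ℝ) = ((d : ℝ) + 1) ^ Fintype.card κ := by rw [hM]; push_cast; rfl
    rw [← hMc]
    have : (0 : ℝ) ≤ M := Nat.cast_nonneg _
    field_simp
    ring
  have hind : PolyIndep v a b := by
    intro p hp
    by_contra hne
    obtain ⟨l0, hl0⟩ : ∃ l, p l ≠ 0 := by
      by_contra hall
      push Not at hall
      exact hne (funext hall)
    let P : MvPolynomial κ ℝ[X] :=
      ∑ l, MvPolynomial.monomial (emb (eqv.symm l)) ((p l).map (algebraMap ℚ ℝ))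
    have hP0 : P ≠ 0 := by
      intro h0
      have h1 : P.coeff (emb (eqv.symm l0)) = (p l0).map (algebraMap ℚ ℝ) := by
        simp only [P, MvPolynomial.coeff_sum, MvPolynomial.coeff_monomial]
        rw [Finset.sum_eq_single l0]
        · simp
        · intro l _ hl
          rw [if_neg]
          intro he
          exact hl (eqv.symm.injective (emb_inj he))
        · simp
      rw [h0, MvPolynomial.coeff_zero] at h1
      have h2 := (Polynomial.map_eq_zero (algebraMap ℚ ℝ)).1 h1.symm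
      exact hl0 h2
    have hev : ∀ t, ev u P t = ∑ l, aeval t (p l) * v l t := by
      intro t
      simp only [ev, P, MvPolynomial.eval₂_sum]
      refine Finset.sum_congr rfl fun l _ => ?_
      rw [MvPolynomial.eval₂_monomial]
      congr 1
      · rw [coe_evalRingHom, eval_map_algebraMap]
      · simp only [v]
        rw [Finsupp.prod_fintype _ _ (by simp)]
        rfl
    have hevan : AnalyticOnNhd ℝ (ev u P) (Ici a0) := by
      have : ev u P = fun t => ∑ l, aeval t (p l) * v l t := funext hev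
      rw [this]
      intro t ht
      refine Finset.analyticAt_fun_sum _ fun l _ => AnalyticAt.mul ?_ (hvan l t ht)
      have h1 : (fun t : ℝ => aeval t (p l)) = fun t => aeval (id t) (p l) := rfl
      rw [h1]
      exact AnalyticAt.aeval_polynomial analyticAt_id (p l)
    have hz : ∀ t ∈ Ici a0, ev u P t = 0 := by
      have hm : (a + b) / 2 ∈ Ici a0 := by
        have : a ≤ (a + b) / 2 := by linarith
        exact ha.trans this
      have := hevan.eqOn_zero_of_preconnected_of_eventuallyEq_zero isPreconnected_Ici hm ?_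
      · intro t ht
        exact this ht
      · have hnb : Icc a b ∈ 𝓝 ((a + b) / 2) := Icc_mem_nhds (by linarith) (by linarith)
        filter_upwards [hnb] with t ht
        rw [hev]
        exact hp t ht
    obtain ⟨C, hC⟩ := hLB P hP0
    obtain ⟨t, ht1, ht2⟩ := (hC.and (eventually_ge_atTop a0)).exists
    rw [hz t ht2, abs_zero] at ht1
    exact absurd ht1 (not_le.2 (Real.exp_pos _))
  obtain ⟨C, hC, hCT⟩ := G v a b hab (fun l => (hvan l).mono hIcc) hind A β hβ'
  refine ⟨C, hC, fun T hT => ?_⟩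
  obtain ⟨hfin, hle⟩ := hCT T hT
  have hsub : {q : ℚ | (q : ℝ) ∈ Icc a b ∧ (q.den : ℝ) ≤ T ∧
      Rel d (T ^ A) (fun k => Complex.I ^ s k * (u k q : ℂ))} ⊆ Exc v a b A T := by
    rintro q ⟨hq1, hq2, P, hP0, hPd, hPc, hP⟩
    refine ⟨hq1, hq2, ?_⟩
    rw [aeval_eq _ P hPd] at hP
    let σ : (κ → Fin (d + 1)) → ℕ := fun e => ∑ k, s k * (e k : ℕ)
    let c : Fin M → ℤ := fun l => P.coeff (emb (eqv.symm l))
    have hsum : ∑ l, ((c l : ℤ) : ℂ) * (Complex.I ^ σ (eqv.symm l) * ((v l q : ℝ) : ℂ)) = 0 := by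
      rw [← hP, ← eqv.symm.sum_comp]
      refine Finset.sum_congr rfl fun l _ => ?_
      congr 1
      simp only [v, σ, mul_pow, Finset.prod_mul_distrib, ← pow_mul]
      rw [Finset.prod_pow_eq_pow_sum]
      push_cast
      rfl
    have hre : ∑ l, ((c l * reI (σ (eqv.symm l)) : ℤ) : ℝ) * v l q = 0 := by
      have := congrArg Complex.re hsum
      rw [Complex.re_sum, Complex.zero_re] at this
      rw [← this]
      refine Finset.sum_congr rfl fun l _ => ?_
      rw [I_pow]
      simp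
      ring
    have him : ∑ l, ((c l * imI (σ (eqv.symm l)) : ℤ) : ℝ) * v l q = 0 := by
      have := congrArg Complex.im hsum
      rw [Complex.im_sum, Complex.zero_im] at this
      rw [← this]
      refine Finset.sum_congr rfl fun l _ => ?_
      rw [I_pow]
      simp
      ring
    obtain ⟨l0, hl0⟩ : ∃ l, c l ≠ 0 := by
      obtain ⟨m, hm⟩ := MvPolynomial.ne_zero_iff.1 hP0
      refine ⟨eqv (fun k => ⟨m k, Nat.lt_succ_of_le ((MvPolynomial.monomial_le_degreeOf k
        (MvPolynomial.mem_support_iff.2 hm)).trans (hPd k))⟩), ?_⟩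
      simp only [c, Equiv.symm_apply_apply]
      have he : emb (fun k => (⟨m k, Nat.lt_succ_of_le ((MvPolynomial.monomial_le_degreeOf k
        (MvPolynomial.mem_support_iff.2 hm)).trans (hPd k))⟩ : Fin (d + 1))) = m := by
        ext k
        simp
      rw [he]
      exact hm
    rcases reI_or (σ (eqv.symm l0)) with h1 | h1
    · refine ⟨fun l => c l * reI (σ (eqv.symm l)), ?_, ?_, hre⟩
      · intro h0
        have := congrFun h0 l0
        simp only [Pi.zero_apply, mul_eq_zero] at this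
        exact this.elim hl0 h1
      · intro l
        push_cast
        rw [abs_mul]
        have h2 := hPc (emb (eqv.symm l))
        have h3 := abs_reI (σ (eqv.symm l))
        have h4 : 0 ≤ |((c l : ℤ) : ℝ)| := abs_nonneg _
        calc |((c l : ℤ) : ℝ)| * |((reI (σ (eqv.symm l)) : ℤ) : ℝ)| ≤ |((c l : ℤ) : ℝ)| * 1 := by gcongr
          _ ≤ T ^ A := by rw [mul_one]; exact h2
    · refine ⟨fun l => c l * imI (σ (eqv.symm l)), ?_, ?_, him⟩
      · intro h0
        have := congrFun h0 l0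
        simp only [Pi.zero_apply, mul_eq_zero] at this
        exact this.elim hl0 h1
      · intro l
        push_cast
        rw [abs_mul]
        have h2 := hPc (emb (eqv.symm l))
        have h3 := abs_imI (σ (eqv.symm l))
        have h4 : 0 ≤ |((c l : ℤ) : ℝ)| := abs_nonneg _
        calc |((c l : ℤ) : ℝ)| * |((imI (σ (eqv.symm l)) : ℤ) : ℝ)| ≤ |((c l : ℤ) : ℝ)| * 1 := by gcongr
          _ ≤ T ^ A := by rw [mul_one]; exact h2
  refine ⟨hfin.subset hsub, le_trans ?_ hle⟩
  exact_mod_cast Set.ncard_le_ncard hsub hfin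

end

end Pool.Agent.TH21.MS
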