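import Pool.Agent.TH21.MS.JReal
import Pool.Agent.TH21.MS.Rel

/-!
# Values of `j` at points `i f(q)` for rational `q`
-/

set_option autoImplicit false

open Set Filter Topology

namespace Pool.Agent.TH21.MS

theorem f_tendsto {κ : Type} [Fintype κ] [DecidableEq κ] (f : κ → ℝ → ℝ)
    (hpos : ∀ k, ∀ᶠ t in atTop, 0 < f k t)
    (hH : ∀ c : κ → ℤ, c ≠ 0 → Tendsto (fun t => |∑ k, (c k : ℝ) * f k t| / Real.log t) atTop atTop)
    (k : κ) : Tendsto (f k) atTop atTop := by
  have h1 := hH (Pi.single k 1) (by simp)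
  have h2 : ∀ᶠ t in atTop, |∑ k', ((Pi.single k (1 : ℤ) : κ → ℤ) k' : ℝ) * f k' t| / Real.log t ≤ f k t := by
    filter_upwards [hpos k, Real.tendsto_log_atTop.eventually_ge_atTop 1] with t h3 h4
    have : ∑ k', ((Pi.single k (1 : ℤ) : κ → ℤ) k' : ℝ) * f k' t = f k t := by
      rw [Finset.sum_eq_single k]
      · simp
      · intro j _ hj
        simp [Pi.single_eq_of_ne hj]
      · simp
    rw [this, abs_of_pos h3]
    exact div_le_self h3.le h4
  exact tendsto_atTop_mono' _ h2 h1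

/-- growth of a family of logarithms -/
theorem H_of_close {κ : Type} [Fintype κ] (f L : κ → ℝ → ℝ) (B : ℝ)
    (hL : ∀ k, ∀ᶠ t in atTop, |L k t - 2 * Real.pi * f k t| ≤ B)
    (c : κ → ℤ) (h : Tendsto (fun t => |∑ k, (c k : ℝ) * f k t| / Real.log t) atTop atTop) :
    Tendsto (fun t => |∑ k, (c k : ℝ) * L k t| / Real.log t) atTop atTop := by
  have hLA : ∀ᶠ t in atTop, ∀ k, |L k t - 2 * Real.pi * f k t| ≤ B := eventually_all.2 hL
  have h2 : Tendsto (fun t => 2 * Real.pi * (|∑ k, (c k : ℝ) * f k t| / Real.log t) +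
      -(∑ k, |(c k : ℝ)| * |B|)) atTop atTop :=
    tendsto_atTop_add_const_right _ _ (h.const_mul_atTop (by positivity))
  refine tendsto_atTop_mono' _ ?_ h2
  filter_upwards [hLA, Real.tendsto_log_atTop.eventually_ge_atTop 1] with t h3 h4
  have hl : 0 < Real.log t := by linarith
  have h5 : 2 * Real.pi * |∑ k, (c k : ℝ) * f k t| ≤ |∑ k, (c k : ℝ) * L k t| + ∑ k, |(c k : ℝ)| * |B| := by
    have e1 : 2 * Real.pi * |∑ k, (c k : ℝ) * f k t| = |∑ k, (c k : ℝ) * (2 * Real.pi * f k t)| := by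
      rw [← abs_of_pos (show (0 : ℝ) < 2 * Real.pi by positivity), ← abs_mul, Finset.mul_sum,
        abs_of_pos (show (0 : ℝ) < 2 * Real.pi by positivity)]
      congr 1
      exact Finset.sum_congr rfl fun k _ => by ring
    have e2 : ∑ k, (c k : ℝ) * (2 * Real.pi * f k t) = ∑ k, (c k : ℝ) * L k t -
        ∑ k, (c k : ℝ) * (L k t - 2 * Real.pi * f k t) := by
      rw [← Finset.sum_sub_distrib]
      exact Finset.sum_congr rfl fun k _ => by ring
    rw [e1, e2]
    refine (abs_sub _ _).trans ?_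
    gcongr
    refine (Finset.abs_sum_le_sum_abs _ _).trans (Finset.sum_le_sum fun k _ => ?_)
    rw [abs_mul]
    have := (h3 k).trans (le_abs_self B)
    gcongr
  have h6 : 0 ≤ ∑ k, |(c k : ℝ)| * |B| := by positivity
  have h7 : (∑ k, |(c k : ℝ)| * |B|) / Real.log t ≤ ∑ k, |(c k : ℝ)| * |B| := div_le_self h6 h4
  have h8 : 2 * Real.pi * (|∑ k, (c k : ℝ) * f k t| / Real.log t) ≤
      |∑ k, (c k : ℝ) * L k t| / Real.log t + (∑ k, |(c k : ℝ)| * |B|) / Real.log t := by
    rw [← mul_div_assoc, ← add_div]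
    exact div_le_div_of_nonneg_right h5 hl.le
  linarith

/-- The counting theorem for values of `j`. -/
theorem jmain {κ : Type} [Fintype κ] [DecidableEq κ] (f : κ → ℝ → ℝ) (a0 : ℝ)
    (hf : ∀ k, AnalyticOnNhd ℝ (f k) (Ici a0)) (hpos : ∀ k, ∀ t, a0 ≤ t → 0 < f k t)
    (hH : ∀ c : κ → ℤ, c ≠ 0 → Tendsto (fun t => |∑ k, (c k : ℝ) * f k t| / Real.log t) atTop atTop)
    (d : ℕ) (A a b : ℝ) (ha : a0 ≤ a) (hab : a < b) (β : ℝ)
    (hβ : 2 - 2 / (((d : ℝ) + 1) ^ Fintype.card κ + 1) < β) :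
    ∃ C : ℝ, 0 < C ∧ ∀ T : ℝ, 1 ≤ T →
      {q : ℚ | (q : ℝ) ∈ Icc a b ∧ (q.den : ℝ) ≤ T ∧
        Rel d (T ^ A) (fun k => jj (Complex.I * (f k q : ℂ)))}.Finite ∧
      ({q : ℚ | (q : ℝ) ∈ Icc a b ∧ (q.den : ℝ) ≤ T ∧
        Rel d (T ^ A) (fun k => jj (Complex.I * (f k q : ℂ)))}.ncard : ℝ) ≤ C * T ^ β := by
  have hposE : ∀ k, ∀ᶠ t in atTop, 0 < f k t := fun k => by
    filter_upwards [eventually_ge_atTop a0] with t ht using hpos k t ht
  have hft := f_tendsto f hposE hH
  obtain ⟨y0, hy0, hg⟩ := g0_log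
  have han : ∀ k, AnalyticOnNhd ℝ (fun t => g0 (f k t)) (Ici a0) := by
    intro k t ht
    exact (g0_an (f k t) (hpos k t ht)).fun_comp (hf k t ht)
  have hlog : ∀ k, ∀ᶠ t in atTop, 0 < g0 (f k t) ∧ |Real.log (g0 (f k t)) - 2 * Real.pi * f k t| ≤ 1 := by
    intro k
    filter_upwards [(hft k).eventually_ge_atTop y0] with t ht using hg _ ht
  have hLB : LB (fun k t => g0 (f k t)) (fun t => Real.log t + ∑ k, f k t) := by
    refine LB_of_growth _ _ (fun k => (hlog k).mono fun t ht => ht.1)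
      (fun k => ⟨a0, (han k).continuousOn⟩) ?_ ?_ ?_
    · intro c hc
      exact H_of_close f (fun k t => Real.log (g0 (f k t))) 1 (fun k => (hlog k).mono fun t ht => ht.2) c (hH c hc)
    · filter_upwards [eventually_ge_atTop a0] with t ht
      have : 0 ≤ ∑ k, f k t := Finset.sum_nonneg fun k _ => (hpos k t ht).le
      linarith
    · intro k
      refine ⟨2 * Real.pi + 1, ?_⟩
      filter_upwards [hlog k, eventually_ge_atTop a0, Real.tendsto_log_atTop.eventually_ge_atTop 1] with t h1 h2 h3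
      have h4 : f k t ≤ ∑ k, f k t :=
        Finset.single_le_sum (f := fun k => f k t) (fun k _ => (hpos k t h2).le) (Finset.mem_univ k)
      have h5 := hpos k t h2
      have h6 : |Real.log (g0 (f k t))| ≤ 2 * Real.pi * f k t + 1 := by
        have h7 := abs_le.1 h1.2
        have h8 : 0 < 2 * Real.pi * f k t := by positivity
        rw [abs_le]
        constructor <;> linarith
      have hpi := Real.pi_pos
      nlinarith
  have hmain := count (fun k t => g0 (f k t)) (fun _ => 0) _ a0 han hLB d A a b ha hab β hβ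
  have heq : ∀ q : ℚ, (fun k => Complex.I ^ 0 * ((g0 (f k q) : ℝ) : ℂ)) = fun k => jj (Complex.I * (f k q : ℂ)) := by
    intro q
    funext k
    rw [jj_I, pow_zero, one_mul]
  simpa only [heq] using hmain

/-- the condition on the growth for multiples of powers -/
theorem H_powers {κ : Type} [Fintype κ] [DecidableEq κ] (s r : κ → ℝ) (hr : ∀ k, 0 < r k)
    (c : κ → ℤ) (hs : ∃ ρ, ∑ k ∈ Finset.univ.filter (fun k => r k = ρ), (c k : ℝ) * s k ≠ 0) :
    Tendsto (fun t => |∑ k, (c k : ℝ) * (s k * t ^ r k)| / Real.log t) atTop atTop := by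
  classical
  set w : ℝ → ℝ := fun ρ => ∑ k ∈ Finset.univ.filter (fun k => r k = ρ), (c k : ℝ) * s k with hw
  set R : Finset ℝ := Finset.univ.image r with hR
  have hsum : ∀ t : ℝ, ∑ k, (c k : ℝ) * (s k * t ^ r k) = ∑ ρ ∈ R, w ρ * t ^ ρ := by
    intro t
    rw [← Finset.sum_fiberwise_of_maps_to (s := Finset.univ) (t := R) (g := r)
      (fun k _ => Finset.mem_image_of_mem r (Finset.mem_univ k))]
    refine Finset.sum_congr rfl fun ρ _ => ?_
    simp only [hw]
    rw [Finset.sum_mul]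
    refine Finset.sum_congr rfl fun k hk => ?_
    rw [(Finset.mem_filter.1 hk).2]
    ring
  set R' := R.filter (fun ρ => w ρ ≠ 0) with hR'
  have hne : R'.Nonempty := by
    obtain ⟨ρ, hρ⟩ := hs
    obtain ⟨k, hk, -⟩ := Finset.exists_ne_zero_of_sum_ne_zero hρ
    refine ⟨ρ, Finset.mem_filter.2 ⟨?_, hρ⟩⟩
    rw [← (Finset.mem_filter.1 hk).2]
    exact Finset.mem_image_of_mem r (Finset.mem_univ k)
  set m := R'.max' hne with hm
  have hmR' : m ∈ R' := R'.max'_mem hne
  have hmR := (Finset.mem_filter.1 hmR').1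
  have hwm := (Finset.mem_filter.1 hmR').2
  have hm0 : 0 < m := by
    obtain ⟨k, -, hk⟩ := Finset.mem_image.1 hmR
    rw [← hk]
    exact hr k
  have hlim : Tendsto (fun t : ℝ => (∑ ρ ∈ R, w ρ * t ^ ρ) / t ^ m) atTop (𝓝 (w m)) := by
    have h1 : Tendsto (fun t : ℝ => ∑ ρ ∈ R, w ρ * t ^ (ρ - m)) atTop
        (𝓝 (∑ ρ ∈ R, if ρ = m then w m else 0)) := by
      refine tendsto_finsetSum _ fun ρ hρ => ?_
      by_cases h : ρ = m
      · rw [if_pos h, h, sub_self]
        simp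
      · rw [if_neg h]
        by_cases h0 : w ρ = 0
        · simp [h0]
        · have hlt : ρ < m := lt_of_le_of_ne (R'.le_max' ρ (Finset.mem_filter.2 ⟨hρ, h0⟩)) h
          have := (tendsto_rpow_neg_atTop (show 0 < m - ρ by linarith)).const_mul (w ρ)
          rw [mul_zero] at this
          refine this.congr fun t => ?_
          rw [neg_sub]
    rw [Finset.sum_ite_eq' R m (fun _ => w m), if_pos hmR] at h1
    refine h1.congr' ?_
    filter_upwards [eventually_gt_atTop (0 : ℝ)] with t ht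
    rw [Finset.sum_div]
    refine Finset.sum_congr rfl fun ρ _ => ?_
    rw [Real.rpow_sub ht, mul_div_assoc]
  have hlim2 : Tendsto (fun t : ℝ => |∑ ρ ∈ R, w ρ * t ^ ρ| / t ^ m) atTop (𝓝 |w m|) := by
    refine hlim.abs.congr' ?_
    filter_upwards [eventually_gt_atTop (0 : ℝ)] with t ht
    rw [abs_div, abs_of_pos (Real.rpow_pos_of_pos ht m)]
  have hgr : Tendsto (fun t : ℝ => t ^ m / Real.log t) atTop atTop := by
    have h1 := (isLittleO_log_rpow_atTop hm0).tendsto_div_nhds_zero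
    have h2 : Tendsto (fun t : ℝ => Real.log t / t ^ m) atTop (𝓝[>] 0) := by
      refine tendsto_nhdsWithin_iff.2 ⟨h1, ?_⟩
      filter_upwards [eventually_gt_atTop (1 : ℝ)] with t ht
      exact div_pos (Real.log_pos ht) (Real.rpow_pos_of_pos (by linarith) m)
    refine h2.inv_tendsto_nhdsGT_zero.congr fun t => ?_
    simp [inv_div]
  have := hlim2.pos_mul_atTop (abs_pos.2 hwm) hgr
  refine this.congr' ?_
  filter_upwards [eventually_gt_atTop (1 : ℝ)] with t ht
  rw [hsum]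
  have : t ^ m ≠ 0 := (Real.rpow_pos_of_pos (by linarith) m).ne'
  field_simp

end Pool.Agent.TH21.MS
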