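import Pool.Agent.TH21.MS.H1
import Pool.Agent.TH21.MS.H2

/-!
# Values of `j'` at the points `i s q` and of `j`, `j'`, `j''` at points `i f(q)` for rational `q`
-/

set_option autoImplicit false

open Set Filter Topology

namespace Pool.Agent.TH21.MS

theorem g1_log : ∃ y0 : ℝ, 0 < y0 ∧ ∀ y, y0 ≤ y → 0 < g1 y ∧
    |Real.log (g1 y) - 2 * Real.pi * y| ≤ Real.log (4 * Real.pi) := by
  have hc : ContinuousAt G1 0 := (G1_an 0 ⟨le_rfl, one_pos⟩).continuousAt
  have h1 : Tendsto (fun y => G1 (xx y)) atTop (𝓝 (2 * Real.pi)) := by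
    have := hc.tendsto.comp xx_tendsto
    rwa [G1_zero] at this
  have hpi := Real.pi_gt_three
  have h2 : ∀ᶠ y in atTop, 1 < G1 (xx y) := h1.eventually_const_lt (by linarith)
  have h3 : ∀ᶠ y in atTop, G1 (xx y) < 4 * Real.pi := h1.eventually_lt_const (by linarith)
  obtain ⟨y0, hy0⟩ := ((h2.and h3).and (eventually_gt_atTop (0 : ℝ))).exists_forall_of_atTop
  refine ⟨y0, (hy0 y0 le_rfl).2, ?_⟩
  intro y hy
  obtain ⟨⟨h4, h5⟩, h6⟩ := hy0 y hy
  have hpos : 0 < G1 (xx y) := by linarith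
  refine ⟨div_pos hpos (xx_pos y), ?_⟩
  have hlog : Real.log (g1 y) = Real.log (G1 (xx y)) + 2 * Real.pi * y := by
    unfold g1
    rw [Real.log_div hpos.ne' (xx_pos y).ne']
    unfold xx
    rw [Real.log_exp]
    ring
  rw [hlog]
  have h7 : Real.log (G1 (xx y)) ≤ Real.log (4 * Real.pi) := Real.log_le_log hpos h5.le
  have h8 : 0 ≤ Real.log (G1 (xx y)) := Real.log_nonneg h4.le
  rw [abs_le]
  constructor <;> linarith

/-- the real functions at the points `i s_k t` -/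
noncomputable def us {m : ℕ} (s : Fin m → ℝ) (k : Fin m) (t : ℝ) : ℝ := g1 (s k * t)

theorem us_log {m : ℕ} (s : Fin m → ℝ) (hs : ∀ k, 0 < s k) (k : Fin m) :
    ∀ᶠ t in atTop, 0 < us s k t ∧ |Real.log (us s k t) - 2 * Real.pi * (s k * t)| ≤ Real.log (4 * Real.pi) := by
  obtain ⟨y0, hy0, hg⟩ := g1_log
  have h1 : Tendsto (fun t : ℝ => s k * t) atTop atTop := tendsto_id.const_mul_atTop (hs k)
  filter_upwards [h1.eventually_ge_atTop y0] with t ht using hg _ ht

theorem us_an {m : ℕ} (s : Fin m → ℝ) (hs : ∀ k, 0 < s k) (a : ℝ) (ha : 0 < a) (k : Fin m) :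
    AnalyticOnNhd ℝ (us s k) (Ici a) := by
  intro t ht
  have ht0 : 0 < t := ha.trans_le ht
  have h1 : AnalyticAt ℝ (fun t : ℝ => s k * t) t := analyticAt_const.mul analyticAt_id
  exact AnalyticAt.fun_comp (g := g1) (f := fun t : ℝ => s k * t) (g1_an (s k * t) (mul_pos (hs k) ht0)) h1

theorem LB_us {m : ℕ} (s : Fin m → ℝ) (hs : ∀ k, 0 < s k) (hind : LinearIndependent ℚ s) :
    LB (us s) (fun t => t) := by
  have hpi := Real.pi_pos
  refine LB_of_growth _ _ (fun k => (us_log s hs k).mono fun t ht => ht.1)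
    (fun k => ⟨1, (us_an s hs 1 one_pos k).continuousOn⟩) ?_ ?_ ?_
  · intro c hc
    refine H_of_close (fun k t => s k * t) (fun k t => Real.log (us s k t)) (Real.log (4 * Real.pi))
      (fun k => (us_log s hs k).mono fun t ht => ht.2) c ?_
    have hne : ∑ k, (c k : ℝ) * s k ≠ 0 := by
      intro h0
      apply hc
      have h1 := Fintype.linearIndependent_iff.1 hind (fun k => (c k : ℚ)) (by
        rw [← h0]
        refine Finset.sum_congr rfl fun k _ => ?_
        rw [Rat.smul_def]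
        push_cast
        rfl)
      funext k
      have := h1 k
      exact_mod_cast this
    have h2 : Tendsto (fun t : ℝ => t / Real.log t) atTop atTop := by
      have h1 := Real.isLittleO_log_id_atTop.tendsto_div_nhds_zero
      have h2 : Tendsto (fun t : ℝ => Real.log t / t) atTop (𝓝[>] 0) := by
        refine tendsto_nhdsWithin_iff.2 ⟨h1, ?_⟩
        filter_upwards [eventually_gt_atTop (1 : ℝ)] with t ht
        exact div_pos (Real.log_pos ht) (by linarith)
      refine h2.inv_tendsto_nhdsGT_zero.congr fun t => ?_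
      simp [inv_div]
    refine (h2.const_mul_atTop (abs_pos.2 hne)).congr' ?_
    filter_upwards [eventually_gt_atTop (0 : ℝ)] with t ht
    have h3 : ∑ k, (c k : ℝ) * (s k * t) = (∑ k, (c k : ℝ) * s k) * t := by
      rw [Finset.sum_mul]
      exact Finset.sum_congr rfl fun k _ => by ring
    rw [h3, abs_mul, abs_of_pos ht]
    ring
  · filter_upwards [eventually_gt_atTop (0 : ℝ)] with t ht
    have := Real.log_le_sub_one_of_pos ht
    linarith
  · intro k
    refine ⟨2 * Real.pi * s k + Real.log (4 * Real.pi), ?_⟩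
    have hl : 0 ≤ Real.log (4 * Real.pi) := Real.log_nonneg (by have := Real.pi_gt_three; linarith)
    filter_upwards [us_log s hs k, eventually_ge_atTop (1 : ℝ)] with t h1 h2
    have h3 := abs_le.1 h1.2
    have h4 : 0 ≤ 2 * Real.pi * (s k * t) := by have := hs k; positivity
    have h5 : Real.log (4 * Real.pi) ≤ Real.log (4 * Real.pi) * t := le_mul_of_one_le_right hl h2
    rw [abs_le]
    constructor <;> linarith

theorem us_ub {m : ℕ} (s : Fin m → ℝ) (hs : ∀ k, 0 < s k) (k : Fin m) :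
    ∃ C : ℝ, 0 ≤ C ∧ ∀ᶠ t in atTop, |us s k t| ≤ Real.exp (C * t) := by
  have hl : 0 ≤ Real.log (4 * Real.pi) := Real.log_nonneg (by have := Real.pi_gt_three; linarith)
  have hpi := Real.pi_pos
  refine ⟨2 * Real.pi * s k + Real.log (4 * Real.pi), by have := hs k; positivity, ?_⟩
  filter_upwards [us_log s hs k, eventually_ge_atTop (1 : ℝ)] with t h1 h2
  rw [abs_of_pos h1.1, ← Real.exp_log h1.1]
  apply Real.exp_le_exp.2
  have h3 := (abs_le.1 h1.2).2
  have h5 : Real.log (4 * Real.pi) ≤ Real.log (4 * Real.pi) * t := le_mul_of_one_le_right hl h2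
  linarith

/-- the numbers of the theorem -/
noncomputable def numb {m n : ℕ} (s : Fin m → ℝ) (f : Fin n → ℝ → ℝ) (t : ℝ) : Fin m ⊕ (Fin n × Fin 3) → ℂ :=
  Sum.elim (fun k => deriv jj (Complex.I * ((s k * t : ℝ) : ℂ)))
    (fun p => jet (Complex.I * (f p.1 t : ℂ)) p.2)

/-- the exceptional rational numbers -/
def BadS {m n : ℕ} (s : Fin m → ℝ) (f : Fin n → ℝ → ℝ) (d : ℕ) (A a b T : ℝ) : Set ℚ :=
  {q : ℚ | (q : ℝ) ∈ Icc a b ∧ (q.den : ℝ) ≤ T ∧ Rel d (T ^ A) (numb s f (q : ℝ))}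

/-- the real functions and the powers of `i` -/
noncomputable def uall {m n : ℕ} (s : Fin m → ℝ) (f : Fin n → ℝ → ℝ) : Fin m ⊕ (Fin n × Fin 3) → ℝ → ℝ :=
  Sum.elim (us s) (uj f)

def sall {m n : ℕ} : Fin m ⊕ (Fin n × Fin 3) → ℕ := Sum.elim (fun _ => 3) (fun p => sj p.2)

theorem numb_eq {m n : ℕ} (s : Fin m → ℝ) (hs : ∀ k, 0 < s k) (f : Fin n → ℝ → ℝ) (t : ℝ) (ht : 0 < t)
    (hpos : ∀ k, 0 < f k t) :
    numb s f t = fun p => Complex.I ^ (sall (m := m) (n := n) p) * ((uall s f p t : ℝ) : ℂ) := by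
  funext p
  rcases p with k | p
  · show deriv jj (Complex.I * ((s k * t : ℝ) : ℂ)) = Complex.I ^ 3 * ((g1 (s k * t) : ℝ) : ℂ)
    rw [jj_deriv _ (mul_pos (hs k) ht)]
    have : Complex.I ^ 3 = -Complex.I := by rw [pow_succ, Complex.I_sq]; ring
    rw [this]
  · exact jet_I (f p.1 t) (hpos p.1) p.2

theorem BadS_sub {m n : ℕ} (s : Fin m → ℝ) (hs : ∀ k, 0 < s k) (f : Fin n → ℝ → ℝ) (d : ℕ) (A a b T : ℝ)
    (ha : 0 < a) (hpos : ∀ k, ∀ t, a ≤ t → 0 < f k t) : BadS s f d A a b T ⊆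
    {q : ℚ | (q : ℝ) ∈ Icc a b ∧ (q.den : ℝ) ≤ T ∧
        Rel d (T ^ A) (fun p => Complex.I ^ (sall (m := m) (n := n) p) * ((uall s f p q : ℝ) : ℂ))} := by
  rintro q ⟨h1, h2, h3⟩
  refine ⟨h1, h2, ?_⟩
  rw [numb_eq s hs f q (ha.trans_le h1.1) (fun k => hpos k q h1.1)] at h3
  exact h3

/-- The counting theorem for special and generic points. -/
theorem specmain {m n : ℕ} (s : Fin m → ℝ) (hs : ∀ k, 0 < s k) (hind : LinearIndependent ℚ s)
    (f : Fin n → ℝ → ℝ) (a : ℝ) (ha : 0 < a)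
    (han : ∀ k, AnalyticOnNhd ℝ (f k) (Ici a)) (hpos : ∀ k, ∀ t, a ≤ t → 0 < f k t)
    (hf0 : ∀ k, Tendsto (fun t => f k t / t) atTop atTop)
    (hf : ∀ k l, k < l → Tendsto (fun t => f l t / f k t) atTop atTop)
    (d : ℕ) (A b : ℝ) (hab : a < b) (β : ℝ)
    (hβ : 2 - 2 / (((d : ℝ) + 1) ^ (m + 3 * n) + 1) < β) :
    ∃ C : ℝ, ∀ T : ℝ, 1 ≤ T → (BadS s f d A a b T).Finite ∧ ((BadS s f d A a b T).ncard : ℝ) ≤ C * T ^ β := by
  obtain ⟨h, hLB⟩ := LB_jets (us s) (fun t => t) (LB_us s hs hind) (by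
    filter_upwards [eventually_gt_atTop (0 : ℝ)] with t ht
    have := Real.log_le_sub_one_of_pos ht
    linarith) (us_ub s hs) f hf0 hf
  have hcard : Fintype.card (Fin m ⊕ (Fin n × Fin 3)) = m + 3 * n := by
    rw [Fintype.card_sum, Fintype.card_prod, Fintype.card_fin, Fintype.card_fin, Fintype.card_fin, mul_comm n 3]
  have hall : ∀ p, AnalyticOnNhd ℝ (uall s f p) (Ici a) := by
    rintro (k | p)
    · exact us_an s hs a ha k
    · exact uj_an f a han hpos p
  obtain ⟨C, -, hC⟩ := count (uall s f) (sall (m := m) (n := n)) h a hall hLB d A a b le_rfl hab β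
    (by rw [hcard]; exact hβ)
  refine ⟨C, fun T hT => ?_⟩
  obtain ⟨h1, h2⟩ := hC T hT
  have hsub := BadS_sub s hs f d A a b T ha hpos
  refine ⟨h1.subset hsub, le_trans ?_ h2⟩
  exact_mod_cast Set.ncard_le_ncard hsub h1

end Pool.Agent.TH21.MS
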