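import Pool.Agent.TH21.MS.JReal

/-!
# Derivatives of the modular invariant on the imaginary axis
-/

set_option autoImplicit false

open Filter Topology UpperHalfPlane

namespace Pool.Agent.TH21.MS

noncomputable def G1 (x : ℝ) : ℝ := 2 * Real.pi * (G0 x - x * deriv G0 x)

noncomputable def G2 (x : ℝ) : ℝ := 2 * Real.pi * (G1 x - x * deriv G1 x)

theorem G1_an : AnalyticOnNhd ℝ G1 (Set.Ico 0 1) := by
  intro x hx
  have h := G0_an x hx
  have hd : AnalyticAt ℝ (deriv G0) x := h.deriv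
  exact analyticAt_const.mul (h.sub (analyticAt_id.mul hd))

theorem G2_an : AnalyticOnNhd ℝ G2 (Set.Ico 0 1) := by
  intro x hx
  have h := G1_an x hx
  have hd : AnalyticAt ℝ (deriv G1) x := h.deriv
  exact analyticAt_const.mul (h.sub (analyticAt_id.mul hd))

theorem G1_zero : G1 0 = 2 * Real.pi := by
  unfold G1
  rw [G0_zero]
  ring

/-- the derivative of `j (i y)` with respect to `y` -/
noncomputable def g1 (y : ℝ) : ℝ := G1 (xx y) / xx y

/-- the second derivative of `j (i y)` with respect to `y` -/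
noncomputable def g2 (y : ℝ) : ℝ := G2 (xx y) / xx y

theorem xx_deriv (y : ℝ) : HasDerivAt xx (-(2 * Real.pi) * xx y) y := by
  have hx : xx = fun y => Real.exp (-(2 * Real.pi) * y) := by
    funext y
    unfold xx
    congr 1
    ring
  have h1 : HasDerivAt (fun y : ℝ => -(2 * Real.pi) * y) (-(2 * Real.pi)) y := by
    simpa using (hasDerivAt_id y).const_mul (-(2 * Real.pi))
  rw [hx]
  exact h1.exp.congr_deriv (by ring)

theorem quot_deriv (G : ℝ → ℝ) (hG : AnalyticOnNhd ℝ G (Set.Ico 0 1)) (y : ℝ) (hy : 0 < y) :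
    HasDerivAt (fun y => G (xx y) / xx y) (2 * Real.pi * (G (xx y) - xx y * deriv G (xx y)) / xx y) y := by
  have hx := xx_pos y
  have h1 : HasDerivAt G (deriv G (xx y)) (xx y) :=
    (hG (xx y) ⟨hx.le, xx_lt hy⟩).differentiableAt.hasDerivAt
  have h2 := h1.comp y (xx_deriv y)
  have h3 := h2.div (xx_deriv y) hx.ne'
  refine h3.congr_deriv ?_
  simp only [Function.comp]
  field_simp
  ring

theorem g0_deriv (y : ℝ) (hy : 0 < y) : HasDerivAt g0 (g1 y) y := quot_deriv G0 G0_an y hy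

theorem g1_deriv (y : ℝ) (hy : 0 < y) : HasDerivAt g1 (g2 y) y := quot_deriv G1 G1_an y hy

theorem g1_an : AnalyticOnNhd ℝ g1 (Set.Ioi 0) := comp_an G1 G1_an

theorem g2_an : AnalyticOnNhd ℝ g2 (Set.Ioi 0) := comp_an G2 G2_an

/-! ## the complex derivatives -/

theorem jj_an (τ : ℂ) (hτ : 0 < τ.im) : AnalyticAt ℂ jj τ := by
  have hq : AnalyticAt ℂ (fun τ : ℂ => Complex.exp (2 * (Real.pi : ℂ) * Complex.I * τ)) τ := by
    have h1 : AnalyticAt ℂ (fun τ : ℂ => 2 * (Real.pi : ℂ) * Complex.I * τ) τ :=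
      analyticAt_const.mul analyticAt_id
    exact h1.cexp
  have hb : Complex.exp (2 * (Real.pi : ℂ) * Complex.I * τ) ∈ Metric.ball (0 : ℂ) 1 := by
    rw [mem_ball_zero_iff, Complex.norm_exp, Real.exp_lt_one_iff]
    have : (2 * (Real.pi : ℂ) * Complex.I * τ).re = -(2 * Real.pi * τ.im) := by
      simp [Complex.mul_re, Complex.mul_im]
    rw [this]
    have := Real.pi_pos
    have : 0 < 2 * Real.pi * τ.im := by positivity
    linarith
  have h3 : AnalyticAt ℂ (fun τ : ℂ => A3 ℂ (Complex.exp (2 * (Real.pi : ℂ) * Complex.I * τ))) τ :=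
    AnalyticAt.fun_comp (g := A3 ℂ) (f := fun τ : ℂ => Complex.exp (2 * (Real.pi : ℂ) * Complex.I * τ))
      (A3_an ℂ _ hb) hq
  have h5 : AnalyticAt ℂ (fun τ : ℂ => A5 ℂ (Complex.exp (2 * (Real.pi : ℂ) * Complex.I * τ))) τ :=
    AnalyticAt.fun_comp (g := A5 ℂ) (f := fun τ : ℂ => Complex.exp (2 * (Real.pi : ℂ) * Complex.I * τ))
      (A5_an ℂ _ hb) hq
  have hE4 : AnalyticAt ℂ E4 τ := by
    have : E4 = fun τ => 1 + 240 * (Complex.exp (2 * (Real.pi : ℂ) * Complex.I * τ) *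
      A3 ℂ (Complex.exp (2 * (Real.pi : ℂ) * Complex.I * τ))) := funext E4_q
    rw [this]
    exact analyticAt_const.add (analyticAt_const.mul (hq.mul h3))
  have hE6 : AnalyticAt ℂ E6 τ := by
    have : E6 = fun τ => 1 - 504 * (Complex.exp (2 * (Real.pi : ℂ) * Complex.I * τ) *
      A5 ℂ (Complex.exp (2 * (Real.pi : ℂ) * Complex.I * τ))) := funext E6_q
    rw [this]
    exact analyticAt_const.sub (analyticAt_const.mul (hq.mul h5))
  have hne : E4 τ ^ 3 - E6 τ ^ 2 ≠ 0 := disc_ne ⟨τ, hτ⟩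
  exact (analyticAt_const.mul (hE4.pow 3)).div ((hE4.pow 3).sub (hE6.pow 2)) hne

theorem I_im {y : ℝ} (hy : 0 < y) : 0 < (Complex.I * (y : ℂ)).im := by simpa using hy

theorem curve_deriv (F : ℂ → ℂ) (y : ℝ) (hF : AnalyticAt ℂ F (Complex.I * y)) :
    HasDerivAt (fun t : ℝ => F (Complex.I * t)) (deriv F (Complex.I * y) * Complex.I) y := by
  have h1 : HasDerivAt F (deriv F (Complex.I * y)) (Complex.I * (y : ℂ)) := hF.differentiableAt.hasDerivAt
  have h2 : HasDerivAt (fun w : ℂ => Complex.I * w) Complex.I (y : ℂ) := by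
    simpa using (hasDerivAt_id (y : ℂ)).const_mul Complex.I
  have h3 : HasDerivAt (fun w : ℂ => F (Complex.I * w)) (deriv F (Complex.I * y) * Complex.I) (y : ℂ) :=
    h1.comp (y : ℂ) h2
  exact h3.comp_ofReal

theorem jj_deriv (y : ℝ) (hy : 0 < y) : deriv jj (Complex.I * y) = -Complex.I * ((g1 y : ℝ) : ℂ) := by
  have h1 := curve_deriv jj y (jj_an _ (I_im hy))
  have h2 : HasDerivAt (fun t : ℝ => ((g0 t : ℝ) : ℂ)) ((g1 y : ℝ) : ℂ) y := (g0_deriv y hy).ofReal_comp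
  have h3 : (fun t : ℝ => jj (Complex.I * t)) = fun t : ℝ => ((g0 t : ℝ) : ℂ) := funext jj_I
  rw [h3] at h1
  have h4 := h1.unique h2
  linear_combination (-Complex.I) * h4 + deriv jj (Complex.I * y) * Complex.I_sq

theorem jj_deriv2 (y : ℝ) (hy : 0 < y) : deriv (deriv jj) (Complex.I * y) = -((g2 y : ℝ) : ℂ) := by
  have h1 := curve_deriv (deriv jj) y (jj_an _ (I_im hy)).deriv
  have h2 : HasDerivAt (fun t : ℝ => -Complex.I * ((g1 t : ℝ) : ℂ)) (-Complex.I * ((g2 y : ℝ) : ℂ)) y :=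
    ((g1_deriv y hy).ofReal_comp).const_mul _
  have h3 : (fun t : ℝ => deriv jj (Complex.I * t)) =ᶠ[𝓝 y] fun t : ℝ => -Complex.I * ((g1 t : ℝ) : ℂ) := by
    filter_upwards [eventually_gt_nhds hy] with t ht using jj_deriv t ht
  have h4 := (h1.congr_of_eventuallyEq h3.symm).unique h2
  linear_combination (-Complex.I) * h4 + (deriv (deriv jj) (Complex.I * y) + (g2 y : ℂ)) * Complex.I_sq

/-! ## the inversion -/

theorem g0_inv (y : ℝ) (hy : 0 < y) : g0 (1 / y) = g0 y := by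
  have h := jj_S (Iy y hy)
  have h1 : ((ModularGroup.S • Iy y hy : ℍ) : ℂ) = Complex.I * ((1 / y : ℝ) : ℂ) := by
    rw [modular_S_smul]
    have hy' : (y : ℂ) ≠ 0 := by exact_mod_cast hy.ne'
    show (-(Complex.I * (y : ℂ)))⁻¹ = _
    push_cast
    rw [inv_eq_iff_eq_inv]
    field_simp
    rw [Complex.I_sq]
    norm_num
  rw [h1] at h
  have h2 : ((Iy y hy : ℍ) : ℂ) = Complex.I * (y : ℂ) := rfl
  rw [h2, jj_I, jj_I] at h
  exact_mod_cast h

theorem inv_deriv (y : ℝ) (hy : 0 < y) : HasDerivAt (fun y : ℝ => 1 / y) (-(1 / y ^ 2)) y := by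
  have := hasDerivAt_inv hy.ne'
  simpa [one_div] using this

theorem g1_inv (y : ℝ) (hy : 0 < y) : g1 (1 / y) = -y ^ 2 * g1 y := by
  have h1 : HasDerivAt (fun y => g0 (1 / y)) (g1 (1 / y) * -(1 / y ^ 2)) y :=
    (g0_deriv (1 / y) (by positivity)).comp y (inv_deriv y hy)
  have h3 : (fun y : ℝ => g0 (1 / y)) =ᶠ[𝓝 y] g0 := by
    filter_upwards [eventually_gt_nhds hy] with t ht using g0_inv t ht
  have h4 := (h1.congr_of_eventuallyEq h3.symm).unique (g0_deriv y hy)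
  field_simp at h4
  linarith

theorem g2_inv (y : ℝ) (hy : 0 < y) : g2 (1 / y) = y ^ 4 * g2 y + 2 * y ^ 3 * g1 y := by
  have h1 : HasDerivAt (fun y => g1 (1 / y)) (g2 (1 / y) * -(1 / y ^ 2)) y :=
    (g1_deriv (1 / y) (by positivity)).comp y (inv_deriv y hy)
  have h2 : HasDerivAt (fun y : ℝ => -y ^ 2 * g1 y) (-(2 * y) * g1 y + -y ^ 2 * g2 y) y := by
    have e1 : HasDerivAt (fun y : ℝ => -y ^ 2) (-(2 * y)) y := by
      simpa using (hasDerivAt_pow 2 y).fun_neg
    exact e1.mul (g1_deriv y hy)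
  have h3 : (fun y : ℝ => g1 (1 / y)) =ᶠ[𝓝 y] fun y : ℝ => -y ^ 2 * g1 y := by
    filter_upwards [eventually_gt_nhds hy] with t ht using g1_inv t ht
  have h4 := (h1.congr_of_eventuallyEq h3.symm).unique h2
  field_simp at h4
  linarith

end Pool.Agent.TH21.MS
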