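import Pool.Agent.TH21.MS.JFun

/-!
# The modular invariant on the imaginary axis as a function of `x = exp (- 2 π y)`
-/

set_option autoImplicit false

open Filter Topology UpperHalfPlane

namespace Pool.Agent.TH21.MS

/-- power series -/
noncomputable def ps (𝕜 : Type) [RCLike 𝕜] (c : ℕ → ℕ) (x : 𝕜) : 𝕜 := ∑' m, (c m : 𝕜) * x ^ m

theorem ps_summable (c : ℕ → ℕ) (K : ℕ) (hc : ∀ m, c m ≤ (m + 1) ^ K) (r : ℝ) (h0 : 0 ≤ r) (hr : r < 1) :
    Summable fun m => (c m : ℝ) * r ^ m := by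
  have h1 : Summable fun m : ℕ => (2 : ℝ) ^ K * ((m : ℝ) ^ K * r ^ m) + r ^ m := by
    refine Summable.add (Summable.mul_left _ ?_) (summable_geometric_of_lt_one h0 hr)
    have := summable_pow_mul_geometric_of_norm_lt_one K (r := r) (by rwa [Real.norm_of_nonneg h0])
    exact this
  refine Summable.of_nonneg_of_le (fun m => by positivity) (fun m => ?_) h1
  have h2 : (c m : ℝ) ≤ ((m : ℝ) + 1) ^ K := by exact_mod_cast hc m
  have h3 : ((m : ℝ) + 1) ^ K ≤ 2 ^ K * (m : ℝ) ^ K + 1 := by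
    rcases Nat.eq_zero_or_pos m with rfl | hm
    · have : (0 : ℝ) ≤ 2 ^ K * (0 : ℝ) ^ K := by positivity
      simp only [Nat.cast_zero, zero_add, one_pow]
      linarith
    · have hm' : (1 : ℝ) ≤ m := by exact_mod_cast hm
      have : ((m : ℝ) + 1) ^ K ≤ (2 * m) ^ K := pow_le_pow_left₀ (by positivity) (by linarith) K
      rw [mul_pow] at this
      linarith
  have h4 : 0 ≤ r ^ m := by positivity
  calc (c m : ℝ) * r ^ m ≤ (2 ^ K * (m : ℝ) ^ K + 1) * r ^ m :=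
        mul_le_mul_of_nonneg_right (h2.trans h3) h4
    _ = 2 ^ K * ((m : ℝ) ^ K * r ^ m) + r ^ m := by ring

theorem ps_an (𝕜 : Type) [RCLike 𝕜] (c : ℕ → ℕ) (K : ℕ) (hc : ∀ m, c m ≤ (m + 1) ^ K) :
    AnalyticOnNhd 𝕜 (ps 𝕜 c) (Metric.ball 0 1) := by
  let p : FormalMultilinearSeries 𝕜 𝕜 𝕜 := FormalMultilinearSeries.ofScalars 𝕜 (fun m => (c m : 𝕜))
  have hrad : 1 ≤ p.radius := by
    refine ENNReal.le_of_forall_nnreal_lt fun r hr => ?_
    have hr1 : (r : ℝ) < 1 := by exact_mod_cast hr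
    refine p.le_radius_of_summable ?_
    refine (ps_summable c K hc r r.2 hr1).congr fun m => ?_
    rw [FormalMultilinearSeries.ofScalars_norm]
    simp
  have h1 : HasFPowerSeriesOnBall p.sum p 0 p.radius :=
    p.hasFPowerSeriesOnBall (lt_of_lt_of_le one_pos hrad)
  have h2 : p.sum = ps 𝕜 c := by
    funext x
    have : p.sum x = ∑' n, (c n : 𝕜) • x ^ n := FormalMultilinearSeries.ofScalars_sum_eq (fun m => (c m : 𝕜)) x
    rw [this]
    rfl
  rw [← h2]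
  intro x hx
  refine h1.analyticOnNhd x ?_
  rw [Metric.mem_eball, edist_zero_right]
  rw [mem_ball_zero_iff] at hx
  refine lt_of_lt_of_le ?_ hrad
  rw [← ofReal_norm]
  exact_mod_cast ENNReal.ofReal_lt_one.2 hx

theorem sig_le (k m : ℕ) : ArithmeticFunction.sigma k (m + 1) ≤ (m + 1) ^ (k + 1) :=
  ArithmeticFunction.sigma_le_pow_succ k (m + 1)

/-- the series of `E4` and `E6` -/
noncomputable def A3 (𝕜 : Type) [RCLike 𝕜] : 𝕜 → 𝕜 := ps 𝕜 (fun m => ArithmeticFunction.sigma 3 (m + 1))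

noncomputable def A5 (𝕜 : Type) [RCLike 𝕜] : 𝕜 → 𝕜 := ps 𝕜 (fun m => ArithmeticFunction.sigma 5 (m + 1))

theorem A3_an (𝕜 : Type) [RCLike 𝕜] : AnalyticOnNhd 𝕜 (A3 𝕜) (Metric.ball 0 1) := ps_an 𝕜 _ 4 (sig_le 3)

theorem A5_an (𝕜 : Type) [RCLike 𝕜] : AnalyticOnNhd 𝕜 (A5 𝕜) (Metric.ball 0 1) := ps_an 𝕜 _ 6 (sig_le 5)

theorem A3_zero : A3 ℝ 0 = 1 := by
  unfold A3 ps
  rw [tsum_eq_single 0]
  · simp
  · intro m hm
    simp [hm]

theorem A5_zero : A5 ℝ 0 = 1 := by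
  unfold A5 ps
  rw [tsum_eq_single 0]
  · simp
  · intro m hm
    simp [hm]

theorem A3_ofReal (x : ℝ) : A3 ℂ (x : ℂ) = ((A3 ℝ x : ℝ) : ℂ) := by
  unfold A3 ps
  rw [Complex.ofReal_tsum]
  refine tsum_congr fun m => ?_
  push_cast
  rfl

theorem A5_ofReal (x : ℝ) : A5 ℂ (x : ℂ) = ((A5 ℝ x : ℝ) : ℂ) := by
  unfold A5 ps
  rw [Complex.ofReal_tsum]
  refine tsum_congr fun m => ?_
  push_cast
  rfl

theorem E4_q (τ : ℂ) : E4 τ = 1 + 240 * (Complex.exp (2 * (Real.pi : ℂ) * Complex.I * τ) *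
    A3 ℂ (Complex.exp (2 * (Real.pi : ℂ) * Complex.I * τ))) := by
  unfold E4 A3 ps
  have h : ∑' m : ℕ, ((ArithmeticFunction.sigma 3 (m + 1) : ℕ) : ℂ) *
      Complex.exp (2 * (Real.pi : ℂ) * Complex.I * τ) ^ (m + 1) =
      Complex.exp (2 * (Real.pi : ℂ) * Complex.I * τ) * ∑' m : ℕ, ((ArithmeticFunction.sigma 3 (m + 1) : ℕ) : ℂ) *
        Complex.exp (2 * (Real.pi : ℂ) * Complex.I * τ) ^ m := by
    rw [← tsum_mul_left]
    refine tsum_congr fun m => ?_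
    ring
  rw [h]

theorem E6_q (τ : ℂ) : E6 τ = 1 - 504 * (Complex.exp (2 * (Real.pi : ℂ) * Complex.I * τ) *
    A5 ℂ (Complex.exp (2 * (Real.pi : ℂ) * Complex.I * τ))) := by
  unfold E6 A5 ps
  have h : ∑' m : ℕ, ((ArithmeticFunction.sigma 5 (m + 1) : ℕ) : ℂ) *
      Complex.exp (2 * (Real.pi : ℂ) * Complex.I * τ) ^ (m + 1) =
      Complex.exp (2 * (Real.pi : ℂ) * Complex.I * τ) * ∑' m : ℕ, ((ArithmeticFunction.sigma 5 (m + 1) : ℕ) : ℂ) *
        Complex.exp (2 * (Real.pi : ℂ) * Complex.I * τ) ^ m := by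
    rw [← tsum_mul_left]
    refine tsum_congr fun m => ?_
    ring
  rw [h]

/-- `(e4 ^ 3 - e6 ^ 2) / x` -/
noncomputable def Dn (x : ℝ) : ℝ := 720 * A3 ℝ x + 172800 * x * A3 ℝ x ^ 2 + 13824000 * x ^ 2 * A3 ℝ x ^ 3 +
  1008 * A5 ℝ x - 254016 * x * A5 ℝ x ^ 2

/-- `x j` -/
noncomputable def G0 (x : ℝ) : ℝ := 1728 * (1 + 240 * (x * A3 ℝ x)) ^ 3 / Dn x

/-- `exp (- 2 π y)` -/
noncomputable def xx (y : ℝ) : ℝ := Real.exp (-(2 * Real.pi * y))

theorem xx_pos (y : ℝ) : 0 < xx y := Real.exp_pos _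

theorem xx_lt {y : ℝ} (hy : 0 < y) : xx y < 1 := by
  unfold xx
  rw [Real.exp_lt_one_iff]
  have := Real.pi_pos
  have : 0 < 2 * Real.pi * y := by positivity
  linarith

theorem exp_I (y : ℝ) : Complex.exp (2 * (Real.pi : ℂ) * Complex.I * (Complex.I * y)) = ((xx y : ℝ) : ℂ) := by
  unfold xx
  rw [Complex.ofReal_exp]
  congr 1
  push_cast
  linear_combination (2 * (Real.pi : ℂ) * y) * Complex.I_sq

theorem E4_I (y : ℝ) : E4 (Complex.I * y) = ((1 + 240 * (xx y * A3 ℝ (xx y)) : ℝ) : ℂ) := by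
  rw [E4_q, exp_I, A3_ofReal]
  push_cast
  ring

theorem E6_I (y : ℝ) : E6 (Complex.I * y) = ((1 - 504 * (xx y * A5 ℝ (xx y)) : ℝ) : ℂ) := by
  rw [E6_q, exp_I, A5_ofReal]
  push_cast
  ring

theorem disc_I (y : ℝ) : E4 (Complex.I * y) ^ 3 - E6 (Complex.I * y) ^ 2 = ((xx y * Dn (xx y) : ℝ) : ℂ) := by
  rw [E4_I, E6_I, Dn]
  push_cast
  ring

/-- the point `i y` of the upper half plane -/
noncomputable def Iy (y : ℝ) (hy : 0 < y) : ℍ := ⟨Complex.I * y, by simpa using hy⟩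

theorem Dn_ne (x : ℝ) (h0 : 0 ≤ x) (h1 : x < 1) : Dn x ≠ 0 := by
  rcases eq_or_lt_of_le h0 with rfl | h0
  · unfold Dn
    rw [A3_zero, A5_zero]
    norm_num
  · have hy : 0 < -Real.log x / (2 * Real.pi) := by
      have := Real.log_neg h0 h1
      have := Real.pi_pos
      apply div_pos <;> linarith
    have hx : xx (-Real.log x / (2 * Real.pi)) = x := by
      unfold xx
      rw [← Real.exp_log h0]
      congr 1
      rw [Real.exp_log h0]
      field_simp [Real.pi_ne_zero]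
    have h2 := disc_ne (Iy _ hy)
    have h3 := disc_I (-Real.log x / (2 * Real.pi))
    rw [hx] at h3
    intro h4
    rw [h4, mul_zero] at h3
    exact h2 (by simpa [Iy] using h3)

theorem G0_zero : G0 0 = 1 := by
  unfold G0 Dn
  rw [A3_zero, A5_zero]
  norm_num

theorem mem_ball_of (x : ℝ) (h0 : 0 ≤ x) (h1 : x < 1) : x ∈ Metric.ball (0 : ℝ) 1 := by
  rw [mem_ball_zero_iff, Real.norm_of_nonneg h0]
  exact h1

theorem G0_an : AnalyticOnNhd ℝ G0 (Set.Ico 0 1) := by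
  intro x hx
  have h3 := A3_an ℝ x (mem_ball_of x hx.1 hx.2)
  have h5 := A5_an ℝ x (mem_ball_of x hx.1 hx.2)
  have hid : AnalyticAt ℝ (fun x : ℝ => x) x := analyticAt_id
  have hD : AnalyticAt ℝ Dn x := by
    unfold Dn
    exact ((((analyticAt_const.mul h3).add ((analyticAt_const.mul hid).mul (h3.pow 2))).add
      ((analyticAt_const.mul (hid.pow 2)).mul (h3.pow 3))).add (analyticAt_const.mul h5)).sub
      ((analyticAt_const.mul hid).mul (h5.pow 2))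
  unfold G0
  exact (analyticAt_const.mul ((analyticAt_const.add (analyticAt_const.mul (hid.mul h3))).pow 3)).div hD
    (Dn_ne x hx.1 hx.2)

/-- `j (i y)` as a real function -/
noncomputable def g0 (y : ℝ) : ℝ := G0 (xx y) / xx y

theorem jj_I (y : ℝ) : jj (Complex.I * y) = ((g0 y : ℝ) : ℂ) := by
  unfold jj
  rw [disc_I, E4_I, g0, G0]
  have := (xx_pos y).ne'
  push_cast
  rw [div_div]
  ring_nf

theorem xx_an : AnalyticOnNhd ℝ xx Set.univ := by
  intro y _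
  unfold xx
  have h1 : AnalyticAt ℝ (fun y : ℝ => -(2 * Real.pi * y)) y :=
    (analyticAt_const.mul analyticAt_id).neg
  exact h1.rexp

theorem comp_an (G : ℝ → ℝ) (hG : AnalyticOnNhd ℝ G (Set.Ico 0 1)) :
    AnalyticOnNhd ℝ (fun y => G (xx y) / xx y) (Set.Ioi 0) := by
  intro y hy
  have h1 := xx_an y (Set.mem_univ y)
  have h2 : AnalyticAt ℝ (fun y => G (xx y)) y :=
    (hG (xx y) ⟨(xx_pos y).le, xx_lt hy⟩).fun_comp h1
  exact h2.div h1 (xx_pos y).ne'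

theorem g0_an : AnalyticOnNhd ℝ g0 (Set.Ioi 0) := comp_an G0 G0_an

theorem xx_tendsto : Tendsto xx atTop (𝓝 0) := by
  unfold xx
  refine Real.tendsto_exp_atBot.comp ?_
  refine tendsto_neg_atTop_atBot.comp ?_
  exact Tendsto.const_mul_atTop (by positivity) tendsto_id

theorem g0_log : ∃ y0 : ℝ, 0 < y0 ∧ ∀ y, y0 ≤ y → 0 < g0 y ∧ |Real.log (g0 y) - 2 * Real.pi * y| ≤ 1 := by
  have hc : ContinuousAt G0 0 := (G0_an 0 ⟨le_rfl, one_pos⟩).continuousAt
  have h1 : Tendsto (fun y => G0 (xx y)) atTop (𝓝 1) := by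
    have := hc.tendsto.comp xx_tendsto
    rwa [G0_zero] at this
  have h2 : ∀ᶠ y in atTop, 1 / 2 < G0 (xx y) := h1.eventually_const_lt (by norm_num)
  have h3 : ∀ᶠ y in atTop, G0 (xx y) < 2 := h1.eventually_lt_const (by norm_num)
  obtain ⟨y0, hy0⟩ := ((h2.and h3).and (eventually_gt_atTop (0 : ℝ))).exists_forall_of_atTop
  refine ⟨y0, (hy0 y0 le_rfl).2, ?_⟩
  intro y hy
  obtain ⟨⟨h4, h5⟩, h6⟩ := hy0 y hy
  have hpos : 0 < G0 (xx y) := by linarith
  refine ⟨div_pos hpos (xx_pos y), ?_⟩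
  have hlog : Real.log (g0 y) = Real.log (G0 (xx y)) + 2 * Real.pi * y := by
    unfold g0
    rw [Real.log_div hpos.ne' (xx_pos y).ne']
    unfold xx
    rw [Real.log_exp]
    ring
  rw [hlog]
  have h7 : Real.log (G0 (xx y)) ≤ Real.log 2 := Real.log_le_log hpos h5.le
  have h8 : Real.log (1 / 2) ≤ Real.log (G0 (xx y)) := Real.log_le_log (by norm_num) h4.le
  have h9 : Real.log (1 / 2) = - Real.log 2 := by rw [one_div, Real.log_inv]
  have := Real.log_two_lt_d9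
  rw [abs_le]
  constructor <;> linarith

end Pool.Agent.TH21.MS
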