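import Pool.Agent.TH21.MS.Nome4
import Pool.Agent.TH21.MS.Comp

/-!
# Logarithms, powers, nomes and jets of `j` for several exponents
-/

set_option autoImplicit false

open Set Filter Topology Polynomial Asymptotics

namespace Pool.Agent.TH21.MS

/-- the bijection of the indices -/
def eqB (κ R : Type) (n : ℕ) : κ ⊕ (Fin (n + 1) × R) ≃ R ⊕ (κ ⊕ (Fin n × R)) where
  toFun := Sum.elim (fun x => Sum.inr (Sum.inl x)) (fun p =>
    Fin.lastCases (motive := fun _ => R ⊕ (κ ⊕ (Fin n × R))) (Sum.inl p.2)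
      (fun i => Sum.inr (Sum.inr (i, p.2))) p.1)
  invFun := Sum.elim (fun j => Sum.inr (Fin.last n, j))
    (Sum.elim Sum.inl (fun p => Sum.inr (p.1.castSucc, p.2)))
  left_inv := by
    rintro (x | ⟨i, j⟩)
    · rfl
    · refine Fin.lastCases ?_ (fun i => ?_) i
      · simp
      · simp
  right_inv := by
    rintro (j | x | ⟨i, j⟩)
    · simp
    · rfl
    · simp

/-- the functions of the base: `log t` and `t ^ ρ_i` -/
noncomputable def ub {m : ℕ} (ρ : Fin m → ℝ) (i : Option (Fin m)) (t : ℝ) : ℝ :=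
  i.elim (Real.log t) fun k => t ^ ρ k

/-- the control function of the base -/
noncomputable def hb {m : ℕ} (ρ : Fin m → ℝ) (t : ℝ) : ℝ := |Real.log t| + ∑ k, |ρ k * Real.log t|

theorem s_div_log : Tendsto (fun s : ℝ => s / Real.log s) atTop atTop := t_div_log

theorem LB_ub {m : ℕ} (ρ : Fin m → ℝ)
    (hρ : ∀ (c0 : ℤ) (c : Fin m → ℤ), (c0 : ℝ) + ∑ k, (c k : ℝ) * ρ k = 0 → c0 = 0 ∧ c = 0) : LB (ub ρ) (hb ρ) := by
  have hlogk : ∀ (k : Fin m) (s : ℝ), Real.log ((Real.exp s) ^ ρ k) = ρ k * s := by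
    intro k s
    rw [Real.log_rpow (Real.exp_pos _), Real.log_exp]
  refine LB_of_s (fun k t => t ^ ρ k) (fun s => |s| + ∑ k, |ρ k * s|) ?_
  refine LB_of_growth _ _ ?_ ?_ ?_ ?_ ?_
  · intro i
    refine Eventually.of_forall fun s => ?_
    rcases i with _ | k
    · exact Real.exp_pos _
    · exact Real.rpow_pos_of_pos (Real.exp_pos _) _
  · intro i
    refine ⟨0, ?_⟩
    rcases i with _ | k
    · exact Real.continuous_exp.continuousOn
    · refine Continuous.continuousOn ?_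
      exact Real.continuous_exp.rpow_const fun s => Or.inl (Real.exp_pos s).ne'
  · intro c hc
    have hne : ((c none : ℤ) : ℝ) + ∑ k, ((c (some k) : ℤ) : ℝ) * ρ k ≠ 0 := by
      intro h0
      obtain ⟨h1, h2⟩ := hρ (c none) (fun k => c (some k)) h0
      apply hc
      funext i
      rcases i with _ | k
      · exact h1
      · exact congrFun h2 k
    have h3 := s_div_log.const_mul_atTop (abs_pos.2 hne)
    refine h3.congr' ?_
    filter_upwards [eventually_gt_atTop (0 : ℝ)] with s hs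
    rw [Fintype.sum_option]
    simp only [Option.elim_none, Option.elim_some, hlogk]
    rw [Real.log_exp]
    have h4 : ((c none : ℤ) : ℝ) * s + ∑ k, ((c (some k) : ℤ) : ℝ) * (ρ k * s) =
        (((c none : ℤ) : ℝ) + ∑ k, ((c (some k) : ℤ) : ℝ) * ρ k) * s := by
      rw [add_mul, Finset.sum_mul]
      congr 1
      refine Finset.sum_congr rfl fun k _ => ?_
      ring
    rw [h4, abs_mul, abs_of_pos hs, mul_div_assoc]
  · filter_upwards [eventually_gt_atTop (0 : ℝ)] with s hs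
    have h1 := Real.log_le_sub_one_of_pos hs
    have h2 : 0 ≤ ∑ k, |ρ k * s| := Finset.sum_nonneg fun k _ => abs_nonneg _
    have h3 := le_abs_self s
    linarith
  · intro i
    refine ⟨1, Eventually.of_forall fun s => ?_⟩
    have h2 : 0 ≤ ∑ k, |ρ k * s| := Finset.sum_nonneg fun k _ => abs_nonneg _
    rw [one_mul]
    rcases i with _ | k
    · simp only [Option.elim_none]
      rw [Real.log_exp]
      linarith
    · simp only [Option.elim_some]
      rw [hlogk]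
      have h3 : |ρ k * s| ≤ ∑ k, |ρ k * s| :=
        Finset.single_le_sum (f := fun k => |ρ k * s|) (fun k _ => abs_nonneg _) (Finset.mem_univ k)
      have := abs_nonneg s
      linarith

theorem hb_ge {m : ℕ} (ρ : Fin m → ℝ) (t : ℝ) : Real.log t ≤ hb ρ t := by
  unfold hb
  have h2 : 0 ≤ ∑ k, |ρ k * Real.log t| := Finset.sum_nonneg fun k _ => abs_nonneg _
  have h3 := le_abs_self (Real.log t)
  linarith

theorem ub_ub {m : ℕ} (ρ : Fin m → ℝ) (i : Option (Fin m)) :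
    ∃ C : ℝ, 0 ≤ C ∧ ∀ᶠ t in atTop, |ub ρ i t| ≤ Real.exp (C * hb ρ t) := by
  refine ⟨1, zero_le_one, ?_⟩
  filter_upwards [eventually_gt_atTop (0 : ℝ)] with t ht
  have h2 : 0 ≤ ∑ k, |ρ k * Real.log t| := Finset.sum_nonneg fun k _ => abs_nonneg _
  rw [one_mul]
  rcases i with _ | k
  · have h1 := Real.add_one_le_exp (hb ρ t)
    have h3 : |Real.log t| ≤ hb ρ t := by
      unfold hb
      linarith
    show |Real.log t| ≤ _
    linarith
  · show |t ^ ρ k| ≤ _
    rw [abs_of_pos (Real.rpow_pos_of_pos ht _), Real.rpow_def_of_pos ht]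
    refine Real.exp_le_exp.2 ?_
    have h3 : |ρ k * Real.log t| ≤ ∑ k, |ρ k * Real.log t| :=
      Finset.single_le_sum (f := fun k => |ρ k * Real.log t|) (fun k _ => abs_nonneg _) (Finset.mem_univ k)
    have h4 := le_abs_self (ρ k * Real.log t)
    unfold hb
    have := abs_nonneg (Real.log t)
    rw [mul_comm]
    linarith

theorem hb_o {m : ℕ} (ρ : Fin m → ℝ) (τ : ℝ) (hτ : 0 < τ) : hb ρ =o[atTop] fun t : ℝ => t ^ τ := by
  have h1 : Real.log =o[atTop] fun t : ℝ => t ^ τ := isLittleO_log_rpow_atTop hτ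
  unfold hb
  refine IsLittleO.add (isLittleO_abs_left.2 h1) (IsLittleO.fun_sum fun k _ => ?_)
  exact isLittleO_abs_left.2 (h1.const_mul_left _)

theorem rpow_o {σ τ : ℝ} (h : σ < τ) : (fun t : ℝ => t ^ σ) =o[atTop] fun t : ℝ => t ^ τ := by
  rw [isLittleO_iff_tendsto']
  · have h1 := tendsto_rpow_neg_atTop (sub_pos.2 h)
    refine h1.congr' ?_
    filter_upwards [eventually_gt_atTop (0 : ℝ)] with t ht
    rw [← Real.rpow_sub ht]
    congr 1
    ring
  · filter_upwards [eventually_gt_atTop (0 : ℝ)] with t ht h0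
    exact absurd h0 (Real.rpow_pos_of_pos ht _).ne'

/-- the real functions of the ladder -/
noncomputable def wl {p : ℕ} (ρ : ℕ → ℝ) (s : ℕ → Fin p → ℝ) (n : ℕ) (q : Fin n × (Fin p × Fin 4)) (t : ℝ) : ℝ :=
  Gq q.2.2 (xp (s q.1 q.2.1 * t ^ ρ q.1)) / xp (s q.1 q.2.1 * t ^ ρ q.1)

/-- the control functions of the ladder -/
noncomputable def Hl {p : ℕ} (h0 : ℝ → ℝ) (ρ : ℕ → ℝ) (s : ℕ → Fin p → ℝ) (n : ℕ) (t : ℝ) : ℝ :=
  h0 t + ∑ i ∈ Finset.range n, ∑ k, s i k * t ^ ρ i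

theorem wl_step {κ : Type} (u : κ → ℝ → ℝ) {p : ℕ} (ρ : ℕ → ℝ) (s : ℕ → Fin p → ℝ) (n : ℕ)
    (k : κ ⊕ (Fin (n + 1) × (Fin p × Fin 4))) : Sum.elim u (wl ρ s (n + 1)) k =
    (Sum.elim (fun (q : Fin p × Fin 4) t => Gq q.2 (xp (s n q.1 * t ^ ρ n)) / xp (s n q.1 * t ^ ρ n))
      (Sum.elim u (wl ρ s n))) (eqB κ (Fin p × Fin 4) n k) := by
  rcases k with x | ⟨i, j⟩
  · rfl
  · refine Fin.lastCases ?_ (fun i => ?_) i
    · funext t
      simp [wl, eqB]
    · funext t
      simp [wl, eqB]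

theorem LB_lad {κ : Type} (u : κ → ℝ → ℝ) (h0 : ℝ → ℝ) (hLB : LB u h0)
    (hh : ∀ᶠ t in atTop, Real.log t ≤ h0 t)
    (hu : ∀ k, ∃ C : ℝ, 0 ≤ C ∧ ∀ᶠ t in atTop, |u k t| ≤ Real.exp (C * h0 t))
    (ho : ∀ τ : ℝ, 0 < τ → h0 =o[atTop] fun t : ℝ => t ^ τ) {p : ℕ} (ρ : ℕ → ℝ) (s : ℕ → Fin p → ℝ) (N : ℕ)
    (hρ : ∀ i < N, 0 < ρ i) (hρ' : ∀ i j, i < j → j < N → ρ i < ρ j) (hs : ∀ i < N, ∀ k, 0 < s i k)
    (hs' : ∀ i < N, ∀ c : Fin p → ℤ, ∑ k, (c k : ℝ) * s i k = 0 → c = 0) :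
    ∀ n, n ≤ N → LB (Sum.elim u (wl ρ s n)) (Hl h0 ρ s n) ∧ (∀ᶠ t in atTop, Real.log t ≤ Hl h0 ρ s n t) ∧
      (∀ k, ∃ C : ℝ, 0 ≤ C ∧ ∀ᶠ t in atTop, |Sum.elim u (wl ρ s n) k t| ≤ Real.exp (C * Hl h0 ρ s n t)) ∧
      (∀ τ : ℝ, 0 < τ → (∀ i < n, ρ i < τ) → Hl h0 ρ s n =o[atTop] fun t : ℝ => t ^ τ) := by
  intro n
  induction n with
  | zero =>
    intro _
    have hH0 : Hl h0 ρ s 0 = h0 := by
      funext t
      simp [Hl]
    rw [hH0]
    refine ⟨?_, hh, ?_, fun τ hτ _ => ho τ hτ⟩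
    · refine LB_equiv (Equiv.sumEmpty κ (Fin 0 × (Fin p × Fin 4))) u _ ?_ _ hLB
      rintro (x | ⟨i, -⟩)
      · rfl
      · exact i.elim0
    · rintro (x | ⟨i, -⟩)
      · exact hu x
      · exact i.elim0
  | succ n ih =>
    intro hn
    obtain ⟨ih1, ih2, ih3, ih4⟩ := ih (by omega)
    have hρn := hρ n (by omega)
    have hsn := hs n (by omega)
    have hsn' := hs' n (by omega)
    have hHs : ∀ t, Hl h0 ρ s (n + 1) t = Hl h0 ρ s n t + ∑ k, s n k * t ^ ρ n := by
      intro t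
      unfold Hl
      rw [Finset.sum_range_succ]
      ring
    have hHs' : Hl h0 ρ s (n + 1) = fun t => Hl h0 ρ s n t + ∑ k, s n k * t ^ ρ n := funext hHs
    have hon : Hl h0 ρ s n =o[atTop] fun t : ℝ => t ^ ρ n :=
      ih4 (ρ n) hρn fun i hi => hρ' i n hi (by omega)
    have h1 : ∀ᶠ t in atTop, 1 ≤ Hl h0 ρ s n t := by
      filter_upwards [ih2, Real.tendsto_log_atTop.eventually_ge_atTop 1] with t h2 h3
      linarith
    have hpos : ∀ k, ∀ᶠ t : ℝ in atTop, 0 < s n k * t ^ ρ n := by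
      intro k
      filter_upwards [eventually_gt_atTop (0 : ℝ)] with t ht
      exact mul_pos (hsn k) (Real.rpow_pos_of_pos ht _)
    have hcont : ∀ k, ∃ t0, ContinuousOn (fun t : ℝ => s n k * t ^ ρ n) (Set.Ici t0) := by
      intro k
      refine ⟨1, fun t ht => ?_⟩
      have ht0 : t ≠ 0 := (lt_of_lt_of_le one_pos ht).ne'
      exact (continuousAt_const.mul (Real.continuousAt_rpow_const t (ρ n) (Or.inl ht0))).continuousWithinAt
    have hH : ∀ c : Fin p → ℤ, c ≠ 0 →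
        Tendsto (fun t : ℝ => |∑ k, (c k : ℝ) * (s n k * t ^ ρ n)| / Hl h0 ρ s n t) atTop atTop := by
      intro c hc
      have hne : ∑ k, (c k : ℝ) * s n k ≠ 0 := fun h => hc (hsn' c h)
      have h3 : Tendsto (fun t : ℝ => t ^ ρ n / Hl h0 ρ s n t) atTop atTop := by
        have h4 := hon.tendsto_div_nhds_zero
        have h5 : ∀ᶠ t : ℝ in atTop, 0 < Hl h0 ρ s n t / t ^ ρ n := by
          filter_upwards [h1, eventually_gt_atTop (0 : ℝ)] with t g1 g2
          exact div_pos (by linarith) (Real.rpow_pos_of_pos g2 _)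
        have h6 := (tendsto_nhdsWithin_iff.2 ⟨h4, h5⟩).inv_tendsto_nhdsGT_zero
        refine h6.congr fun t => ?_
        simp only [Pi.inv_apply, inv_div]
      refine (h3.const_mul_atTop (abs_pos.2 hne)).congr' ?_
      filter_upwards [eventually_gt_atTop (0 : ℝ)] with t ht
      have h4 : ∑ k, (c k : ℝ) * (s n k * t ^ ρ n) = (∑ k, (c k : ℝ) * s n k) * t ^ ρ n := by
        rw [Finset.sum_mul]
        refine Finset.sum_congr rfl fun k _ => ?_
        ring
      rw [h4, abs_mul, abs_of_pos (Real.rpow_pos_of_pos ht _), mul_div_assoc]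
    have hK : ∀ k l, ∀ᶠ t : ℝ in atTop,
        s n l * t ^ ρ n ≤ ((∑ l, s n l) * ∑ k, 1 / s n k) * (s n k * t ^ ρ n) := by
      intro k l
      filter_upwards [eventually_gt_atTop (0 : ℝ)] with t ht
      have h3 : s n l ≤ ∑ l, s n l :=
        Finset.single_le_sum (f := fun l => s n l) (fun l _ => (hsn l).le) (Finset.mem_univ l)
      have h4 : 1 / s n k ≤ ∑ k, 1 / s n k :=
        Finset.single_le_sum (f := fun k => 1 / s n k) (fun k _ => (one_div_pos.2 (hsn k)).le) (Finset.mem_univ k)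
      have h5 : 1 ≤ (∑ k, 1 / s n k) * s n k := by
        have := mul_le_mul_of_nonneg_right h4 (hsn k).le
        rwa [one_div, inv_mul_cancel₀ (hsn k).ne'] at this
      have h6 : 0 ≤ ∑ l, s n l := Finset.sum_nonneg fun l _ => (hsn l).le
      have h7 : s n l ≤ (∑ l, s n l) * ((∑ k, 1 / s n k) * s n k) :=
        h3.trans (le_mul_of_one_le_right h6 h5)
      have h8 := mul_le_mul_of_nonneg_right h7 (Real.rpow_pos_of_pos ht (ρ n)).le
      refine h8.trans (le_of_eq ?_)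
      ring
    have hnew := LB_block (Sum.elim u (wl ρ s n)) (Hl h0 ρ s n) ih1 ih2 ih3 (fun k t => s n k * t ^ ρ n) hpos hcont hH
      _ hK Gq (1 / 2) (by norm_num) Gq_an Gq_ind
    have hsum : ∀ᶠ t : ℝ in atTop, 0 ≤ ∑ k, s n k * t ^ ρ n := by
      filter_upwards [eventually_gt_atTop (0 : ℝ)] with t ht
      exact Finset.sum_nonneg fun k _ => (mul_pos (hsn k) (Real.rpow_pos_of_pos ht _)).le
    refine ⟨?_, ?_, ?_, ?_⟩
    · rw [hHs']
      exact LB_equiv (eqB κ (Fin p × Fin 4) n) _ _ (wl_step u ρ s n) _ hnew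
    · filter_upwards [ih2, hsum] with t h2 h3
      rw [hHs]
      linarith
    · intro k
      rw [wl_step]
      rcases eqB κ (Fin p × Fin 4) n k with q | k'
      · have hft : Tendsto (fun t : ℝ => s n q.1 * t ^ ρ n) atTop atTop :=
          (tendsto_rpow_atTop hρn).const_mul_atTop (hsn q.1)
        obtain ⟨C, hC, h2⟩ := quot_ub Gq (1 / 2) (by norm_num) Gq_an (fun t : ℝ => s n q.1 * t ^ ρ n) hft q.2
        refine ⟨C, hC, ?_⟩
        filter_upwards [h2, h1, eventually_gt_atTop (0 : ℝ)] with t h3 h4 h5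
        refine h3.trans (Real.exp_le_exp.2 (mul_le_mul_of_nonneg_left ?_ hC))
        rw [hHs]
        have h6 : s n q.1 * t ^ ρ n ≤ ∑ k, s n k * t ^ ρ n :=
          Finset.single_le_sum (f := fun k => s n k * t ^ ρ n)
            (fun k _ => (mul_pos (hsn k) (Real.rpow_pos_of_pos h5 _)).le) (Finset.mem_univ q.1)
        linarith
      · obtain ⟨C, hC, h2⟩ := ih3 k'
        refine ⟨C, hC, ?_⟩
        filter_upwards [h2, hsum] with t h3 h4
        refine h3.trans (Real.exp_le_exp.2 (mul_le_mul_of_nonneg_left ?_ hC))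
        rw [hHs]
        linarith
    · intro τ hτ hτ'
      rw [hHs']
      refine IsLittleO.add (ih4 τ hτ fun i hi => hτ' i (by omega)) (IsLittleO.fun_sum fun k _ => ?_)
      exact (rpow_o (hτ' n (by omega))).const_mul_left _

end Pool.Agent.TH21.MS
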