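import Pool.Agent.TH21.MS.Lad

/-!
# Logarithms, powers, nomes and jets of `j`: the counting theorem
-/

set_option autoImplicit false

open Set Filter Topology

namespace Pool.Agent.TH21.MS

/-- the powers of `i` in front of the real functions -/
def s4 : Fin 4 → ℕ := ![0, 0, 3, 2]

/-- `exp (-2πi z)`, `j (z)`, `j' (z)`, `j'' (z)` -/
noncomputable def jet4 (z : ℂ) : Fin 4 → ℂ :=
  ![Complex.exp (-(2 * (Real.pi : ℂ) * Complex.I * z)), jj z, deriv jj z, deriv (deriv jj) z]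

theorem jet4_I (y : ℝ) (hy : 0 < y) (i : Fin 4) :
    jet4 (Complex.I * y) i = Complex.I ^ s4 i * ((Gq i (xp y) / xp y : ℝ) : ℂ) := by
  fin_cases i
  · show Complex.exp (-(2 * (Real.pi : ℂ) * Complex.I * (Complex.I * y))) =
      Complex.I ^ 0 * ((1 / xp y : ℝ) : ℂ)
    rw [Complex.exp_neg, exp_I, pow_zero, one_mul, one_div]
    push_cast
    rfl
  · exact jet_I y hy 0
  · exact jet_I y hy 1
  · exact jet_I y hy 2

/-- the real functions of the theorem -/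
noncomputable def uL {r m p : ℕ} (σ : Fin r → ℝ) (ρ : Fin m → ℝ) (s : Fin m → Fin p → ℝ) :
    Option (Fin r) ⊕ (Fin m × (Fin p × Fin 4)) → ℝ → ℝ :=
  Sum.elim (ub σ) (fun q t => Gq q.2.2 (xp (s q.1 q.2.1 * t ^ ρ q.1)) / xp (s q.1 q.2.1 * t ^ ρ q.1))

theorem LB_uL {r m p : ℕ} (σ : Fin r → ℝ) (ρ : Fin m → ℝ) (s : Fin m → Fin p → ℝ) (h0 : ∀ i, 0 < ρ i)
    (hmono : StrictMono ρ)
    (hσ : ∀ (c0 : ℤ) (c : Fin r → ℤ), (c0 : ℝ) + ∑ k, (c k : ℝ) * σ k = 0 → c0 = 0 ∧ c = 0)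
    (hs : ∀ i k, 0 < s i k) (hs' : ∀ i, ∀ c : Fin p → ℤ, ∑ k, (c k : ℝ) * s i k = 0 → c = 0) :
    ∃ h : ℝ → ℝ, LB (uL σ ρ s) h := by
  have hmain := LB_lad (ub σ) (hb σ) (LB_ub σ hσ) (Eventually.of_forall (hb_ge σ)) (ub_ub σ) (hb_o σ)
    (fun i => if h : i < m then ρ ⟨i, h⟩ else 0) (fun i => if h : i < m then s ⟨i, h⟩ else fun _ => 0) m
    (fun i hi => by simpa [hi] using h0 ⟨i, hi⟩)
    (fun i j hij hj => by
      have hi : i < m := hij.trans hj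
      simpa [hi, hj] using hmono (show (⟨i, hi⟩ : Fin m) < ⟨j, hj⟩ from hij))
    (fun i hi k => by simpa [hi] using hs ⟨i, hi⟩ k)
    (fun i hi c hc => by
      refine hs' ⟨i, hi⟩ c ?_
      simpa [hi] using hc) m le_rfl
  refine ⟨_, LB_equiv (Equiv.refl _) _ _ ?_ _ hmain.1⟩
  rintro (x | ⟨i, k, l⟩)
  · rfl
  · funext t
    simp [uL, wl]

theorem uL_an {r m p : ℕ} (σ : Fin r → ℝ) (ρ : Fin m → ℝ) (s : Fin m → Fin p → ℝ) (a0 : ℝ) (ha0 : 0 < a0)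
    (hs : ∀ i k, 0 < s i k)
    (q : Option (Fin r) ⊕ (Fin m × (Fin p × Fin 4))) : AnalyticOnNhd ℝ (uL σ ρ s q) (Ici a0) := by
  intro t ht
  have ht0 : 0 < t := ha0.trans_le ht
  have hpow : ∀ r : ℝ, AnalyticAt ℝ (fun t : ℝ => t ^ r) t := by
    intro r
    have h1 : (fun t : ℝ => Real.exp (Real.log t * r)) =ᶠ[𝓝 t] fun t => t ^ r := by
      filter_upwards [lt_mem_nhds ht0] with y hy
      rw [Real.rpow_def_of_pos hy]
    exact (((analyticAt_log ht0).mul analyticAt_const).rexp).congr h1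
  rcases q with (_ | i) | ⟨i, k, l⟩
  · exact analyticAt_log ht0
  · exact hpow (σ i)
  · have hpos : 0 < s i k * t ^ ρ i := mul_pos (hs i k) (Real.rpow_pos_of_pos ht0 _)
    have h1 : AnalyticAt ℝ (fun y => Gq l (xx y) / xx y) (s i k * t ^ ρ i) :=
      comp_an (Gq l) (Gq_an' l) _ hpos
    have h2 : AnalyticAt ℝ (fun t : ℝ => s i k * t ^ ρ i) t := analyticAt_const.mul (hpow (ρ i))
    exact AnalyticAt.comp (g := fun y => Gq l (xx y) / xx y) (f := fun t : ℝ => s i k * t ^ ρ i) (x := t) h1 h2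

/-- the powers of `i` -/
def sL {r m p : ℕ} : Option (Fin r) ⊕ (Fin m × (Fin p × Fin 4)) → ℕ := Sum.elim (fun _ => 0) (fun q => s4 q.2.2)

/-- the numbers of the theorem -/
noncomputable def numL {r m p n : ℕ} (σ : Fin r → ℝ) (ρ : Fin m → ℝ) (s : Fin m → Fin p → ℝ) (x : Fin n → ℚ) :
    Option (Fin n × (Option (Fin r) ⊕ (Fin m × (Fin p × Fin 4)))) → ℂ
  | none => (Real.pi : ℂ)
  | some (l, Sum.inl none) => (Real.log (x l) : ℂ)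
  | some (l, Sum.inl (some i)) => (((x l : ℝ) ^ σ i : ℝ) : ℂ)
  | some (l, Sum.inr (i, k, q)) => jet4 (Complex.I * ((s i k * (x l : ℝ) ^ ρ i : ℝ) : ℂ)) q

theorem numL_eq {r m p n : ℕ} (σ : Fin r → ℝ) (ρ : Fin m → ℝ) (s : Fin m → Fin p → ℝ) (hs : ∀ i k, 0 < s i k)
    (x : Fin n → ℚ) (hx : ∀ l, (0 : ℝ) < x l) : numL σ ρ s x = numI (uL σ ρ s) sL x := by
  funext i
  rcases i with _ | ⟨l, (_ | i) | ⟨i, k, q⟩⟩
  · rfl
  · simp [numL, numI, uL, ub, sL]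
  · simp [numL, numI, uL, ub, sL]
  · exact jet4_I (s i k * (x l : ℝ) ^ ρ i) (mul_pos (hs i k) (Real.rpow_pos_of_pos (hx l) _)) q

/-- the exceptional tuples -/
def ExcL {r m p : ℕ} (n d : ℕ) (σ : Fin r → ℝ) (ρ : Fin m → ℝ) (s : Fin m → Fin p → ℝ) (a b A B T : ℝ) :
    Set (Fin n → ℚ) :=
  {x | (∀ l, (x l : ℝ) ∈ Icc a b ∧ ((x l).den : ℝ) ≤ T) ∧
    ∃ P : MvPolynomial (Option (Fin n × (Option (Fin r) ⊕ (Fin m × (Fin p × Fin 4))))) ℤ, P ≠ 0 ∧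
      (∀ i, P.degreeOf i ≤ d) ∧ (∀ e, |((P.coeff e : ℤ) : ℝ)| ≤ T ^ A) ∧
      ‖MvPolynomial.aeval (numL σ ρ s x) P‖ ≤ T ^ (-B)}

theorem ladmain {r m p : ℕ} (σ : Fin r → ℝ) (ρ : Fin m → ℝ) (s : Fin m → Fin p → ℝ) (h0 : ∀ i, 0 < ρ i)
    (hmono : StrictMono ρ)
    (hσ : ∀ (c0 : ℤ) (c : Fin r → ℤ), (c0 : ℝ) + ∑ k, (c k : ℝ) * σ k = 0 → c0 = 0 ∧ c = 0)
    (hs : ∀ i k, 0 < s i k) (hs' : ∀ i, ∀ c : Fin p → ℤ, ∑ k, (c k : ℝ) * s i k = 0 → c = 0)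
    (n d : ℕ) (hn : 1 ≤ n) (A a b : ℝ) (hA : 0 ≤ A) (ha : 0 < a) (hab : a < b) (β : ℝ)
    (hβ : 2 - 2 / (((d : ℝ) + 1) ^ ((4 * m * p + r + 1) * n + 1) + 1) < β) :
    ∃ B C : ℝ, ∀ T : ℝ, 1 ≤ T → (ExcL n d σ ρ s a b A B T).Finite ∧
      ((ExcL n d σ ρ s a b A B T).ncard : ℝ) ≤ C * T ^ (2 * ((n : ℝ) - 1) + β) := by
  obtain ⟨h, hLB⟩ := LB_uL σ ρ s h0 hmono hσ hs hs'
  have hc : Fintype.card (Option (Fin r) ⊕ (Fin m × (Fin p × Fin 4))) = 4 * m * p + r + 1 := by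
    simp only [Fintype.card_sum, Fintype.card_option, Fintype.card_prod, Fintype.card_fin]
    ring
  obtain ⟨B, C, hBC⟩ := count2 (uL σ ρ s) sL h a (uL_an σ ρ s a ha hs) hLB n d hn A a b hA le_rfl hab β
    (by rw [hc]; exact hβ)
  refine ⟨B, C, fun T hT => ?_⟩
  have hset : ExcL n d σ ρ s a b A B T = ExcI n d (uL σ ρ s) sL a b A B T := by
    ext x
    simp only [ExcL, ExcI, Set.mem_ofPred_eq]
    refine and_congr_right fun hx => ?_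
    rw [numL_eq σ ρ s hs x fun l => ha.trans_le (hx l).1.1]
  rw [hset]
  exact hBC T hT

end Pool.Agent.TH21.MS
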