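import Pool.Agent.TH21.MS.Nome
import Pool.Agent.TH21.MS.Rel
import Pool.Agent.TH818.AP.Mv2

/-!
# Algebraic independence of `x`, `log x`, `J (x)`, `D J (x)`, `D² J (x)` (Mahler)
-/

set_option autoImplicit false

open Set Filter Topology Polynomial

namespace Pool.Agent.TH21.MS

/-- `log x`, `J (x)`, `D J (x)`, `D² J (x)`, `D = x d/dx` -/
noncomputable def fJ : Fin 4 → ℝ → ℝ :=
  ![Real.log, fun x => G0 x / x, fun x => -(G1 x / x) / (2 * Real.pi), fun x => (G2 x / x) / (2 * Real.pi) ^ 2]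

theorem fJ_an (i : Fin 4) : AnalyticOnNhd ℝ (fJ i) (Ioo 0 1) := by
  intro x hx
  have hx' : x ∈ Ico (0 : ℝ) 1 := ⟨hx.1.le, hx.2⟩
  have hx0 : x ≠ 0 := hx.1.ne'
  fin_cases i
  · exact analyticAt_log hx.1
  · exact (G0_an x hx').div analyticAt_id hx0
  · exact ((G1_an x hx').div analyticAt_id hx0).neg.div analyticAt_const (by positivity)
  · exact ((G2_an x hx').div analyticAt_id hx0).div analyticAt_const (by positivity)

/-- the relation after the inversion as a polynomial -/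
noncomputable def QM {d : ℕ} (p : (Fin 4 → Fin (d + 1)) → ℝ[X]) : MvPolynomial (Unit ⊕ (Fin 1 × Fin 3)) ℝ[X] :=
  ∑ e, (p e).eval₂ (MvPolynomial.C.comp Polynomial.C) (MvPolynomial.X (Sum.inl ())) *
    MvPolynomial.C (Polynomial.C ((-(2 * Real.pi)) ^ (e 0 : ℕ)) * X ^ (d - (e 0 : ℕ))) *
    MvPolynomial.X (Sum.inr (0, 0)) ^ (e 1 : ℕ) *
    (MvPolynomial.C (Polynomial.C (1 / (2 * Real.pi)) * X ^ 2) * MvPolynomial.X (Sum.inr (0, 1))) ^ (e 2 : ℕ) *
    (MvPolynomial.C (Polynomial.C (1 / (2 * Real.pi) ^ 2) * X ^ 4) * MvPolynomial.X (Sum.inr (0, 2)) +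
      MvPolynomial.C (Polynomial.C (2 / (2 * Real.pi) ^ 2) * X ^ 3) * MvPolynomial.X (Sum.inr (0, 1))) ^ (e 3 : ℕ)

theorem QM_eval {d : ℕ} (p : (Fin 4 → Fin (d + 1)) → ℝ[X]) (t : ℝ) (v : Unit ⊕ (Fin 1 × Fin 3) → ℝ) :
    MvPolynomial.eval₂ (evalRingHom t) v (QM p) =
      ∑ e, (p e).eval (v (Sum.inl ())) * ((-(2 * Real.pi)) ^ (e 0 : ℕ) * t ^ (d - (e 0 : ℕ))) *
        v (Sum.inr (0, 0)) ^ (e 1 : ℕ) * (1 / (2 * Real.pi) * t ^ 2 * v (Sum.inr (0, 1))) ^ (e 2 : ℕ) *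
        (1 / (2 * Real.pi) ^ 2 * t ^ 4 * v (Sum.inr (0, 2)) +
          2 / (2 * Real.pi) ^ 2 * t ^ 3 * v (Sum.inr (0, 1))) ^ (e 3 : ℕ) := by
  unfold QM
  rw [← MvPolynomial.coe_eval₂Hom, map_sum]
  refine Finset.sum_congr rfl fun e _ => ?_
  have h1 : MvPolynomial.eval₂Hom (evalRingHom t) v
      ((p e).eval₂ (MvPolynomial.C.comp Polynomial.C) (MvPolynomial.X (Sum.inl ()))) =
      (p e).eval (v (Sum.inl ())) := by
    rw [Polynomial.hom_eval₂]
    have h2 : (MvPolynomial.eval₂Hom (evalRingHom t) v).comp (MvPolynomial.C.comp Polynomial.C) =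
        RingHom.id ℝ := by
      ext x
      simp
    rw [h2, MvPolynomial.eval₂Hom_X', eval₂_id]
  simp only [map_mul, map_pow, map_add, h1, MvPolynomial.eval₂Hom_X', MvPolynomial.eval₂Hom_C, coe_evalRingHom,
    eval_C, eval_X]

/-- the value of the relation -/
noncomputable def SM {d : ℕ} (p : (Fin 4 → Fin (d + 1)) → ℝ[X]) (x : ℝ) : ℝ :=
  ∑ e, (p e).eval x * ∏ i, fJ i x ^ (e i : ℕ)

theorem SM_inv {d : ℕ} (p : (Fin 4 → Fin (d + 1)) → ℝ[X]) (t : ℝ) (ht : 0 < t) :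
    ev uM (QM p) t = t ^ d * SM p (xx (1 / t)) := by
  have hpi := Real.pi_pos
  unfold ev
  rw [QM_eval, SM, Finset.mul_sum]
  have hE : uM (Sum.inl ()) t = xx (1 / t) := by
    show Real.exp _ = Real.exp _
    rw [mul_one_div]
  have hV : ∀ i, uM (Sum.inr (0, i)) t = Gj i (xx t) / xx t := fun i => rfl
  have h0 : G0 (xx (1 / t)) / xx (1 / t) = G0 (xx t) / xx t := g0_inv t ht
  have h1 : G1 (xx (1 / t)) / xx (1 / t) = -t ^ 2 * (G1 (xx t) / xx t) := g1_inv t ht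
  have h2 : G2 (xx (1 / t)) / xx (1 / t) = t ^ 4 * (G2 (xx t) / xx t) + 2 * t ^ 3 * (G1 (xx t) / xx t) := g2_inv t ht
  have hl : Real.log (xx (1 / t)) = -(2 * Real.pi) / t := by
    unfold xx
    rw [Real.log_exp]
    ring
  refine Finset.sum_congr rfl fun e _ => ?_
  rw [hE, hV, hV, hV]
  have hd : t ^ d = t ^ (d - (e 0 : ℕ)) * t ^ (e 0 : ℕ) := by
    rw [← pow_add]
    congr 1
    have := (e 0).2
    omega
  have hG0 : Gj 0 = G0 := rfl
  have hG1 : Gj 1 = G1 := rfl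
  have hG2 : Gj 2 = G2 := rfl
  rw [Fin.prod_univ_four, hG0, hG1, hG2]
  have hf0 : fJ 0 (xx (1 / t)) = -(2 * Real.pi) / t := hl
  have hf1 : fJ 1 (xx (1 / t)) = G0 (xx t) / xx t := h0
  have hf2 : fJ 2 (xx (1 / t)) = 1 / (2 * Real.pi) * t ^ 2 * (G1 (xx t) / xx t) := by
    show -(G1 (xx (1 / t)) / xx (1 / t)) / (2 * Real.pi) = _
    rw [h1]
    ring
  have hf3 : fJ 3 (xx (1 / t)) = 1 / (2 * Real.pi) ^ 2 * t ^ 4 * (G2 (xx t) / xx t) +
      2 / (2 * Real.pi) ^ 2 * t ^ 3 * (G1 (xx t) / xx t) := by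
    show (G2 (xx (1 / t)) / xx (1 / t)) / (2 * Real.pi) ^ 2 = _
    rw [h2]
    ring
  rw [hf0, hf1, hf2, hf3, div_pow (-(2 * Real.pi)) t, hd]
  have ht0 : t ^ (e 0 : ℕ) ≠ 0 := pow_ne_zero _ ht.ne'
  generalize (1 / (2 * Real.pi) * t ^ 2 * (G1 (xx t) / xx t)) ^ (e 2 : ℕ) = A2
  generalize (1 / (2 * Real.pi) ^ 2 * t ^ 4 * (G2 (xx t) / xx t) +
      2 / (2 * Real.pi) ^ 2 * t ^ 3 * (G1 (xx t) / xx t)) ^ (e 3 : ℕ) = A3
  generalize (G0 (xx t) / xx t) ^ (e 1 : ℕ) = A1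
  generalize (p e).eval (xx (1 / t)) = c
  field_simp

theorem mahler_zero {d : ℕ} (p : (Fin 4 → Fin (d + 1)) → ℝ[X]) (hp : ∀ x ∈ Ioo (0 : ℝ) 1, SM p x = 0) : p = 0 := by
  classical
  have hpi := Real.pi_pos
  obtain ⟨h, hLB⟩ := LB_uM
  have hQ : QM p = 0 := by
    by_contra hne
    obtain ⟨C, hC⟩ := hLB _ hne
    obtain ⟨t, ht1, ht2⟩ := (hC.and (eventually_gt_atTop (0 : ℝ))).exists
    rw [SM_inv p t ht2, hp _ ⟨xx_pos _, xx_lt (by positivity)⟩, mul_zero, abs_zero] at ht1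
    exact absurd ht1 (not_le.2 (Real.exp_pos _))
  have key : ∀ U L W0 W1 W2 : ℝ, L ≠ 0 →
      ∑ e, (p e).eval U * (L ^ (e 0 : ℕ) * W0 ^ (e 1 : ℕ) * W1 ^ (e 2 : ℕ) * W2 ^ (e 3 : ℕ)) = 0 := by
    intro U L W0 W1 W2 hL
    set t : ℝ := -(2 * Real.pi) / L with ht
    have ht0 : t ≠ 0 := div_ne_zero (neg_ne_zero.2 (by positivity)) hL
    have hLt : L = -(2 * Real.pi) / t := by
      rw [ht]
      field_simp
    clear_value t
    set v1 : ℝ := 2 * Real.pi * W1 / t ^ 2 with hv1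
    set v2 : ℝ := ((2 * Real.pi) ^ 2 * W2 - 2 * t ^ 3 * v1) / t ^ 4 with hv2
    have h1 := QM_eval p t (Sum.elim (fun _ => U) (fun q => ![W0, v1, v2] q.2))
    rw [hQ, MvPolynomial.eval₂_zero] at h1
    have e1 : 1 / (2 * Real.pi) * t ^ 2 * v1 = W1 := by
      rw [hv1]
      field_simp
    have e2 : 1 / (2 * Real.pi) ^ 2 * t ^ 4 * v2 + 2 / (2 * Real.pi) ^ 2 * t ^ 3 * v1 = W2 := by
      have : t ^ 4 * v2 = (2 * Real.pi) ^ 2 * W2 - 2 * t ^ 3 * v1 := by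
        rw [hv2]
        field_simp
      calc 1 / (2 * Real.pi) ^ 2 * t ^ 4 * v2 + 2 / (2 * Real.pi) ^ 2 * t ^ 3 * v1
          = 1 / (2 * Real.pi) ^ 2 * (t ^ 4 * v2) + 2 / (2 * Real.pi) ^ 2 * t ^ 3 * v1 := by ring
        _ = W2 := by
          rw [this]
          field_simp
          ring
    simp only [Sum.elim_inl, Sum.elim_inr, Matrix.cons_val_zero, Matrix.cons_val_one, Matrix.cons_val, e1, e2] at h1
    have h2 : t ^ d * ∑ e, (p e).eval U * (L ^ (e 0 : ℕ) * W0 ^ (e 1 : ℕ) * W1 ^ (e 2 : ℕ) * W2 ^ (e 3 : ℕ)) = 0 := by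
      rw [Finset.mul_sum, h1]
      refine Finset.sum_congr rfl fun e _ => ?_
      have hd : t ^ d = t ^ (d - (e 0 : ℕ)) * t ^ (e 0 : ℕ) := by
        rw [← pow_add]
        congr 1
        have := (e 0).2
        omega
      rw [hLt, div_pow (-(2 * Real.pi)) t, hd]
      have ht1 : t ^ (e 0 : ℕ) ≠ 0 := pow_ne_zero _ ht0
      generalize (p e).eval U = c
      generalize W0 ^ (e 1 : ℕ) = A1
      generalize W1 ^ (e 2 : ℕ) = A2
      generalize W2 ^ (e 3 : ℕ) = A3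
      field_simp
    exact (mul_eq_zero.1 h2).resolve_left (pow_ne_zero _ ht0)
  funext e0
  refine Polynomial.funext fun U => ?_
  have hR : (∑ e, MvPolynomial.monomial (emb e) ((p e).eval U) : MvPolynomial (Fin 4) ℝ) = 0 := by
    refine MvPolynomial.funext_set ![Set.Ioi 0, Set.univ, Set.univ, Set.univ] ?_ ?_
    · intro i
      fin_cases i
      · exact Set.Ioi_infinite 0
      · exact Set.infinite_univ
      · exact Set.infinite_univ
      · exact Set.infinite_univ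
    · intro w hw
      have hw0 : 0 < w 0 := hw 0 (Set.mem_univ _)
      rw [map_sum, map_zero]
      rw [← key U (w 0) (w 1) (w 2) (w 3) hw0.ne']
      refine Finset.sum_congr rfl fun e _ => ?_
      rw [MvPolynomial.eval_monomial, Finsupp.prod_fintype _ _ (by simp), Fin.prod_univ_four]
      rfl
  have h3 := congrArg (MvPolynomial.coeff (emb e0)) hR
  rw [MvPolynomial.coeff_sum, MvPolynomial.coeff_zero, Finset.sum_eq_single e0] at h3
  · rw [MvPolynomial.coeff_monomial, if_pos rfl] at h3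
    rw [h3]
    simp
  · intro e _ he
    rw [MvPolynomial.coeff_monomial, if_neg]
    intro h
    exact he (emb_inj h)
  · intro h
    exact absurd (Finset.mem_univ _) h

theorem mahler (d : ℕ) (a b : ℝ) (ha : 0 < a) (hab : a < b) (hb : b < 1) :
    TH818.AP.RIndep (fun (e : Fin 4 → Fin (d + 1)) (t : ℝ) => ∏ i, fJ i t ^ (e i : ℕ)) a b := by
  intro p hp
  refine mahler_zero p ?_
  have han : AnalyticOnNhd ℝ (SM p) (Ioo 0 1) := by
    intro x hx
    unfold SM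
    refine Finset.analyticAt_fun_sum _ fun e _ => AnalyticAt.mul ?_ ?_
    · have h1 : (fun t : ℝ => (p e).eval t) = fun t => aeval (id t) (p e) := by
        funext t
        simp [aeval_def]
      rw [h1]
      exact AnalyticAt.aeval_polynomial analyticAt_id _
    · exact Finset.analyticAt_fun_prod _ fun i _ => (fJ_an i x hx).fun_pow _
  have hm : (a + b) / 2 ∈ Ioo (0 : ℝ) 1 := ⟨by linarith, by linarith⟩
  have := han.eqOn_zero_of_preconnected_of_eventuallyEq_zero isPreconnected_Ioo hm (by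
    have hnb : Icc a b ∈ 𝓝 ((a + b) / 2) := Icc_mem_nhds (by linarith) (by linarith)
    filter_upwards [hnb] with t ht
    exact hp t ht)
  intro x hx
  exact this hx

end Pool.Agent.TH21.MS
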