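import Pool.Agent.TH21.MS.H2

/-!
# The base function `exp (-2π/t)`
-/

set_option autoImplicit false

open Set Filter Topology Polynomial

namespace Pool.Agent.TH21.MS

/-- the function `exp (-2π/t)` -/
noncomputable def uE (_ : Unit) (t : ℝ) : ℝ := Real.exp (-(2 * Real.pi / t))

/-- a nonzero analytic germ is bounded below by a power -/
theorem an_lower (F : ℝ → ℝ) (hF : AnalyticAt ℝ F 0) (hne : ¬ ∀ᶠ s in 𝓝 0, F s = 0) :
    ∃ (N : ℕ) (c : ℝ), 0 < c ∧ ∀ᶠ s in 𝓝[>] (0 : ℝ), c * s ^ N ≤ |F s| := by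
  obtain ⟨N, g, hg, hg0, hFg⟩ := (hF.exists_eventuallyEq_pow_smul_nonzero_iff).2 hne
  refine ⟨N, |g 0| / 2, by positivity, ?_⟩
  have h1 : ∀ᶠ s in 𝓝 (0 : ℝ), |g 0| / 2 < |g s| := by
    refine (hg.continuousAt.abs).eventually_const_lt ?_
    have := abs_pos.2 hg0
    linarith
  filter_upwards [hFg.filter_mono nhdsWithin_le_nhds, h1.filter_mono nhdsWithin_le_nhds, self_mem_nhdsWithin]
    with s h2 h3 h4
  have h4' : (0 : ℝ) < s := h4
  rw [h2, sub_zero, smul_eq_mul, abs_mul, abs_of_pos (pow_pos h4' N), mul_comm]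
  exact mul_le_mul_of_nonneg_left h3.le (by positivity)

/-- value at `s` of the function `∑ R_e(s) exp (-2π e s)` -/
noncomputable def FE (P : MvPolynomial Unit ℝ[X]) (D : ℕ) (s : ℝ) : ℝ :=
  ∑ e ∈ P.support, (reflect D (P.coeff e)).eval s * Real.exp (-(2 * Real.pi * s)) ^ (e ())

theorem FE_an (P : MvPolynomial Unit ℝ[X]) (D : ℕ) : AnalyticOnNhd ℝ (FE P D) Set.univ := by
  intro s _
  unfold FE
  refine Finset.analyticAt_fun_sum _ fun e _ => AnalyticAt.mul ?_ (AnalyticAt.fun_pow ?_ _)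
  · have h1 : (fun t : ℝ => (reflect D (P.coeff e)).eval t) = fun t => aeval (id t) (reflect D (P.coeff e)) := by
      funext t
      simp [aeval_def]
    rw [h1]
    exact AnalyticAt.aeval_polynomial analyticAt_id _
  · exact analyticAt_rexp.comp ((analyticAt_const.mul analyticAt_id).neg)

theorem FE_eq (P : MvPolynomial Unit ℝ[X]) (D : ℕ) (hD : ∀ e ∈ P.support, (P.coeff e).natDegree ≤ D)
    (t : ℝ) (ht : t ≠ 0) : ev uE P t = t ^ D * FE P D (1 / t) := by
  rw [ev_eq_sum, FE, Finset.mul_sum]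
  refine Finset.sum_congr rfl fun e he => ?_
  rw [Fintype.prod_unique]
  have h1 : (P.coeff e).eval t = (reflect D (P.coeff e)).eval (1 / t) * t ^ D := by
    have : Invertible t := invertibleOfNonzero ht
    have := eval₂_reflect_mul_pow (RingHom.id ℝ) t D (P.coeff e) (hD e he)
    rw [eval₂_id, eval₂_id, invOf_eq_inv] at this
    rw [one_div]
    exact this.symm
  have h2 : uE default t = Real.exp (-(2 * Real.pi * (1 / t))) := by
    unfold uE
    rw [mul_one_div]
  rw [h1, h2]
  show _ * _ ^ e () = _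
  ring

/-- the reflected polynomial -/
noncomputable def PE (P : MvPolynomial Unit ℝ[X]) (D : ℕ) : MvPolynomial Unit ℝ[X] :=
  ∑ e ∈ P.support, MvPolynomial.monomial e ((reflect D (P.coeff e)).comp (-X))

theorem PE_coeff (P : MvPolynomial Unit ℝ[X]) (D : ℕ) (e : Unit →₀ ℕ) (he : e ∈ P.support) :
    (PE P D).coeff e = (reflect D (P.coeff e)).comp (-X) := by
  classical
  unfold PE
  rw [MvPolynomial.coeff_sum]
  rw [Finset.sum_eq_single e]
  · simp
  · intro b _ hb
    rw [MvPolynomial.coeff_monomial, if_neg hb]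
  · intro h
    exact absurd he h

theorem PE_ne (P : MvPolynomial Unit ℝ[X]) (D : ℕ) (hP : P ≠ 0) : PE P D ≠ 0 := by
  obtain ⟨e, he⟩ := MvPolynomial.ne_zero_iff.1 hP
  have hes : e ∈ P.support := MvPolynomial.mem_support_iff.2 he
  refine MvPolynomial.ne_zero_iff.2 ⟨e, ?_⟩
  rw [PE_coeff P D e hes]
  intro h0
  have h1 : reflect D (P.coeff e) = 0 := by
    have h2 : ((reflect D (P.coeff e)).comp (-X)).comp (-X) = 0 := by rw [h0, zero_comp]
    rw [comp_assoc] at h2
    simpa using h2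
  rw [reflect_eq_zero_iff] at h1
  exact he h1

theorem PE_ev (P : MvPolynomial Unit ℝ[X]) (D : ℕ) (t : ℝ) :
    ev (fun _ t => Real.exp (2 * Real.pi * t)) (PE P D) t = FE P D (-t) := by
  unfold ev PE FE
  rw [MvPolynomial.eval₂_sum]
  refine Finset.sum_congr rfl fun e _ => ?_
  rw [MvPolynomial.eval₂_monomial, Finsupp.prod_fintype _ _ (by simp), Fintype.prod_unique]
  simp only [coe_evalRingHom, eval_comp, eval_neg, eval_X]
  congr 2
  · congr 1
    ring

theorem t_div_log : Tendsto (fun t : ℝ => t / Real.log t) atTop atTop := by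
  have h4 : Tendsto (fun t : ℝ => Real.log t / t) atTop (𝓝 0) :=
    Real.isLittleO_log_id_atTop.tendsto_div_nhds_zero
  have h5 : ∀ᶠ t : ℝ in atTop, 0 < Real.log t / t := by
    filter_upwards [eventually_gt_atTop (1 : ℝ)] with t ht
    have := Real.log_pos ht
    positivity
  have h6 := (tendsto_nhdsWithin_iff.2 ⟨h4, h5⟩).inv_tendsto_nhdsGT_zero
  refine h6.congr fun t => ?_
  simp

theorem LB_uE : LB uE Real.log := by
  intro P hP
  obtain ⟨D, hD⟩ : ∃ D : ℕ, ∀ e ∈ P.support, (P.coeff e).natDegree ≤ D :=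
    ⟨P.support.sup fun e => (P.coeff e).natDegree, fun e he =>
      Finset.le_sup (f := fun e : Unit →₀ ℕ => (P.coeff e).natDegree) he⟩
  have hne : ¬ ∀ᶠ s in 𝓝 (0 : ℝ), FE P D s = 0 := by
    intro h0
    have h1 := (FE_an P D).eqOn_zero_of_preconnected_of_eventuallyEq_zero isPreconnected_univ
      (mem_univ (0 : ℝ)) h0
    have hLB : LB (fun (_ : Unit) t => Real.exp (2 * Real.pi * t)) (fun t => t) := by
      refine LB_of_growth _ _ (fun _ => Eventually.of_forall fun t => Real.exp_pos _)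
        (fun _ => ⟨0, by fun_prop⟩) ?_ ?_ ?_
      · intro c hc
        have hc0 : c () ≠ 0 := by
          intro h
          apply hc
          funext x
          exact h
        have h2 : ∀ t : ℝ, ∑ k : Unit, (c k : ℝ) * Real.log (Real.exp (2 * Real.pi * t)) =
            (c () : ℝ) * (2 * Real.pi) * t := by
          intro t
          rw [Fintype.sum_unique, Real.log_exp]
          ring
        simp only [h2]
        have h3 : Tendsto (fun t : ℝ => |(c () : ℝ) * (2 * Real.pi)| * (t / Real.log t)) atTop atTop := by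
          refine Tendsto.const_mul_atTop ?_ ?_
          · have : (c () : ℝ) ≠ 0 := by exact_mod_cast hc0
            positivity
          · exact t_div_log
        refine h3.congr' ?_
        filter_upwards [eventually_gt_atTop (1 : ℝ)] with t ht
        rw [abs_mul _ t, abs_of_pos (show (0 : ℝ) < t by linarith)]
        ring
      · filter_upwards [eventually_gt_atTop (0 : ℝ)] with t ht
        have := Real.log_le_sub_one_of_pos ht
        linarith
      · intro _
        refine ⟨2 * Real.pi, ?_⟩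
        filter_upwards [eventually_gt_atTop (0 : ℝ)] with t ht
        rw [Real.log_exp, abs_of_pos (by positivity)]
    obtain ⟨C, hC⟩ := hLB (PE P D) (PE_ne P D hP)
    obtain ⟨t, ht⟩ := hC.exists
    rw [PE_ev, h1 (mem_univ _)] at ht
    simp only [Pi.zero_apply, abs_zero] at ht
    exact absurd ht (not_le.2 (Real.exp_pos _))
  obtain ⟨N, c, hc, hN⟩ := an_lower (FE P D) (FE_an P D 0 (mem_univ _)) hne
  refine ⟨N + 1, ?_⟩
  have hinv : Tendsto (fun t : ℝ => 1 / t) atTop (𝓝[>] 0) := by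
    simp only [one_div]
    exact tendsto_inv_atTop_nhdsGT_zero
  filter_upwards [hinv.eventually hN, eventually_ge_atTop (1 : ℝ), eventually_ge_atTop (1 / c)] with t h1 h2 h3
  have ht : 0 < t := by linarith
  rw [FE_eq P D hD t ht.ne', abs_mul, abs_of_pos (pow_pos ht D)]
  have h4 : Real.exp (-((N : ℝ) + 1) * Real.log t) = (1 / t) ^ (N + 1) := by
    have h5 : (1 / t) ^ (N + 1) = Real.exp (Real.log ((1 / t) ^ (N + 1))) := (Real.exp_log (by positivity)).symm
    rw [h5, Real.log_pow, one_div, Real.log_inv]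
    congr 1
    push_cast
    ring
  rw [h4, pow_succ]
  have h6 : 1 / t ≤ c := by
    rw [div_le_iff₀ ht]
    rw [div_le_iff₀ hc] at h3
    linarith
  have h7 : (1 : ℝ) ≤ t ^ D := one_le_pow₀ h2
  have h8 : (0 : ℝ) ≤ (1 / t) ^ N := by positivity
  calc (1 / t) ^ N * (1 / t) ≤ (1 / t) ^ N * c := mul_le_mul_of_nonneg_left h6 h8
    _ = c * (1 / t) ^ N := by ring
    _ ≤ |FE P D (1 / t)| := h1
    _ ≤ t ^ D * |FE P D (1 / t)| := le_mul_of_one_le_left (abs_nonneg _) h7

theorem uE_ub (k : Unit) : ∃ C : ℝ, 0 ≤ C ∧ ∀ᶠ t in atTop, |uE k t| ≤ Real.exp (C * Real.log t) := by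
  refine ⟨0, le_rfl, ?_⟩
  filter_upwards [eventually_gt_atTop (0 : ℝ)] with t ht
  unfold uE
  rw [abs_of_pos (Real.exp_pos _), zero_mul]
  apply Real.exp_le_exp.2
  have := Real.pi_pos
  have : 0 < 2 * Real.pi / t := by positivity
  linarith

/-- the functions `exp (-2π/t)`, `g0 t`, `g1 t`, `g2 t` -/
noncomputable def uM : Unit ⊕ (Fin 1 × Fin 3) → ℝ → ℝ :=
  Sum.elim uE (fun (p : Fin 1 × Fin 3) t => Gj p.2 (xp t) / xp t)

theorem LB_uM : ∃ h : ℝ → ℝ, LB uM h := by
  refine LB_jets uE Real.log LB_uE (Eventually.of_forall fun _ => le_rfl) uE_ub (fun (_ : Fin 1) t => t) ?_ ?_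
  · intro _
    exact t_div_log
  · intro k l hkl
    exact absurd hkl (by simp [Subsingleton.elim k l])

end Pool.Agent.TH21.MS
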