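import Pool.Agent.TH21.MS.Schan

/-!
# Exponentials of polynomials in logarithms
-/

set_option autoImplicit false

open Set Filter Topology Polynomial Asymptotics

namespace Pool.Agent.TH21.MS

/-- passage from functions of `s = log t` to functions of `t` -/
theorem LB_of_s {κ : Type} (v : κ → ℝ → ℝ) (h : ℝ → ℝ)
    (hLB : LB (fun (i : Option κ) s => i.elim (Real.exp s) fun k => v k (Real.exp s)) h) :
    LB (fun (i : Option κ) t => i.elim (Real.log t) fun k => v k t) (fun t => h (Real.log t)) := by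
  intro P hP
  have hsw : sw _ P ≠ 0 := by
    intro h0
    apply hP
    rw [← sw_sw P, h0, map_zero]
  obtain ⟨C, hC⟩ := hLB _ hsw
  refine ⟨C, ?_⟩
  filter_upwards [Real.tendsto_log_atTop.eventually hC, eventually_gt_atTop (0 : ℝ)] with t h1 h2
  refine h1.trans (le_of_eq ?_)
  congr 1
  have h4 := ev_sw v P (Real.log t)
  rw [h4, Real.exp_log h2]

theorem poly_div_log (R : ℝ[X]) (hR : R.natDegree ≠ 0) :
    Tendsto (fun s => |R.eval s| / Real.log s) atTop atTop := by
  have h1 : (fun s : ℝ => s) =O[atTop] fun s => R.eval s := by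
    have h2 : (X : ℝ[X]).degree ≤ R.degree := by
      have hR' : R ≠ 0 := by
        intro h0
        apply hR
        rw [h0, natDegree_zero]
      rw [degree_X, degree_eq_natDegree hR']
      exact_mod_cast Nat.one_le_iff_ne_zero.2 hR
    have := Polynomial.isBigO_atTop_of_degree_le X R h2
    simpa using this
  have h2 : Real.log =o[atTop] fun s => R.eval s := Real.isLittleO_log_id_atTop.trans_isBigO h1
  have h3 := h2.tendsto_div_nhds_zero.abs
  rw [abs_zero] at h3
  have hR0 : ∀ᶠ s in atTop, R.eval s ≠ 0 := by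
    have hR' : R ≠ 0 := by
      intro h0
      apply hR
      rw [h0, natDegree_zero]
    obtain ⟨K, hK⟩ := poly_log R hR'
    filter_upwards [hK] with s hs using hs.1
  have h4 : ∀ᶠ s : ℝ in atTop, 0 < |Real.log s / R.eval s| := by
    filter_upwards [eventually_gt_atTop (1 : ℝ), hR0] with s hs hs2
    exact abs_pos.2 (div_ne_zero (Real.log_pos hs).ne' hs2)
  have h6 := (tendsto_nhdsWithin_iff.2 ⟨h3, h4⟩).inv_tendsto_nhdsGT_zero
  refine h6.congr' ?_
  filter_upwards [eventually_gt_atTop (1 : ℝ)] with s hs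
  simp only [Pi.inv_apply]
  rw [abs_div, abs_of_pos (Real.log_pos hs), inv_div]

/-- the functions `log t`, `exp (Q_i (log t))` -/
noncomputable def up {M : ℕ} (Q : Fin M → ℝ[X]) (i : Option (Fin M)) (t : ℝ) : ℝ :=
  i.elim (Real.log t) fun k => Real.exp ((Q k).eval (Real.log t))

theorem LB_up {M : ℕ} (Q : Fin M → ℝ[X])
    (hQ : ∀ (c0 : ℤ) (c : Fin M → ℤ), (C (c0 : ℝ) * X + ∑ k, C (c k : ℝ) * Q k).natDegree = 0 → c0 = 0 ∧ c = 0) :
    ∃ h : ℝ → ℝ, LB (up Q) h := by
  refine ⟨_, LB_of_s (fun k t => Real.exp ((Q k).eval (Real.log t))) (fun s => |s| + ∑ k, |(Q k).eval s|) ?_⟩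
  have hlogk : ∀ (k : Fin M) (s : ℝ), Real.log (Real.exp ((Q k).eval (Real.log (Real.exp s)))) = (Q k).eval s := by
    intro k s
    rw [Real.log_exp, Real.log_exp]
  refine LB_of_growth _ _ ?_ ?_ ?_ ?_ ?_
  · intro i
    refine Eventually.of_forall fun s => ?_
    rcases i with _ | k
    · exact Real.exp_pos _
    · exact Real.exp_pos _
  · intro i
    refine ⟨0, ?_⟩
    rcases i with _ | k
    · exact Real.continuous_exp.continuousOn
    · have : (fun s => Real.exp ((Q k).eval (Real.log (Real.exp s)))) = fun s => Real.exp ((Q k).eval s) := by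
        funext s
        rw [Real.log_exp]
      show ContinuousOn (fun s => Real.exp ((Q k).eval (Real.log (Real.exp s)))) _
      rw [this]
      exact (Real.continuous_exp.comp (Q k).continuous).continuousOn
  · intro c hc
    set R : ℝ[X] := C ((c none : ℤ) : ℝ) * X + ∑ k, C ((c (some k) : ℤ) : ℝ) * Q k with hR
    have hR0 : R.natDegree ≠ 0 := by
      intro h0
      obtain ⟨h1, h2⟩ := hQ (c none) (fun k => c (some k)) h0
      apply hc
      funext i
      rcases i with _ | k
      · exact h1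
      · exact congrFun h2 k
    refine (poly_div_log R hR0).congr fun s => ?_
    congr 2
    rw [hR, Fintype.sum_option]
    simp only [Option.elim_none, Option.elim_some, hlogk]
    rw [Real.log_exp]
    simp [eval_finsetSum]
  · filter_upwards [eventually_gt_atTop (0 : ℝ)] with s hs
    have h1 := Real.log_le_sub_one_of_pos hs
    have h2 : 0 ≤ ∑ k, |(Q k).eval s| := Finset.sum_nonneg fun k _ => abs_nonneg _
    have h3 := le_abs_self s
    linarith
  · intro i
    refine ⟨1, Eventually.of_forall fun s => ?_⟩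
    have h2 : 0 ≤ ∑ k, |(Q k).eval s| := Finset.sum_nonneg fun k _ => abs_nonneg _
    rw [one_mul]
    rcases i with _ | k
    · simp only [Option.elim_none]
      rw [Real.log_exp]
      linarith
    · simp only [Option.elim_some]
      rw [hlogk]
      have h3 : |(Q k).eval s| ≤ ∑ k, |(Q k).eval s| :=
        Finset.single_le_sum (f := fun k => |(Q k).eval s|) (fun k _ => abs_nonneg _) (Finset.mem_univ k)
      have := abs_nonneg s
      linarith

theorem up_an {M : ℕ} (Q : Fin M → ℝ[X]) (a0 : ℝ) (ha0 : 0 < a0) (i : Option (Fin M)) :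
    AnalyticOnNhd ℝ (up Q i) (Ici a0) := by
  intro t ht
  have ht0 : 0 < t := ha0.trans_le ht
  rcases i with _ | k
  · exact analyticAt_log ht0
  · have h1 : AnalyticAt ℝ (fun t : ℝ => (Q k).eval (Real.log t)) t := by
      have h2 : (fun t : ℝ => (Q k).eval (Real.log t)) = fun t => aeval (Real.log t) (Q k) := by
        funext t
        simp [aeval_def]
      rw [h2]
      exact AnalyticAt.aeval_polynomial (analyticAt_log ht0) _
    exact h1.rexp

/-- the numbers `π`, `log x_j`, `exp (Q_i (log x_j))` -/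
noncomputable def numP {M n : ℕ} (Q : Fin M → ℝ[X]) (x : Fin n → ℚ)
    (i : Option (Fin n × Option (Fin M))) : ℝ :=
  i.elim Real.pi fun q => up Q q.2 (x q.1)

/-- the exceptional tuples -/
def ExcP {M : ℕ} (n d : ℕ) (Q : Fin M → ℝ[X]) (a b A B T : ℝ) : Set (Fin n → ℚ) :=
  {x | (∀ j, (x j : ℝ) ∈ Icc a b ∧ ((x j).den : ℝ) ≤ T) ∧
    ∃ P : MvPolynomial (Option (Fin n × Option (Fin M))) ℤ, P ≠ 0 ∧ (∀ i, P.degreeOf i ≤ d) ∧
      (∀ v, |((P.coeff v : ℤ) : ℝ)| ≤ T ^ A) ∧ |MvPolynomial.aeval (numP Q x) P| ≤ T ^ (-B)}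

theorem ExcP_eq {M : ℕ} (n d : ℕ) (Q : Fin M → ℝ[X]) (a b A B T : ℝ) :
    ExcP n d Q a b A B T = ExcI n d (up Q) (fun _ => 0) a b A B T := by
  ext x
  simp only [ExcP, ExcI, Set.mem_ofPred_eq]
  refine and_congr_right fun _ => exists_congr fun P => and_congr_right fun _ => and_congr_right fun _ =>
    and_congr_right fun _ => ?_
  have h1 : numI (up Q) (fun _ => 0) x = (algebraMap ℝ ℂ) ∘ numP Q x := by
    funext i
    rcases i with _ | q
    · rfl
    · simp [numI, numP]
  rw [h1, MvPolynomial.aeval_algebraMap_apply, Complex.coe_algebraMap, Complex.norm_real, Real.norm_eq_abs]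

theorem polylogmain {M : ℕ} (Q : Fin M → ℝ[X])
    (hQ : ∀ (c0 : ℤ) (c : Fin M → ℤ), (C (c0 : ℝ) * X + ∑ k, C (c k : ℝ) * Q k).natDegree = 0 → c0 = 0 ∧ c = 0)
    (n d : ℕ) (hn : 1 ≤ n) (A a b : ℝ) (hA : 0 ≤ A) (ha : 0 < a) (hab : a < b) (β : ℝ)
    (hβ : 2 - 2 / (((d : ℝ) + 1) ^ ((M + 1) * n + 1) + 1) < β) :
    ∃ B C : ℝ, ∀ T : ℝ, 1 ≤ T → (ExcP n d Q a b A B T).Finite ∧
      ((ExcP n d Q a b A B T).ncard : ℝ) ≤ C * T ^ (2 * ((n : ℝ) - 1) + β) := by
  obtain ⟨h, hLB⟩ := LB_up Q hQ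
  have hc : Fintype.card (Option (Fin M)) = M + 1 := by
    simp
  obtain ⟨B, C, hBC⟩ := count2 (up Q) (fun _ => 0) h a (up_an Q a ha) hLB n d hn A a b hA le_rfl hab β
    (by rw [hc]; exact hβ)
  refine ⟨B, C, fun T hT => ?_⟩
  rw [ExcP_eq]
  exact hBC T hT

end Pool.Agent.TH21.MS
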