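import Pool.Agent.TH21.MS.Nome
import Pool.Agent.TH21.MS.BlockC
import Pool.Agent.TH21.MS.PolyLog

/-!
# Nomes and jets together
-/

set_option autoImplicit false

open Set Filter Topology Polynomial

namespace Pool.Agent.TH21.MS

/-- the functions `1`, `G0`, `G1`, `G2` -/
noncomputable def Gq : Fin 4 → ℝ → ℝ := ![fun _ => 1, G0, G1, G2]

theorem Gq_an' (i : Fin 4) : AnalyticOnNhd ℝ (Gq i) (Ico 0 1) := by
  fin_cases i
  · exact fun _ _ => analyticAt_const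
  · exact G0_an
  · exact G1_an
  · exact G2_an

theorem Gq_an (i : Fin 4) : AnalyticOnNhd ℝ (Gq i) (Icc 0 (1 / 2)) :=
  (Gq_an' i).mono fun _ hx => ⟨hx.1, lt_of_le_of_lt hx.2 (by norm_num)⟩

/-- the relation after the inversion as a polynomial -/
noncomputable def Q4 (P : MvPolynomial (Fin 4) ℝ) (D : ℕ) : MvPolynomial (Unit ⊕ (Fin 1 × Fin 3)) ℝ[X] :=
  ∑ e ∈ P.support, MvPolynomial.C (Polynomial.C (P.coeff e)) * MvPolynomial.X (Sum.inl ()) ^ (D - e 0) *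
    MvPolynomial.X (Sum.inr (0, 0)) ^ (e 1) *
    (MvPolynomial.C (Polynomial.C (-1) * X ^ 2) * MvPolynomial.X (Sum.inr (0, 1))) ^ (e 2) *
    (MvPolynomial.C (X ^ 4) * MvPolynomial.X (Sum.inr (0, 2)) +
      MvPolynomial.C (Polynomial.C 2 * X ^ 3) * MvPolynomial.X (Sum.inr (0, 1))) ^ (e 3)

theorem Q4_eval (P : MvPolynomial (Fin 4) ℝ) (D : ℕ) (t : ℝ) (v : Unit ⊕ (Fin 1 × Fin 3) → ℝ) :
    MvPolynomial.eval₂ (evalRingHom t) v (Q4 P D) =
      ∑ e ∈ P.support, P.coeff e * v (Sum.inl ()) ^ (D - e 0) *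
        v (Sum.inr (0, 0)) ^ (e 1) * (-1 * t ^ 2 * v (Sum.inr (0, 1))) ^ (e 2) *
        (t ^ 4 * v (Sum.inr (0, 2)) + 2 * t ^ 3 * v (Sum.inr (0, 1))) ^ (e 3) := by
  unfold Q4
  rw [← MvPolynomial.coe_eval₂Hom, map_sum]
  refine Finset.sum_congr rfl fun e _ => ?_
  simp only [map_mul, map_pow, map_add, MvPolynomial.eval₂Hom_X', MvPolynomial.eval₂Hom_C, coe_evalRingHom,
    eval_C, eval_X]

theorem Gq_ind (P : MvPolynomial (Fin 4) ℝ)
    (hP : ∀ x ∈ Ioc (0 : ℝ) (1 / 2), MvPolynomial.eval (fun i => Gq i x / x) P = 0) : P = 0 := by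
  have hall : ∀ x ∈ Ioo (0 : ℝ) 1, MvPolynomial.eval (fun i => Gq i x / x) P = 0 := by
    have han : AnalyticOnNhd ℝ (fun x => MvPolynomial.eval (fun i => Gq i x / x) P) (Ioo 0 1) := by
      intro s hs
      simp only [MvPolynomial.eval_eq']
      refine Finset.analyticAt_fun_sum _ fun e _ => AnalyticAt.mul analyticAt_const ?_
      refine Finset.analyticAt_fun_prod _ fun i _ => AnalyticAt.fun_pow ?_ _
      exact (Gq_an' i s ⟨hs.1.le, hs.2⟩).div analyticAt_id hs.1.ne'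
    have hm : (1 / 4 : ℝ) ∈ Ioo (0 : ℝ) 1 := by norm_num
    have := han.eqOn_zero_of_preconnected_of_eventuallyEq_zero isPreconnected_Ioo hm (by
      have hnb : Ioo (0 : ℝ) (1 / 2) ∈ 𝓝 (1 / 4 : ℝ) := Ioo_mem_nhds (by norm_num) (by norm_num)
      filter_upwards [hnb] with t ht
      exact hP t ⟨ht.1, ht.2.le⟩)
    intro x hx
    exact this hx
  obtain ⟨D, hD⟩ : ∃ D : ℕ, ∀ e ∈ P.support, e 0 ≤ D :=
    ⟨P.support.sup (fun e => e 0), fun e he => Finset.le_sup (f := fun e : Fin 4 →₀ ℕ => e 0) he⟩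
  obtain ⟨h, hLB⟩ := LB_uM
  have hval : ∀ t : ℝ, 0 < t → ev uM (Q4 P D) t = 0 := by
    intro t ht
    unfold ev
    rw [Q4_eval]
    have hE : uM (Sum.inl ()) t = xx (1 / t) := by
      show Real.exp _ = Real.exp _
      rw [mul_one_div]
    have hV : ∀ i, uM (Sum.inr (0, i)) t = Gj i (xx t) / xx t := fun i => rfl
    have h0 : G0 (xx (1 / t)) / xx (1 / t) = G0 (xx t) / xx t := g0_inv t ht
    have h1 : G1 (xx (1 / t)) / xx (1 / t) = -t ^ 2 * (G1 (xx t) / xx t) := g1_inv t ht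
    have h2 : G2 (xx (1 / t)) / xx (1 / t) = t ^ 4 * (G2 (xx t) / xx t) + 2 * t ^ 3 * (G1 (xx t) / xx t) :=
      g2_inv t ht
    have hx0 := xx_pos (1 / t)
    have h3 := hall (xx (1 / t)) ⟨hx0, xx_lt (by positivity)⟩
    rw [MvPolynomial.eval_eq'] at h3
    have h4 : ∑ e ∈ P.support, P.coeff e * uM (Sum.inl ()) t ^ (D - e 0) *
        uM (Sum.inr (0, 0)) t ^ (e 1) * (-1 * t ^ 2 * uM (Sum.inr (0, 1)) t) ^ (e 2) *
        (t ^ 4 * uM (Sum.inr (0, 2)) t + 2 * t ^ 3 * uM (Sum.inr (0, 1)) t) ^ (e 3) =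
        xx (1 / t) ^ D * ∑ e ∈ P.support, P.coeff e * ∏ i, (Gq i (xx (1 / t)) / xx (1 / t)) ^ e i := by
      rw [Finset.mul_sum]
      refine Finset.sum_congr rfl fun e he => ?_
      rw [Fin.prod_univ_four, hE, hV, hV, hV]
      have hG0 : Gj 0 = G0 := rfl
      have hG1 : Gj 1 = G1 := rfl
      have hG2 : Gj 2 = G2 := rfl
      have hq0 : Gq 0 (xx (1 / t)) / xx (1 / t) = 1 / xx (1 / t) := rfl
      have hq1 : Gq 1 (xx (1 / t)) / xx (1 / t) = G0 (xx t) / xx t := h0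
      have hq2 : Gq 2 (xx (1 / t)) / xx (1 / t) = -1 * t ^ 2 * (G1 (xx t) / xx t) := by
        show G1 (xx (1 / t)) / xx (1 / t) = _
        rw [h1]
        ring
      have hq3 : Gq 3 (xx (1 / t)) / xx (1 / t) = t ^ 4 * (G2 (xx t) / xx t) + 2 * t ^ 3 * (G1 (xx t) / xx t) := h2
      rw [hG0, hG1, hG2, hq0, hq1, hq2, hq3]
      have hd : xx (1 / t) ^ D = xx (1 / t) ^ (D - e 0) * xx (1 / t) ^ (e 0) := by
        rw [← pow_add, Nat.sub_add_cancel (hD e he)]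
      rw [hd, div_pow 1 (xx (1 / t)), one_pow]
      have hxe : xx (1 / t) ^ (e 0) ≠ 0 := pow_ne_zero _ hx0.ne'
      generalize (-1 * t ^ 2 * (G1 (xx t) / xx t)) ^ e 2 = A2
      generalize (t ^ 4 * (G2 (xx t) / xx t) + 2 * t ^ 3 * (G1 (xx t) / xx t)) ^ e 3 = A3
      generalize (G0 (xx t) / xx t) ^ e 1 = A1
      field_simp
    rw [h4, h3, mul_zero]
  have hQ : Q4 P D = 0 := by
    by_contra hne
    obtain ⟨C, hC⟩ := hLB _ hne
    obtain ⟨t, ht1, ht2⟩ := (hC.and (eventually_gt_atTop (0 : ℝ))).exists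
    rw [hval t ht2, abs_zero] at ht1
    exact absurd ht1 (not_le.2 (Real.exp_pos _))
  refine MvPolynomial.funext_set ![Set.Ioi 0, Set.univ, Set.univ, Set.univ] ?_ ?_
  · intro i
    fin_cases i
    · exact Set.Ioi_infinite 0
    · exact Set.infinite_univ
    · exact Set.infinite_univ
    · exact Set.infinite_univ
  · intro w hw
    have hw0 : 0 < w 0 := hw 0 (Set.mem_univ _)
    rw [map_zero]
    have h1 := Q4_eval P D 1 (Sum.elim (fun _ => 1 / w 0) (fun q => ![w 1, -w 2, w 3 + 2 * w 2] q.2))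
    rw [hQ, MvPolynomial.eval₂_zero] at h1
    simp only [Sum.elim_inl, Sum.elim_inr, Matrix.cons_val_zero, Matrix.cons_val_one, Matrix.cons_val, one_pow,
      mul_one, one_mul] at h1
    have h2 : w 0 ^ D * ∑ e ∈ P.support, P.coeff e * (1 / w 0) ^ (D - e 0) * w 1 ^ (e 1) * (-1 * -w 2) ^ (e 2) *
        (w 3 + 2 * w 2 + 2 * -w 2) ^ (e 3) = MvPolynomial.eval w P := by
      rw [MvPolynomial.eval_eq', Finset.mul_sum]
      refine Finset.sum_congr rfl fun e he => ?_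
      rw [Fin.prod_univ_four]
      have e1 : -1 * -w 2 = w 2 := by ring
      have e2 : w 3 + 2 * w 2 + 2 * -w 2 = w 3 := by ring
      rw [e1, e2]
      have hd : w 0 ^ D = w 0 ^ (D - e 0) * w 0 ^ (e 0) := by
        rw [← pow_add, Nat.sub_add_cancel (hD e he)]
      rw [hd, div_pow, one_pow]
      have hxe : w 0 ^ (D - e 0) ≠ 0 := pow_ne_zero _ hw0.ne'
      field_simp
    rw [← h2, ← h1, mul_zero]

end Pool.Agent.TH21.MS
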