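import Pool.Agent.TH21.MS.Mahler

/-!
# Rational nomes
-/

set_option autoImplicit false

open Set Filter Topology

namespace Pool.Agent.TH21.MS

/-- the point `log x / (2πi)` -/
noncomputable def zx (x : ℝ) : ℂ := (Real.log x : ℂ) / (2 * (Real.pi : ℂ) * Complex.I)

/-- the four numbers -/
noncomputable def four (x : ℝ) : Fin 4 → ℂ :=
  ![(Real.log x : ℂ), jj (zx x), deriv jj (zx x) / (2 * (Real.pi : ℂ) * Complex.I),
    deriv (deriv jj) (zx x) / (2 * (Real.pi : ℂ) * Complex.I) ^ 2]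

theorem zx_eq (x : ℝ) : zx x = Complex.I * ((-Real.log x / (2 * Real.pi) : ℝ) : ℂ) := by
  unfold zx
  have hpi : (Real.pi : ℂ) ≠ 0 := by exact_mod_cast Real.pi_ne_zero
  have hI := Complex.I_ne_zero
  push_cast
  field_simp
  rw [Complex.I_sq]
  ring

theorem four_eq (x : ℝ) (hx : x ∈ Ioo (0 : ℝ) 1) (i : Fin 4) : four x i = ((fJ i x : ℝ) : ℂ) := by
  have hlog := Real.log_neg hx.1 hx.2
  have hpi := Real.pi_pos
  set y : ℝ := -Real.log x / (2 * Real.pi) with hy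
  have hy0 : 0 < y := div_pos (by linarith) (by positivity)
  have hxx : xx y = x := by
    unfold xx
    rw [hy, ← Real.exp_log hx.1]
    congr 1
    rw [Real.exp_log hx.1]
    field_simp
  have hpi' : (Real.pi : ℂ) ≠ 0 := by exact_mod_cast Real.pi_ne_zero
  have hI := Complex.I_ne_zero
  fin_cases i
  · rfl
  · show jj (zx x) = ((G0 x / x : ℝ) : ℂ)
    rw [zx_eq, ← hy, jj_I, g0, hxx]
  · show deriv jj (zx x) / (2 * (Real.pi : ℂ) * Complex.I) = ((-(G1 x / x) / (2 * Real.pi) : ℝ) : ℂ)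
    rw [zx_eq, ← hy, jj_deriv y hy0, g1, hxx]
    push_cast
    field_simp
  · show deriv (deriv jj) (zx x) / (2 * (Real.pi : ℂ) * Complex.I) ^ 2 = ((G2 x / x / (2 * Real.pi) ^ 2 : ℝ) : ℂ)
    rw [zx_eq, ← hy, jj_deriv2 y hy0, g2, hxx, mul_pow, Complex.I_sq]
    push_cast
    field_simp

/-- `π` and the four numbers for all parameters -/
noncomputable def nums {n : ℕ} (x : Fin n → ℚ) (i : Option (Fin n × Fin 4)) : ℂ :=
  i.elim (Real.pi : ℂ) fun p => four (x p.1) p.2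

def ExcN (n d : ℕ) (a b A B T : ℝ) : Set (Fin n → ℚ) :=
  {x | (∀ k, a ≤ x k ∧ x k ≤ b ∧ ((x k).den : ℝ) ≤ T) ∧
    ∃ P : MvPolynomial (Option (Fin n × Fin 4)) ℤ, P ≠ 0 ∧ (∀ i, P.degreeOf i ≤ d) ∧
      (∀ s, |((P.coeff s : ℤ) : ℝ)| ≤ T ^ A) ∧ ‖MvPolynomial.aeval (nums x) P‖ ≤ T ^ (-B)}

theorem nomemain (n d : ℕ) (hn : 1 ≤ n) (a b : ℝ) (ha : 0 < a) (hab : a < b) (hb : b < 1) (A β : ℝ) (hA : 0 ≤ A)
    (hβ : 2 - 2 / (((d : ℝ) + 1) ^ (4 * n + 1) + 1) < β) :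
    ∃ B C : ℝ, ∀ T : ℝ, 1 ≤ T → (ExcN n d a b A B T).Finite ∧
      ((ExcN n d a b A B T).ncard : ℝ) ≤ C * T ^ (2 * ((n : ℝ) - 1) + β) := by
  have hsub : Icc a b ⊆ Ioo (0 : ℝ) 1 := fun x hx => ⟨lt_of_lt_of_le ha hx.1, lt_of_le_of_lt hx.2 hb⟩
  obtain ⟨B, C, h⟩ := TH818.AP.polys (d := d) fJ a b hab (fun i => (fJ_an i).mono hsub) (mahler d a b ha hab hb)
    n hn A β hA hβ
  refine ⟨B, C, fun T hT => ?_⟩
  have hset : ExcN n d a b A B T =
      {t : Fin n → ℚ | (∀ j, a ≤ t j ∧ t j ≤ b ∧ ((t j).den : ℝ) ≤ T) ∧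
        ∃ P : MvPolynomial (Option (Fin n × Fin 4)) ℤ, P ≠ 0 ∧ (∀ x, P.degreeOf x ≤ d) ∧
          (∀ u, |((P.coeff u : ℤ) : ℝ)| ≤ T ^ A) ∧
          |MvPolynomial.aeval (fun x : Option (Fin n × Fin 4) =>
            x.elim Real.pi fun y => fJ y.2 (t y.1)) P| ≤ T ^ (-B)} := by
    ext q
    simp only [ExcN, Set.mem_ofPred_eq]
    refine and_congr_right fun hq => ?_
    have heq : nums q = (algebraMap ℝ ℂ) ∘ (fun x : Option (Fin n × Fin 4) =>
        x.elim Real.pi fun y => fJ y.2 (q y.1)) := by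
      funext x
      cases x with
      | none => rfl
      | some y => exact four_eq _ (hsub ⟨(hq y.1).1, (hq y.1).2.1⟩) y.2
    refine exists_congr fun P => and_congr_right fun _ => and_congr_right fun _ => and_congr_right fun _ => ?_
    rw [heq, MvPolynomial.aeval_algebraMap_apply, Complex.coe_algebraMap, Complex.norm_real, Real.norm_eq_abs]
  have := h T hT
  rw [← hset] at this
  exact this

end Pool.Agent.TH21.MS
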