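import Pool.Agent.TH21.MS.Multi

/-!
# Logarithms, powers and iterated exponentials of powers
-/

set_option autoImplicit false

open Set Filter Topology Polynomial

namespace Pool.Agent.TH21.MS

/-- sums of functions of different orders of growth -/
theorem H_real {κ : Type} [Fintype κ] [DecidableEq κ] (F : κ → ℝ → ℝ)
    (hF : ∀ k l, k ≠ l → Tendsto (fun t => F k t / F l t) atTop (𝓝 0) ∨ Tendsto (fun t => F l t / F k t) atTop (𝓝 0))
    (hl : ∀ k, Tendsto (fun t => F k t / Real.log t) atTop atTop) (x : κ → ℝ) (hx : x ≠ 0) :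
    Tendsto (fun t => |∑ k, x k * F k t| / Real.log t) atTop atTop := by
  have hlog : ∀ᶠ t : ℝ in atTop, 0 < Real.log t := by
    filter_upwards [eventually_gt_atTop (1 : ℝ)] with t ht using Real.log_pos ht
  have hne : ∀ k, ∀ᶠ t in atTop, 0 < F k t := by
    intro k
    filter_upwards [(hl k).eventually_gt_atTop 0, hlog] with t h1 h2
    have := mul_pos h1 h2
    rwa [div_mul_cancel₀ _ h2.ne'] at this
  obtain ⟨k0, hk0⟩ := Function.ne_iff.1 hx
  obtain ⟨m, hm, hmax⟩ := exists_max (Finset.univ.filter fun k => x k ≠ 0)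
    ⟨k0, Finset.mem_filter.2 ⟨Finset.mem_univ _, hk0⟩⟩ F
    (fun k _ => by filter_upwards [hne k] with t ht using ht.ne') (fun i _ j _ hij => hF i j hij)
  have hxm : x m ≠ 0 := (Finset.mem_filter.1 hm).2
  have h1 : Tendsto (fun t => ∑ k, x k * (F k t / F m t)) atTop (𝓝 (∑ k, if k = m then x m else 0)) := by
    refine tendsto_finsetSum _ fun k _ => ?_
    by_cases hk : k = m
    · rw [if_pos hk, hk]
      refine tendsto_const_nhds.congr' ?_
      filter_upwards [hne m] with t ht
      rw [div_self ht.ne', mul_one]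
    · rw [if_neg hk]
      by_cases hk0 : x k = 0
      · simp only [hk0, zero_mul]
        exact tendsto_const_nhds
      · have := (hmax k (Finset.mem_filter.2 ⟨Finset.mem_univ _, hk0⟩) hk).const_mul (x k)
        rwa [mul_zero] at this
  rw [Finset.sum_ite_eq' Finset.univ m (fun _ => x m), if_pos (Finset.mem_univ m)] at h1
  have h2 : Tendsto (fun t => |∑ k, x k * (F k t / F m t)| * (F m t / Real.log t)) atTop atTop :=
    Tendsto.pos_mul_atTop (abs_pos.2 hxm) h1.abs (hl m)
  refine h2.congr' ?_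
  filter_upwards [hne m] with t ht
  have h3 : ∑ k, x k * (F k t / F m t) = (∑ k, x k * F k t) / F m t := by
    rw [Finset.sum_div]
    refine Finset.sum_congr rfl fun k _ => ?_
    ring
  rw [h3, abs_div, abs_of_pos ht]
  field_simp

/-- `a` is smaller than `b` -/
def Sm (a b : ℝ → ℝ) : Prop := ∃ c : ℝ, c < 1 ∧ ∀ᶠ s in atTop, a s ≤ c * b s

theorem Sm.exp_div {a b : ℝ → ℝ} (h : Sm a b) (hb : Tendsto b atTop atTop) :
    Tendsto (fun s => Real.exp (a s) / Real.exp (b s)) atTop (𝓝 0) := by
  obtain ⟨c, hc, h⟩ := h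
  have h1 : Tendsto (fun s => -((1 - c) * b s)) atTop atBot :=
    tendsto_neg_atTop_atBot.comp (Tendsto.const_mul_atTop (by linarith) hb)
  refine squeeze_zero' (Eventually.of_forall fun s => by positivity) ?_ (Real.tendsto_exp_atBot.comp h1)
  filter_upwards [h] with s hs
  simp only [Function.comp]
  rw [← Real.exp_sub]
  apply Real.exp_le_exp.2
  linarith

theorem Sm.exp {a b : ℝ → ℝ} (h : Sm a b) (hb : Tendsto b atTop atTop) :
    Sm (fun s => Real.exp (a s)) (fun s => Real.exp (b s)) := by
  refine ⟨1 / 2, by norm_num, ?_⟩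
  filter_upwards [(h.exp_div hb).eventually_le_const (show (0 : ℝ) < 1 / 2 by norm_num)] with s hs
  rwa [div_le_iff₀ (Real.exp_pos _)] at hs

/-- the iterated exponentials -/
noncomputable def Ee (l : ℕ) (r s : ℝ) : ℝ := Real.exp^[l] (r * s)

theorem Ee_succ (l : ℕ) (r s : ℝ) : Ee (l + 1) r s = Real.exp (Ee l r s) := by
  unfold Ee
  rw [Function.iterate_succ_apply']

theorem Ee_ge (l : ℕ) (r s : ℝ) : r * s ≤ Ee l r s := by
  induction l with
  | zero => exact le_rfl
  | succ l ih =>
    rw [Ee_succ]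
    have := Real.add_one_le_exp (Ee l r s)
    linarith

theorem Ee_tendsto (l : ℕ) (r : ℝ) (hr : 0 < r) : Tendsto (Ee l r) atTop atTop :=
  tendsto_atTop_mono (Ee_ge l r) (Tendsto.const_mul_atTop hr tendsto_id)

theorem Sm_same (l : ℕ) (r r' : ℝ) (hr : 0 < r') (h : r < r') : Sm (Ee l r) (Ee l r') := by
  induction l with
  | zero =>
    refine ⟨r / r', (div_lt_one hr).2 h, Eventually.of_forall fun s => ?_⟩
    unfold Ee
    simp only [Function.iterate_zero, id]
    rw [← mul_assoc, div_mul_cancel₀ _ hr.ne']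
  | succ l ih =>
    have := ih.exp (Ee_tendsto l r' hr)
    have e1 : Ee (l + 1) r = fun s => Real.exp (Ee l r s) := funext fun s => Ee_succ l r s
    have e2 : Ee (l + 1) r' = fun s => Real.exp (Ee l r' s) := funext fun s => Ee_succ l r' s
    rw [e1, e2]
    exact this

theorem Sm_less (l l' : ℕ) (hl : l < l') (r r' : ℝ) (hr : 0 < r') : Sm (Ee l r) (Ee l' r') := by
  induction l generalizing l' with
  | zero =>
    obtain ⟨k, rfl⟩ : ∃ k, l' = k + 1 := ⟨l' - 1, by omega⟩
    refine ⟨1 / 2, by norm_num, ?_⟩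
    have h1 : Tendsto (fun s : ℝ => Real.exp s / s ^ 1) atTop atTop := Real.tendsto_exp_div_pow_atTop 1
    have h2 := (h1.comp (Tendsto.const_mul_atTop hr tendsto_id)).eventually_ge_atTop (2 * |r| / r')
    filter_upwards [h2, eventually_gt_atTop (0 : ℝ)] with s hs hs0
    simp only [Function.comp, id, pow_one] at hs
    rw [div_le_div_iff₀ hr (by positivity)] at hs
    have h3 : Real.exp (r' * s) ≤ Ee (k + 1) r' s := by
      rw [Ee_succ]
      exact Real.exp_le_exp.2 (Ee_ge k r' s)
    have h4 : Ee 0 r s = r * s := rfl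
    rw [h4]
    have h5 : 2 * |r| * s ≤ Real.exp (r' * s) := by
      have : 2 * |r| * s * r' ≤ Real.exp (r' * s) * r' := by nlinarith
      exact le_of_mul_le_mul_right this hr
    have h6 : r * s ≤ |r| * s := mul_le_mul_of_nonneg_right (le_abs_self r) hs0.le
    linarith
  | succ l ih =>
    obtain ⟨k, rfl⟩ : ∃ k, l' = k + 1 := ⟨l' - 1, by omega⟩
    have := (ih k (by omega)).exp (Ee_tendsto k r' hr)
    have e1 : Ee (l + 1) r = fun s => Real.exp (Ee l r s) := funext fun s => Ee_succ l r s
    have e2 : Ee (k + 1) r' = fun s => Real.exp (Ee k r' s) := funext fun s => Ee_succ k r' s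
    rw [e1, e2]
    exact this

theorem Ee_log (l : ℕ) (r : ℝ) (hr : 0 < r) : Tendsto (fun s => Ee l r s / Real.log s) atTop atTop := by
  have h1 : Tendsto (fun s : ℝ => r * (s / Real.log s)) atTop atTop := by
    refine Tendsto.const_mul_atTop hr ?_
    have h4 : Tendsto (fun t : ℝ => Real.log t / t) atTop (𝓝 0) :=
      Real.isLittleO_log_id_atTop.tendsto_div_nhds_zero
    have h5 : ∀ᶠ t : ℝ in atTop, 0 < Real.log t / t := by
      filter_upwards [eventually_gt_atTop (1 : ℝ)] with t ht
      have := Real.log_pos ht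
      positivity
    have h6 := (tendsto_nhdsWithin_iff.2 ⟨h4, h5⟩).inv_tendsto_nhdsGT_zero
    refine h6.congr fun t => ?_
    simp
  refine tendsto_atTop_mono' _ ?_ h1
  filter_upwards [eventually_gt_atTop (1 : ℝ)] with s hs
  have := Real.log_pos hs
  rw [← mul_div_assoc]
  exact div_le_div_of_nonneg_right (Ee_ge l r s) this.le

/-- the functions `s`, `E_{l+1} (r_k s)` -/
noncomputable def FF {m : ℕ} (r : Fin m → ℝ) (L : ℕ) (i : Option (Fin m × Fin L)) (s : ℝ) : ℝ :=
  match i with
  | none => s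
  | some p => Ee (p.2 + 1) (r p.1) s

theorem FF_pair {m : ℕ} (r : Fin m → ℝ) (hr : ∀ k, 0 < r k) (hinj : Function.Injective r) (L : ℕ)
    (i j : Option (Fin m × Fin L)) (hij : i ≠ j) :
    Tendsto (fun t => FF r L i t / FF r L j t) atTop (𝓝 0) ∨ Tendsto (fun t => FF r L j t / FF r L i t) atTop (𝓝 0) := by
  have hsm : ∀ p q : Fin m × Fin L, Sm (Ee p.2 (r p.1)) (Ee q.2 (r q.1)) →
      Tendsto (fun t => FF r L (some p) t / FF r L (some q) t) atTop (𝓝 0) := by
    intro p q h
    have := h.exp_div (Ee_tendsto q.2 (r q.1) (hr q.1))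
    refine this.congr fun t => ?_
    simp only [FF]
    rw [Ee_succ, Ee_succ]
  have hnone : ∀ p : Fin m × Fin L, Tendsto (fun t => FF r L none t / FF r L (some p) t) atTop (𝓝 0) := by
    intro p
    have h1 : Sm Real.log (Ee p.2 (r p.1)) := by
      refine ⟨1 / 2, by norm_num, ?_⟩
      filter_upwards [(Ee_log p.2 (r p.1) (hr p.1)).eventually_ge_atTop 2, eventually_gt_atTop (1 : ℝ)] with s h1 h2
      have := Real.log_pos h2
      rw [le_div_iff₀ this] at h1
      linarith
    refine (h1.exp_div (Ee_tendsto p.2 (r p.1) (hr p.1))).congr' ?_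
    filter_upwards [eventually_gt_atTop (0 : ℝ)] with t ht
    simp only [FF]
    rw [Ee_succ, Real.exp_log ht]
  rcases i with _ | p
  · rcases j with _ | q
    · exact absurd rfl hij
    · exact Or.inl (hnone q)
  · rcases j with _ | q
    · exact Or.inr (hnone p)
    · have hpq : p ≠ q := fun h => hij (by rw [h])
      rcases lt_trichotomy (p.2 : ℕ) q.2 with h | h | h
      · exact Or.inl (hsm p q (Sm_less _ _ h _ _ (hr _)))
      · have hp2 : p.2 = q.2 := Fin.ext h
        have hp1 : p.1 ≠ q.1 := fun h' => hpq (Prod.ext h' hp2)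
        rcases lt_or_gt_of_ne (fun h' => hp1 (hinj h') : r p.1 ≠ r q.1) with h3 | h3
        · left
          refine hsm p q ?_
          rw [hp2]
          exact Sm_same _ _ _ (hr _) h3
        · right
          refine hsm q p ?_
          rw [hp2]
          exact Sm_same _ _ _ (hr _) h3
      · exact Or.inr (hsm q p (Sm_less _ _ h _ _ (hr _)))

theorem FF_log {m : ℕ} (r : Fin m → ℝ) (hr : ∀ k, 0 < r k) (L : ℕ) (i : Option (Fin m × Fin L)) :
    Tendsto (fun t => FF r L i t / Real.log t) atTop atTop := by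
  rcases i with _ | p
  · have := Ee_log 0 1 one_pos
    refine this.congr fun s => ?_
    simp [FF, Ee]
  · exact Ee_log _ _ (hr _)

/-- the functions of `s` -/
noncomputable def us' {m : ℕ} (r : Fin m → ℝ) (L : ℕ) (i : Option (Fin m × Fin (L + 1))) (s : ℝ) : ℝ :=
  match i with
  | none => Real.exp s
  | some p => Ee (p.2 + 1) (r p.1) s

theorem us_H {m : ℕ} (r : Fin m → ℝ) (hr : ∀ k, 0 < r k) (hinj : Function.Injective r)
    (hind : ∀ (c0 : ℤ) (c : Fin m → ℤ), (c0 : ℝ) + ∑ k, (c k : ℝ) * r k = 0 → c0 = 0 ∧ c = 0) (L : ℕ)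
    (c : Option (Fin m × Fin (L + 1)) → ℤ) (hc : c ≠ 0) :
    Tendsto (fun s => |∑ i, (c i : ℝ) * Real.log (us' r L i s)| / Real.log s) atTop atTop := by
  classical
  set x : Option (Fin m × Fin L) → ℝ := fun i => match i with
    | none => (c none : ℝ) + ∑ k, (c (some (k, 0)) : ℝ) * r k
    | some p => (c (some (p.1, p.2.succ)) : ℝ) with hx
  have hx0 : x ≠ 0 := by
    intro h0
    apply hc
    have h1 := congrFun h0 none
    simp only [hx, Pi.zero_apply] at h1
    obtain ⟨h2, h3⟩ := hind (c none) (fun k => c (some (k, 0))) h1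
    funext i
    rcases i with _ | ⟨k, l⟩
    · exact h2
    · refine Fin.cases ?_ (fun l => ?_) l
      · exact congrFun h3 k
      · have h4 := congrFun h0 (some (k, l))
        simp only [hx, Pi.zero_apply] at h4
        exact_mod_cast h4
  refine (H_real (FF r L) (FF_pair r hr hinj L) (FF_log r hr L) x hx0).congr fun s => ?_
  congr 2
  rw [Fintype.sum_option, Fintype.sum_option, Fintype.sum_prod_type, Fintype.sum_prod_type]
  have h1 : ∀ (k : Fin m) (l : Fin (L + 1)), Real.log (us' r L (some (k, l)) s) = Ee l (r k) s := by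
    intro k l
    simp only [us']
    rw [Ee_succ, Real.log_exp]
  have h2 : Real.log (us' r L none s) = s := by
    simp only [us']
    rw [Real.log_exp]
  simp only [h1, h2]
  have h3 : ∀ k : Fin m, ∑ l : Fin (L + 1), (c (some (k, l)) : ℝ) * Ee l (r k) s =
      (c (some (k, 0)) : ℝ) * r k * s + ∑ l : Fin L, x (some (k, l)) * FF r L (some (k, l)) s := by
    intro k
    rw [Fin.sum_univ_succ]
    congr 1
    have : Ee ((0 : Fin (L + 1)) : ℕ) (r k) s = r k * s := rfl
    rw [this]
    ring
  simp only [h3, Finset.sum_add_distrib]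
  have h4 : x none * FF r L none s = (c none : ℝ) * s + ∑ k, (c (some (k, 0)) : ℝ) * r k * s := by
    show ((c none : ℝ) + ∑ k, (c (some (k, 0)) : ℝ) * r k) * s = _
    rw [add_mul, Finset.sum_mul]
  rw [h4]
  ring

/-! ## Exchange of the variables `t` and `log t` -/

/-- the exchange of the coefficient variable and of the variable `none` -/
noncomputable def sw (κ : Type) : MvPolynomial (Option κ) ℝ[X] →+* MvPolynomial (Option κ) ℝ[X] :=
  MvPolynomial.eval₂Hom (Polynomial.eval₂RingHom (MvPolynomial.C.comp Polynomial.C) (MvPolynomial.X none))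
    (fun i => i.elim (MvPolynomial.C X) fun k => MvPolynomial.X (some k))

theorem sw_sw {κ : Type} (P : MvPolynomial (Option κ) ℝ[X]) : sw κ (sw κ P) = P := by
  have h : (sw κ).comp (sw κ) = RingHom.id _ := by
    refine MvPolynomial.ringHom_ext' ?_ ?_
    · refine Polynomial.ringHom_ext ?_ ?_
      · intro a
        simp [sw]
      · simp [sw]
    · intro i
      rcases i with _ | k
      · simp [sw]
      · simp [sw]
  exact RingHom.congr_fun h P

theorem ev_sw {κ : Type} (v : κ → ℝ → ℝ) (P : MvPolynomial (Option κ) ℝ[X]) (s : ℝ) :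
    ev (fun i s => i.elim (Real.exp s) fun k => v k (Real.exp s)) (sw κ P) s =
      ev (fun i t => i.elim (Real.log t) fun k => v k t) P (Real.exp s) := by
  unfold ev
  rw [← MvPolynomial.coe_eval₂Hom, ← MvPolynomial.coe_eval₂Hom, ← RingHom.comp_apply]
  congr 1
  refine MvPolynomial.ringHom_ext' ?_ ?_
  · refine Polynomial.ringHom_ext ?_ ?_
    · intro a
      simp [sw]
    · simp [sw]
  · intro i
    rcases i with _ | k
    · simp [sw]
    · simp [sw]

/-- the functions `log t`, `E_l (t ^ r_k)` -/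
noncomputable def ut {m : ℕ} (r : Fin m → ℝ) (L : ℕ) (i : Option (Fin m × Fin (L + 1))) (t : ℝ) : ℝ :=
  i.elim (Real.log t) fun p => Real.exp^[p.2] (t ^ r p.1)

theorem LB_ut {m : ℕ} (r : Fin m → ℝ) (hr : ∀ k, 0 < r k)
    (hind : ∀ (c0 : ℤ) (c : Fin m → ℤ), (c0 : ℝ) + ∑ k, (c k : ℝ) * r k = 0 → c0 = 0 ∧ c = 0) (L : ℕ) :
    ∃ h : ℝ → ℝ, LB (ut r L) h := by
  classical
  have hinj : Function.Injective r := by
    intro k k' hkk
    by_contra hne
    obtain ⟨-, h2⟩ := hind 0 (Pi.single k 1 - Pi.single k' 1) (by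
      have h1 : ∀ a : Fin m, ∑ k, ((Pi.single a 1 : Fin m → ℤ) k : ℝ) * r k = r a := by
        intro a
        rw [Finset.sum_eq_single a]
        · simp
        · intro l _ hl
          simp [hl]
        · intro h
          exact absurd (Finset.mem_univ a) h
      simp only [Pi.sub_apply, Int.cast_sub, sub_mul, Finset.sum_sub_distrib, h1]
      simp [hkk])
    have h3 := congrFun h2 k
    simp [hne] at h3
  have hEpos : ∀ (l : ℕ) (r s : ℝ), 0 < Ee (l + 1) r s := by
    intro l r s
    rw [Ee_succ]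
    exact Real.exp_pos _
  have hEcont : ∀ (l : ℕ) (r : ℝ), Continuous (Ee l r) := by
    intro l r
    unfold Ee
    exact (Real.continuous_exp.iterate l).comp (continuous_const.mul continuous_id)
  have hEnn : ∀ (l : ℕ) (k : Fin m) (s : ℝ), 0 ≤ s → 0 ≤ Ee l (r k) s := by
    intro l k s hs
    exact (mul_nonneg (hr k).le hs).trans (Ee_ge l (r k) s)
  have hLB : LB (us' r L) (fun s => s + ∑ p : Fin m × Fin (L + 1), Ee p.2 (r p.1) s) := by
    refine LB_of_growth (us' r L) _ ?_ ?_ (us_H r hr hinj hind L) ?_ ?_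
    · intro i
      refine Eventually.of_forall fun s => ?_
      rcases i with _ | p
      · exact Real.exp_pos _
      · exact hEpos _ _ _
    · intro i
      refine ⟨0, ?_⟩
      rcases i with _ | p
      · exact Real.continuous_exp.continuousOn
      · exact (hEcont _ _).continuousOn
    · filter_upwards [eventually_gt_atTop (0 : ℝ)] with s hs
      have h1 := Real.log_le_sub_one_of_pos hs
      have h2 : 0 ≤ ∑ p : Fin m × Fin (L + 1), Ee p.2 (r p.1) s :=
        Finset.sum_nonneg fun p _ => hEnn _ _ _ hs.le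
      linarith
    · intro i
      refine ⟨1, ?_⟩
      filter_upwards [eventually_gt_atTop (0 : ℝ)] with s hs
      have h2 : 0 ≤ ∑ p : Fin m × Fin (L + 1), Ee p.2 (r p.1) s :=
        Finset.sum_nonneg fun p _ => hEnn _ _ _ hs.le
      rcases i with _ | p
      · simp only [us']
        rw [Real.log_exp, abs_of_pos hs]
        linarith
      · simp only [us']
        rw [Ee_succ, Real.log_exp, abs_of_nonneg (hEnn _ _ _ hs.le)]
        have h3 : Ee p.2 (r p.1) s ≤ ∑ p : Fin m × Fin (L + 1), Ee p.2 (r p.1) s :=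
          Finset.single_le_sum (f := fun p : Fin m × Fin (L + 1) => Ee p.2 (r p.1) s)
            (fun p _ => hEnn _ _ _ hs.le) (Finset.mem_univ p)
        linarith
  refine ⟨fun t => Real.log t + ∑ p : Fin m × Fin (L + 1), Ee p.2 (r p.1) (Real.log t), ?_⟩
  intro P hP
  have hsw : sw _ P ≠ 0 := by
    intro h0
    apply hP
    rw [← sw_sw P, h0, map_zero]
  obtain ⟨C, hC⟩ := hLB _ hsw
  refine ⟨C, ?_⟩
  filter_upwards [Real.tendsto_log_atTop.eventually hC, eventually_gt_atTop (0 : ℝ)] with t h1 h2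
  refine h1.trans (le_of_eq ?_)
  congr 1
  have h3 : us' r L = fun i s => i.elim (Real.exp s) fun p => Real.exp^[p.2] ((Real.exp s) ^ r p.1) := by
    funext i s
    rcases i with _ | p
    · rfl
    · simp only [us', Option.elim_some]
      unfold Ee
      rw [Function.iterate_succ_apply, ← Real.exp_mul, mul_comm]
  rw [h3]
  have h4 := ev_sw (fun (p : Fin m × Fin (L + 1)) (t : ℝ) => Real.exp^[p.2] (t ^ r p.1)) P (Real.log t)
  rw [h4, Real.exp_log h2]
  rfl

theorem ut_an {m : ℕ} (r : Fin m → ℝ) (L : ℕ) (a0 : ℝ) (ha0 : 0 < a0) (i : Option (Fin m × Fin (L + 1))) :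
    AnalyticOnNhd ℝ (ut r L i) (Ici a0) := by
  intro t ht
  have ht0 : 0 < t := ha0.trans_le ht
  rcases i with _ | ⟨k, l⟩
  · exact analyticAt_log ht0
  · have h1 : ∀ l : ℕ, AnalyticAt ℝ (fun t : ℝ => Real.exp^[l] (t ^ r k)) t := by
      intro l
      induction l with
      | zero =>
        simp only [Function.iterate_zero, id]
        have h3 : AnalyticAt ℝ (fun s : ℝ => Real.exp (Real.log s * r k)) t :=
          ((analyticAt_log ht0).mul analyticAt_const).rexp
        refine h3.congr ?_
        filter_upwards [eventually_gt_nhds ht0] with s hs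
        rw [Real.rpow_def_of_pos hs]
      | succ l ih =>
        have h2 : (fun t : ℝ => Real.exp^[l + 1] (t ^ r k)) = fun t => Real.exp (Real.exp^[l] (t ^ r k)) := by
          funext t
          rw [Function.iterate_succ_apply']
        rw [h2]
        exact ih.rexp
    exact h1 l

end Pool.Agent.TH21.MS
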