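import Pool.Agent.TH21.MS.Schan

/-!
# Logarithms, powers and iterated exponentials at rational numbers
-/

set_option autoImplicit false

open Set Filter Topology

namespace Pool.Agent.TH21.MS

/-- the numbers `π`, `log x_j`, `E_l (x_j ^ r_k)` -/
noncomputable def numS {m n : ℕ} (r : Fin m → ℝ) (L : ℕ) (x : Fin n → ℚ)
    (i : Option (Fin n × Option (Fin m × Fin (L + 1)))) : ℝ :=
  i.elim Real.pi fun q => ut r L q.2 (x q.1)

/-- the exceptional tuples -/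
def ExcS {m : ℕ} (n d : ℕ) (r : Fin m → ℝ) (L : ℕ) (a b A B T : ℝ) : Set (Fin n → ℚ) :=
  {x | (∀ j, (x j : ℝ) ∈ Icc a b ∧ ((x j).den : ℝ) ≤ T) ∧
    ∃ P : MvPolynomial (Option (Fin n × Option (Fin m × Fin (L + 1)))) ℤ, P ≠ 0 ∧ (∀ i, P.degreeOf i ≤ d) ∧
      (∀ v, |((P.coeff v : ℤ) : ℝ)| ≤ T ^ A) ∧ |MvPolynomial.aeval (numS r L x) P| ≤ T ^ (-B)}

theorem ExcS_eq {m : ℕ} (n d : ℕ) (r : Fin m → ℝ) (L : ℕ) (a b A B T : ℝ) :
    ExcS n d r L a b A B T = ExcI n d (ut r L) (fun _ => 0) a b A B T := by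
  ext x
  simp only [ExcS, ExcI, Set.mem_ofPred_eq]
  refine and_congr_right fun _ => exists_congr fun P => and_congr_right fun _ => and_congr_right fun _ =>
    and_congr_right fun _ => ?_
  have h1 : numI (ut r L) (fun _ => 0) x = (algebraMap ℝ ℂ) ∘ numS r L x := by
    funext i
    rcases i with _ | q
    · rfl
    · simp [numI, numS]
  rw [h1, MvPolynomial.aeval_algebraMap_apply, Complex.coe_algebraMap, Complex.norm_real, Real.norm_eq_abs]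

theorem schanmain {m : ℕ} (r : Fin m → ℝ) (hr : ∀ k, 0 < r k)
    (hind : ∀ (c0 : ℤ) (c : Fin m → ℤ), (c0 : ℝ) + ∑ k, (c k : ℝ) * r k = 0 → c0 = 0 ∧ c = 0) (L n d : ℕ)
    (hn : 1 ≤ n) (A a b : ℝ) (hA : 0 ≤ A) (ha : 0 < a) (hab : a < b) (β : ℝ)
    (hβ : 2 - 2 / (((d : ℝ) + 1) ^ ((m * (L + 1) + 1) * n + 1) + 1) < β) :
    ∃ B C : ℝ, ∀ T : ℝ, 1 ≤ T → (ExcS n d r L a b A B T).Finite ∧
      ((ExcS n d r L a b A B T).ncard : ℝ) ≤ C * T ^ (2 * ((n : ℝ) - 1) + β) := by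
  obtain ⟨h, hLB⟩ := LB_ut r hr hind L
  have hc : Fintype.card (Option (Fin m × Fin (L + 1))) = m * (L + 1) + 1 := by
    simp
  obtain ⟨B, C, hBC⟩ := count2 (ut r L) (fun _ => 0) h a (ut_an r L a ha) hLB n d hn A a b hA le_rfl hab β
    (by rw [hc]; exact hβ)
  refine ⟨B, C, fun T hT => ?_⟩
  rw [ExcS_eq]
  exact hBC T hT

end Pool.Agent.TH21.MS
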