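import Pool.Agent.TH21.MS.Rel

/-!
# Adjoining functions of `exp (- 2 π f)` for a function `f` of larger growth
-/

set_option autoImplicit false

open Set Filter Topology Polynomial

namespace Pool.Agent.TH21.MS

open Pool.Agent.TH818.AR

/-- `exp (- 2 π y)` -/
noncomputable def xp (y : ℝ) : ℝ := Real.exp (-(2 * Real.pi * y))

theorem ev_ub {κ : Type} (u : κ → ℝ → ℝ) (h : ℝ → ℝ) (hh : ∀ᶠ t in atTop, Real.log t ≤ h t)
    (hu : ∀ k, ∃ C : ℝ, 0 ≤ C ∧ ∀ᶠ t in atTop, |u k t| ≤ Real.exp (C * h t)) (P : MvPolynomial κ ℝ[X]) :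
    ∃ C : ℝ, 0 ≤ C ∧ ∀ᶠ t in atTop, |ev u P t| ≤ Real.exp (C * h t) := by
  have h1 : ∀ᶠ t in atTop, 1 ≤ h t := by
    filter_upwards [hh, Real.tendsto_log_atTop.eventually_ge_atTop 1] with t h2 h3
    linarith
  induction P using MvPolynomial.induction_on with
  | C p =>
    by_cases hp : p = 0
    · refine ⟨0, le_rfl, Eventually.of_forall fun t => ?_⟩
      simp [hp, ev]
    · obtain ⟨K, hK⟩ := poly_log p hp
      refine ⟨|K|, abs_nonneg K, ?_⟩
      filter_upwards [hK, hh, h1, Real.tendsto_log_atTop.eventually_ge_atTop 1] with t h2 h3 h4 h5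
      have h6 : ev u (MvPolynomial.C p) t = p.eval t := by simp [ev]
      rw [h6, ← Real.exp_log (abs_pos.2 h2.1)]
      apply Real.exp_le_exp.2
      have h7 := (abs_le.1 h2.2).2
      have h8 := le_abs_self K
      have h9 := abs_nonneg K
      nlinarith
  | add p q hp hq =>
    obtain ⟨C1, hC1, h2⟩ := hp
    obtain ⟨C2, hC2, h3⟩ := hq
    refine ⟨C1 + C2 + 1, by positivity, ?_⟩
    filter_upwards [h2, h3, h1] with t h4 h5 h6
    have h7 : ev u (p + q) t = ev u p t + ev u q t := by simp [ev]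
    rw [h7]
    have h8 : Real.exp (C1 * h t) ≤ Real.exp ((C1 + C2) * h t) := by
      apply Real.exp_le_exp.2; nlinarith
    have h9 : Real.exp (C2 * h t) ≤ Real.exp ((C1 + C2) * h t) := by
      apply Real.exp_le_exp.2; nlinarith
    have h10 : Real.exp ((C1 + C2 + 1) * h t) = Real.exp ((C1 + C2) * h t) * Real.exp (h t) := by
      rw [← Real.exp_add]; ring_nf
    have h11 : 2 ≤ Real.exp (h t) := by
      have := Real.add_one_le_exp (h t)
      linarith
    have h12 := Real.exp_pos ((C1 + C2) * h t)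
    rw [h10]
    calc |ev u p t + ev u q t| ≤ |ev u p t| + |ev u q t| := abs_add_le _ _
      _ ≤ Real.exp ((C1 + C2) * h t) + Real.exp ((C1 + C2) * h t) := by linarith
      _ ≤ Real.exp ((C1 + C2) * h t) * Real.exp (h t) := by nlinarith
  | mul_X p k hp =>
    obtain ⟨C1, hC1, h2⟩ := hp
    obtain ⟨C2, hC2, h3⟩ := hu k
    refine ⟨C1 + C2, by positivity, ?_⟩
    filter_upwards [h2, h3] with t h4 h5
    have h7 : ev u (p * MvPolynomial.X k) t = ev u p t * u k t := by simp [ev]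
    rw [h7, abs_mul, add_mul, Real.exp_add]
    exact mul_le_mul h4 h5 (abs_nonneg _) (Real.exp_pos _).le

theorem ev_sumElim {κ : Type} {r : ℕ} (x : Fin r → ℝ → ℝ) (u : κ → ℝ → ℝ)
    (P : MvPolynomial (Fin r ⊕ κ) ℝ[X]) (t : ℝ) :
    ev (Sum.elim x u) P t = MvPolynomial.eval₂ (MvPolynomial.eval₂Hom (Polynomial.evalRingHom t)
      (fun k => u k t)) (fun i => x i t) (MvPolynomial.sumAlgEquiv ℝ[X] (Fin r) κ P) := by
  induction P using MvPolynomial.induction_on with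
  | C p => simp [ev]
  | add p q hp hq =>
    have h7 : ev (Sum.elim x u) (p + q) t = ev (Sum.elim x u) p t + ev (Sum.elim x u) q t := by simp [ev]
    rw [h7, hp, hq, map_add, MvPolynomial.eval₂_add]
  | mul_X p k hp =>
    have h7 : ev (Sum.elim x u) (p * MvPolynomial.X k) t = ev (Sum.elim x u) p t * (Sum.elim x u) k t := by
      simp [ev]
    rw [h7, hp, map_mul, MvPolynomial.eval₂_mul]
    congr 1
    cases k with
    | inl i => simp
    | inr i => simp

theorem xp_tendsto (f : ℝ → ℝ) (hf : Tendsto f atTop atTop) :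
    Tendsto (fun t => xp (f t)) atTop (𝓝 0) := by
  unfold xp
  refine Real.tendsto_exp_atBot.comp ?_
  refine tendsto_neg_atTop_atBot.comp ?_
  exact Tendsto.const_mul_atTop (by positivity) hf


/-- the monomials in the `Gf i x / x`, multiplied by `x ^ D` -/
noncomputable def psi {r : ℕ} (Gf : Fin r → ℝ → ℝ) (D : ℕ) (e : Fin r →₀ ℕ) (x : ℝ) : ℝ :=
  x ^ (D - ∑ i, e i) * ∏ i, Gf i x ^ e i

theorem psi_eq {r : ℕ} (Gf : Fin r → ℝ → ℝ) (D : ℕ) (e : Fin r →₀ ℕ) (he : ∑ i, e i ≤ D) (x : ℝ)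
    (hx : x ≠ 0) : ∏ i, (Gf i x / x) ^ e i = psi Gf D e x / x ^ D := by
  simp only [psi, div_pow, Finset.prod_div_distrib]
  rw [Finset.prod_pow_eq_pow_sum, div_eq_div_iff (pow_ne_zero _ hx) (pow_ne_zero _ hx)]
  have : x ^ D = x ^ (D - ∑ i, e i) * x ^ (∑ i, e i) := by
    rw [← pow_add, Nat.sub_add_cancel he]
  rw [this]
  ring

theorem psi_an {r : ℕ} (Gf : Fin r → ℝ → ℝ) (D : ℕ) (e : Fin r →₀ ℕ) (δ : ℝ)
    (hG : ∀ i, AnalyticOnNhd ℝ (Gf i) (Icc 0 δ)) : AnalyticOnNhd ℝ (psi Gf D e) (Icc 0 δ) := by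
  intro x hx
  refine AnalyticAt.mul (analyticAt_id.pow _) ?_
  exact Finset.analyticAt_fun_prod _ fun i _ => (hG i x hx).fun_pow _

theorem psi_good {r : ℕ} (Gf : Fin r → ℝ → ℝ) (D : ℕ) (δ : ℝ) (hδ : 0 < δ)
    (hG : ∀ i, AnalyticOnNhd ℝ (Gf i) (Icc 0 δ))
    (hind : ∀ P : MvPolynomial (Fin r) ℝ,
      (∀ x ∈ Ioc 0 δ, MvPolynomial.eval (fun i => Gf i x / x) P = 0) → P = 0)
    (N : ℕ) (E : Fin N → (Fin r →₀ ℕ)) (hE : Function.Injective E) (hD : ∀ l, ∑ i, E l i ≤ D) :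
    Good 0 δ (fun l => psi Gf D (E l)) := by
  refine ⟨hδ, fun l => psi_an Gf D _ δ hG, ?_⟩
  intro c hc
  have hQ : (∑ l, MvPolynomial.monomial (E l) (c l) : MvPolynomial (Fin r) ℝ) = 0 := by
    refine hind _ fun x hx => ?_
    have hx0 : x ≠ 0 := hx.1.ne'
    have h2 := hc x ⟨hx.1.le, hx.2⟩
    simp only [map_sum, MvPolynomial.eval_monomial]
    have h3 : ∀ l, c l * (E l).prod (fun i e => (Gf i x / x) ^ e) = c l * psi Gf D (E l) x / x ^ D := by
      intro l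
      rw [Finsupp.prod_fintype _ _ (by simp), psi_eq Gf D _ (hD l) x hx0]
      ring
    simp only [h3]
    rw [← Finset.sum_div]
    simp only [comb] at h2
    rw [h2, zero_div]
  funext l
  have h3 : (∑ l, MvPolynomial.monomial (E l) (c l) : MvPolynomial (Fin r) ℝ).coeff (E l) = c l := by
    simp only [MvPolynomial.coeff_sum, MvPolynomial.coeff_monomial]
    rw [Finset.sum_eq_single l]
    · simp
    · intro l' _ hl'
      rw [if_neg]
      intro he
      exact hl' (hE he)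
    · simp
  rw [← h3, hQ]
  simp

theorem step_ev {κ : Type} (u : κ → ℝ → ℝ) {r : ℕ} (Gf : Fin r → ℝ → ℝ) (D : ℕ)
    (P' : MvPolynomial (Fin r) (MvPolynomial κ ℝ[X])) (hD : ∀ e ∈ P'.support, ∑ i, e i ≤ D)
    (N : ℕ) (eqv : Fin N ≃ P'.support) (x t : ℝ) (hx : x ≠ 0) :
    MvPolynomial.eval₂ (MvPolynomial.eval₂Hom (Polynomial.evalRingHom t) (fun k => u k t))
      (fun i => Gf i x / x) P' =
    comb (fun l => psi Gf D (eqv l)) (fun l => ev u (P'.coeff (eqv l)) t) x / x ^ D := by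
  rw [MvPolynomial.eval₂_eq']
  simp only [comb]
  rw [Finset.sum_div, ← Finset.sum_coe_sort P'.support, ← eqv.sum_comp]
  refine Finset.sum_congr rfl fun l _ => ?_
  rw [psi_eq Gf D _ (hD _ (eqv l).2) x hx, MvPolynomial.coe_eval₂Hom]
  simp only [ev]
  ring

/-- the numerical part -/
theorem numeric (s0 N0 : ℕ) (hs0 : s0 ≤ N0) (R : ℕ → ℝ) (hR : ∀ s, s < s0 → R s = 0) (y x U V B nv : ℝ)
    (hx0 : 0 < x) (hx1 : x ≤ 1) (hB : 0 ≤ B) (hU : 0 ≤ U) (hRU : ∀ s ∈ Finset.range (N0 + 1), |R s| ≤ U)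
    (hnv : nv ≤ U) (hV : V ≤ |R s0|)
    (htay : |y - ∑ j ∈ Finset.range (N0 + 1), R j / (j.factorial : ℝ) * x ^ j| ≤ B * nv * x ^ (N0 + 1))
    (hsmall : x * U * ((N0 + 1 : ℝ) + B) ≤ V / (2 * s0.factorial)) :
    x ^ s0 * (V / (2 * s0.factorial)) ≤ |y| := by
  have hfac : (0 : ℝ) < (s0.factorial : ℝ) := by exact_mod_cast s0.factorial_pos
  have h3 : ∑ j ∈ Finset.range (N0 + 1), R j / (j.factorial : ℝ) * x ^ j =
      R s0 / (s0.factorial : ℝ) * x ^ s0 +
      ∑ j ∈ (Finset.range (N0 + 1)).erase s0, R j / (j.factorial : ℝ) * x ^ j := by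
    rw [← Finset.add_sum_erase _ _ (Finset.mem_range.2 (Nat.lt_succ_of_le hs0))]
  have h4 : |∑ j ∈ (Finset.range (N0 + 1)).erase s0, R j / (j.factorial : ℝ) * x ^ j| ≤
      (N0 + 1 : ℝ) * (U * x ^ (s0 + 1)) := by
    refine (Finset.abs_sum_le_sum_abs _ _).trans ?_
    have h5 : ∀ j ∈ (Finset.range (N0 + 1)).erase s0, |R j / (j.factorial : ℝ) * x ^ j| ≤
        U * x ^ (s0 + 1) := by
      intro j hj
      obtain ⟨hj1, hj2⟩ := Finset.mem_erase.1 hj
      rcases lt_or_gt_of_ne hj1 with hlt | hgt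
      · rw [hR j hlt]
        simp only [zero_div, zero_mul, abs_zero]
        positivity
      · rw [abs_mul, abs_div, abs_of_pos (pow_pos hx0 j)]
        have h6 : (1 : ℝ) ≤ |(j.factorial : ℝ)| := by
          rw [abs_of_pos (by exact_mod_cast j.factorial_pos)]
          exact_mod_cast Nat.one_le_iff_ne_zero.2 j.factorial_ne_zero
        have h7 : |R j| / |(j.factorial : ℝ)| ≤ U :=
          (div_le_self (abs_nonneg _) h6).trans (hRU j hj2)
        have h8 : x ^ j ≤ x ^ (s0 + 1) := pow_le_pow_of_le_one hx0.le hx1 hgt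
        exact mul_le_mul h7 h8 (pow_pos hx0 j).le hU
    refine (Finset.sum_le_card_nsmul _ _ _ h5).trans ?_
    rw [nsmul_eq_mul]
    refine mul_le_mul_of_nonneg_right ?_ (by positivity)
    have := Finset.card_erase_le (s := Finset.range (N0 + 1)) (a := s0)
    rw [Finset.card_range] at this
    exact_mod_cast this
  have h5 : B * nv * x ^ (N0 + 1) ≤ B * (U * x ^ (s0 + 1)) := by
    have e1 : x ^ (N0 + 1) ≤ x ^ (s0 + 1) := pow_le_pow_of_le_one hx0.le hx1 (by omega)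
    have e2 : nv * x ^ (N0 + 1) ≤ U * x ^ (N0 + 1) := mul_le_mul_of_nonneg_right hnv (pow_pos hx0 _).le
    have e3 : U * x ^ (N0 + 1) ≤ U * x ^ (s0 + 1) := mul_le_mul_of_nonneg_left e1 hU
    rw [mul_assoc]
    exact mul_le_mul_of_nonneg_left (e2.trans e3) hB
  have h6 : V / s0.factorial * x ^ s0 ≤ |R s0 / (s0.factorial : ℝ) * x ^ s0| := by
    rw [abs_mul, abs_div, abs_of_pos (pow_pos hx0 s0), abs_of_pos hfac]
    exact mul_le_mul_of_nonneg_right (div_le_div_of_nonneg_right hV hfac.le) (pow_pos hx0 s0).le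
  have h7 : x ^ (s0 + 1) * U * ((N0 + 1 : ℝ) + B) ≤ x ^ s0 * (V / (2 * s0.factorial)) := by
    rw [pow_succ]
    calc x ^ s0 * x * U * ((N0 + 1 : ℝ) + B) = x ^ s0 * (x * U * ((N0 + 1 : ℝ) + B)) := by ring
      _ ≤ _ := mul_le_mul_of_nonneg_left hsmall (pow_pos hx0 s0).le
  rw [h3] at htay
  generalize R s0 / (s0.factorial : ℝ) * x ^ s0 = a1 at *
  generalize ∑ j ∈ (Finset.range (N0 + 1)).erase s0, R j / (j.factorial : ℝ) * x ^ j = a2 at *
  have h8 : |a1| ≤ |y| + |y - (a1 + a2)| + |a2| := by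
    have e1 : a1 = y - (y - (a1 + a2)) - a2 := by ring
    have e2 : |y - (y - (a1 + a2)) - a2| ≤ |y - (y - (a1 + a2))| + |a2| := abs_sub _ _
    have e3 : |y - (y - (a1 + a2))| ≤ |y| + |y - (a1 + a2)| := abs_sub _ _
    rw [← e1] at e2
    linarith
  have h9 : x ^ s0 * (V / (2 * s0.factorial)) * 2 = V / s0.factorial * x ^ s0 := by field_simp
  have h10 : x ^ (s0 + 1) * U * ((N0 + 1 : ℝ) + B) = (N0 + 1 : ℝ) * (U * x ^ (s0 + 1)) +
      B * (U * x ^ (s0 + 1)) := by ring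
  linarith

end Pool.Agent.TH21.MS
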