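import Pool.Agent.TH21.MS.StepA

/-!
# Adjoining functions of `exp (- 2 π f)` for a function `f` of larger growth
-/

set_option autoImplicit false

open Set Filter Topology Polynomial

namespace Pool.Agent.TH21.MS

open Pool.Agent.TH818.AR

/-- the Taylor coefficients as polynomials -/
noncomputable def RR {κ : Type} {N : ℕ} (w : Fin N → ℝ → ℝ) (Q : Fin N → MvPolynomial κ ℝ[X]) (s : ℕ) :
    MvPolynomial κ ℝ[X] := ∑ l, MvPolynomial.C (C (iteratedDeriv s (w l) 0)) * Q l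

theorem ev_RR {κ : Type} (u : κ → ℝ → ℝ) {N : ℕ} (w : Fin N → ℝ → ℝ) (Q : Fin N → MvPolynomial κ ℝ[X])
    (δ : ℝ) (hgood : Good 0 δ w) (s : ℕ) (t : ℝ) :
    ev u (RR w Q s) t = iteratedDeriv s (comb w (fun l => ev u (Q l) t)) 0 := by
  rw [OrdX.itd hgood (fun l => ev u (Q l) t) s ⟨le_rfl, hgood.hab.le⟩]
  simp only [RR, ev, MvPolynomial.eval₂_sum, MvPolynomial.eval₂_mul, MvPolynomial.eval₂_C,
    coe_evalRingHom, eval_C]
  exact Finset.sum_congr rfl fun l _ => mul_comm _ _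

theorem ev_zero {κ : Type} (u : κ → ℝ → ℝ) (t : ℝ) : ev u (0 : MvPolynomial κ ℝ[X]) t = 0 := by
  simp [ev]

theorem exists_RR {κ : Type} (u : κ → ℝ → ℝ) (h : ℝ → ℝ) (hLB : LB u h) {N : ℕ} (hN : 0 < N)
    (w : Fin N → ℝ → ℝ) (Q : Fin N → MvPolynomial κ ℝ[X]) (hQ : ∀ l, Q l ≠ 0) (δ : ℝ) (hgood : Good 0 δ w)
    (N0 : ℕ) (δ1 : ℝ) (hδ1 : 0 < δ1)
    (hord : ∀ (x : Fin N → ℝ) (t : ℝ), t ∈ Icc 0 δ → ∃ s, s ≤ N0 ∧ δ1 * ‖x‖ ≤ |iteratedDeriv s (comb w x) t|) :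
    ∃ s0, s0 ≤ N0 ∧ RR w Q s0 ≠ 0 ∧ ∀ s, s < s0 → RR w Q s = 0 := by
  classical
  have hex : ∃ s, s ≤ N0 ∧ RR w Q s ≠ 0 := by
    by_contra hcon
    push Not at hcon
    have hvec : ∀ t, (fun l => ev u (Q l) t) = 0 := by
      intro t
      obtain ⟨s, hs, hle⟩ := hord (fun l => ev u (Q l) t) 0 ⟨le_rfl, hgood.hab.le⟩
      rw [← ev_RR u w Q δ hgood, hcon s hs, ev_zero, abs_zero] at hle
      have h3 : ‖(fun l => ev u (Q l) t)‖ ≤ 0 := by
        by_contra h4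
        push Not at h4
        have := mul_pos hδ1 h4
        linarith
      exact norm_le_zero_iff.1 h3
    obtain ⟨C, hC⟩ := hLB (Q ⟨0, hN⟩) (hQ _)
    obtain ⟨t, ht⟩ := hC.exists
    have h5 : ev u (Q ⟨0, hN⟩) t = 0 := congrFun (hvec t) ⟨0, hN⟩
    rw [h5, abs_zero] at ht
    exact absurd ht (not_le.2 (Real.exp_pos _))
  refine ⟨Nat.find hex, (Nat.find_spec hex).1, (Nat.find_spec hex).2, ?_⟩
  intro s hs
  by_contra hne
  exact Nat.find_min hex hs ⟨hs.le.trans (Nat.find_spec hex).1, hne⟩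

theorem common_ub {ι : Type} [Fintype ι] (g : ι → ℝ → ℝ) (h : ℝ → ℝ) (h1 : ∀ᶠ t in atTop, 1 ≤ h t)
    (hg : ∀ i, ∃ C : ℝ, 0 ≤ C ∧ ∀ᶠ t in atTop, |g i t| ≤ Real.exp (C * h t)) :
    ∃ C : ℝ, 0 ≤ C ∧ ∀ᶠ t in atTop, ∀ i, |g i t| ≤ Real.exp (C * h t) := by
  choose C hC0 hC using hg
  refine ⟨∑ i, C i, Finset.sum_nonneg fun i _ => hC0 i, ?_⟩
  refine eventually_all.2 fun i => ?_
  filter_upwards [hC i, h1] with t h2 h3
  refine h2.trans (Real.exp_le_exp.2 ?_)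
  have : C i ≤ ∑ i, C i := Finset.single_le_sum (f := fun i => C i) (fun i _ => hC0 i) (Finset.mem_univ i)
  nlinarith

theorem small_ev (h f : ℝ → ℝ) (h1 : ∀ᶠ t in atTop, 1 ≤ h t) (hft : Tendsto f atTop atTop)
    (hf : Tendsto (fun t => f t / h t) atTop atTop) (C4 C1 K F : ℝ) (hK : 0 < K) (hF : 0 < F) :
    ∀ᶠ t in atTop, xp (f t) * Real.exp (C4 * h t) * K ≤ Real.exp (-C1 * h t) / (2 * F) := by
  have h2 : ∀ᶠ t in atTop, C4 + C1 + |Real.log (2 * F * K)| ≤ f t / h t :=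
    hf.eventually_ge_atTop _
  filter_upwards [h2, h1, hft.eventually_ge_atTop 0] with t h3 h4 h5
  have h6 : (C4 + C1 + |Real.log (2 * F * K)|) * h t ≤ f t := by
    rwa [le_div_iff₀ (by linarith)] at h3
  rw [le_div_iff₀ (by positivity)]
  have h7 : xp (f t) * Real.exp (C4 * h t) * K * (2 * F) =
      Real.exp (-(2 * Real.pi * f t) + C4 * h t + Real.log (2 * F * K)) := by
    rw [Real.exp_add, Real.exp_add, Real.exp_log (by positivity)]
    unfold xp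
    ring
  rw [h7]
  apply Real.exp_le_exp.2
  have h8 := le_abs_self (Real.log (2 * F * K))
  have h9 : |Real.log (2 * F * K)| ≤ |Real.log (2 * F * K)| * h t := le_mul_of_one_le_right (abs_nonneg _) h4
  have h10 : f t ≤ 2 * Real.pi * f t := by
    have := Real.pi_gt_three
    have h11 : 0 ≤ (2 * Real.pi - 1) * f t := mul_nonneg (by linarith) h5
    linarith
  linarith

theorem LB_core {κ : Type} (u : κ → ℝ → ℝ) (h f : ℝ → ℝ) (hLB : LB u h)
    (hh : ∀ᶠ t in atTop, Real.log t ≤ h t)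
    (hu : ∀ k, ∃ C : ℝ, 0 ≤ C ∧ ∀ᶠ t in atTop, |u k t| ≤ Real.exp (C * h t))
    (h1 : ∀ᶠ t in atTop, 1 ≤ h t) (hft : Tendsto f atTop atTop)
    (hf : Tendsto (fun t => f t / h t) atTop atTop) (δ : ℝ) (hδ1 : δ < 1) {N : ℕ} (hN : 0 < N)
    (w : Fin N → ℝ → ℝ) (hgood : Good 0 δ w) (Q : Fin N → MvPolynomial κ ℝ[X]) (hQ : ∀ l, Q l ≠ 0) :
    ∃ C : ℝ, ∀ᶠ t in atTop, Real.exp (-C * f t) ≤ |comb w (fun l => ev u (Q l) t) (xp (f t))| := by
  obtain ⟨N0, δ1, hδ1', hord⟩ := ord 0 δ _ w hgood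
  obtain ⟨B, hB, htay⟩ := taylor 0 δ _ w hgood N0
  obtain ⟨s0, hs0N, hs0R, hs0lt⟩ := exists_RR u h hLB hN w Q hQ δ hgood N0 δ1 hδ1' hord
  obtain ⟨C1, hC1⟩ := hLB (RR w Q s0) hs0R
  obtain ⟨CR, hCR0, hCR⟩ := common_ub (ι := Fin (N0 + 1)) (fun s t => ev u (RR w Q s) t) h h1
    (fun s => ev_ub u h hh hu (RR w Q s))
  obtain ⟨CV, hCV0, hCV⟩ := common_ub (ι := Fin N) (fun l t => ev u (Q l) t) h h1
    (fun l => ev_ub u h hh hu (Q l))
  have hxδ : ∀ᶠ t in atTop, xp (f t) < δ := (xp_tendsto f hft).eventually_lt_const hgood.hab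
  have hfac : (0 : ℝ) < (s0.factorial : ℝ) := by exact_mod_cast s0.factorial_pos
  have hsmall := small_ev h f h1 hft hf (CR + CV) C1 ((N0 + 1 : ℝ) + B) s0.factorial (by positivity) hfac
  have hfh : ∀ᶠ t in atTop, h t ≤ f t := by
    filter_upwards [hf.eventually_ge_atTop 1, h1] with t h2 h3
    rwa [le_div_iff₀ (by linarith), one_mul] at h2
  refine ⟨2 * Real.pi * s0 + |C1| + 1, ?_⟩
  filter_upwards [hC1, hCR, hCV, hxδ, hsmall, hfh, h1, hft.eventually_ge_atTop (Real.log (2 * s0.factorial))]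
    with t g1 g2 g3 g4 g5 g6 g7 g8
  have hx0 : 0 < xp (f t) := Real.exp_pos _
  have hx1 : xp (f t) ≤ 1 := (g4.trans hδ1).le
  have hUR : ∀ s ∈ Finset.range (N0 + 1), |ev u (RR w Q s) t| ≤ Real.exp ((CR + CV) * h t) := by
    intro s hs
    refine (g2 ⟨s, Finset.mem_range.1 hs⟩).trans (Real.exp_le_exp.2 ?_)
    have : 0 ≤ CV * h t := mul_nonneg hCV0 (by linarith)
    linarith
  have hUV : ‖(fun l => ev u (Q l) t)‖ ≤ Real.exp ((CR + CV) * h t) := by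
    rw [pi_norm_le_iff_of_nonneg (Real.exp_pos _).le]
    intro l
    rw [Real.norm_eq_abs]
    refine (g3 l).trans (Real.exp_le_exp.2 ?_)
    have : 0 ≤ CR * h t := mul_nonneg hCR0 (by linarith)
    linarith
  have ht := htay (fun l => ev u (Q l) t) 0 (xp (f t)) ⟨le_rfl, hgood.hab.le⟩ ⟨hx0.le, g4.le⟩ N0 le_rfl
  rw [sub_zero, abs_of_pos hx0] at ht
  simp only [← ev_RR u w Q δ hgood] at ht
  have hnum := numeric s0 N0 hs0N (fun s => ev u (RR w Q s) t)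
    (fun s hs => by simp only [hs0lt s hs, ev_zero]) _ (xp (f t)) (Real.exp ((CR + CV) * h t))
    (Real.exp (-C1 * h t)) B ‖(fun l => ev u (Q l) t)‖ hx0 hx1 hB.le (Real.exp_pos _).le hUR hUV g1 ht g5
  refine le_trans ?_ hnum
  have h2 : xp (f t) ^ s0 * (Real.exp (-C1 * h t) / (2 * s0.factorial)) =
      Real.exp (-(2 * Real.pi * f t) * s0 + -C1 * h t - Real.log (2 * s0.factorial)) := by
    rw [Real.exp_sub, Real.exp_add, Real.exp_log (by positivity)]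
    unfold xp
    rw [← Real.exp_nat_mul, mul_div_assoc]
    ring_nf
  rw [h2]
  apply Real.exp_le_exp.2
  have h3 : C1 * h t ≤ |C1| * f t := by
    have e1 : C1 * h t ≤ |C1| * h t := mul_le_mul_of_nonneg_right (le_abs_self C1) (by linarith)
    have e2 : |C1| * h t ≤ |C1| * f t := mul_le_mul_of_nonneg_left g6 (abs_nonneg _)
    linarith
  have h4 : -(2 * Real.pi * s0 + |C1| + 1) * f t = -(2 * Real.pi * f t) * s0 - |C1| * f t - f t := by ring
  rw [h4]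
  linarith

/-- adjoining functions of `exp (- 2 π f)` -/
theorem LB_step {κ : Type} (u : κ → ℝ → ℝ) (h f : ℝ → ℝ) (hLB : LB u h)
    (hh : ∀ᶠ t in atTop, Real.log t ≤ h t)
    (hu : ∀ k, ∃ C : ℝ, 0 ≤ C ∧ ∀ᶠ t in atTop, |u k t| ≤ Real.exp (C * h t))
    (hf : Tendsto (fun t => f t / h t) atTop atTop) {r : ℕ} (Gf : Fin r → ℝ → ℝ) (δ : ℝ) (hδ : 0 < δ)
    (hδ1 : δ < 1) (hG : ∀ i, AnalyticOnNhd ℝ (Gf i) (Icc 0 δ))
    (hind : ∀ P : MvPolynomial (Fin r) ℝ,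
      (∀ x ∈ Ioc 0 δ, MvPolynomial.eval (fun i => Gf i x / x) P = 0) → P = 0) :
    LB (Sum.elim (fun (i : Fin r) t => Gf i (xp (f t)) / xp (f t)) u) f := by
  classical
  intro P hP
  have h1 : ∀ᶠ t in atTop, 1 ≤ h t := by
    filter_upwards [hh, Real.tendsto_log_atTop.eventually_ge_atTop 1] with t h2 h3
    linarith
  have hft : Tendsto f atTop atTop := by
    refine tendsto_atTop_mono' _ ?_ hf
    filter_upwards [h1, hf.eventually_ge_atTop 0] with t h2 h3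
    have h4 : 0 ≤ f t := by
      have := mul_nonneg h3 (by linarith : (0 : ℝ) ≤ h t)
      rwa [div_mul_cancel₀ _ (by linarith)] at this
    exact div_le_self h4 h2
  obtain ⟨P', hP'⟩ : ∃ P', P' = MvPolynomial.sumAlgEquiv ℝ[X] (Fin r) κ P := ⟨_, rfl⟩
  have hP'0 : P' ≠ 0 := by
    rw [hP']
    intro h0
    exact hP ((MvPolynomial.sumAlgEquiv ℝ[X] (Fin r) κ).injective (by rw [h0, map_zero]))
  have hcard : 0 < P'.support.card := Finset.card_pos.2 (MvPolynomial.support_nonempty.2 hP'0)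
  obtain ⟨D, hD⟩ : ∃ D : ℕ, ∀ e ∈ P'.support, ∑ i, e i ≤ D :=
    ⟨P'.support.sup (fun e => ∑ i, e i), fun e he => Finset.le_sup (f := fun e : Fin r →₀ ℕ => ∑ i, e i) he⟩
  have hgood := psi_good Gf D δ hδ hG hind P'.support.card (fun l => (P'.support.equivFin.symm l : Fin r →₀ ℕ))
    (fun l l' he => P'.support.equivFin.symm.injective (Subtype.ext he))
    (fun l => hD _ (P'.support.equivFin.symm l).2)
  obtain ⟨C, hC⟩ := LB_core u h f hLB hh hu h1 hft hf δ hδ1 hcard _ hgood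
    (fun l => P'.coeff (P'.support.equivFin.symm l : Fin r →₀ ℕ))
    (fun l => MvPolynomial.mem_support_iff.1 (P'.support.equivFin.symm l).2)
  refine ⟨C, ?_⟩
  have hxδ : ∀ᶠ t in atTop, xp (f t) < δ := (xp_tendsto f hft).eventually_lt_const hδ
  filter_upwards [hC, hxδ] with t g1 g2
  have hx0 : 0 < xp (f t) := Real.exp_pos _
  have hx1 : xp (f t) ≤ 1 := (g2.trans hδ1).le
  rw [ev_sumElim, ← hP', step_ev u Gf D P' hD _ P'.support.equivFin.symm _ t hx0.ne', abs_div,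
    abs_of_pos (pow_pos hx0 D)]
  refine g1.trans ?_
  rw [le_div_iff₀ (pow_pos hx0 D)]
  exact mul_le_of_le_one_right (abs_nonneg _) (pow_le_one₀ hx0.le hx1)

end Pool.Agent.TH21.MS
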