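import Pool.Agent.TH21.MS.Rel

/-!
# Values of exponentials of functions of different growth at rational points
-/

set_option autoImplicit false

open Set Filter Topology

namespace Pool.Agent.TH21.MS

theorem H_chain {κ : Type} [Fintype κ] [LinearOrder κ] (F : κ → ℝ → ℝ)
    (hF : ∀ k l, k < l → Tendsto (fun t => F k t / F l t) atTop (𝓝 0))
    (hl : ∀ k, Tendsto (fun t => F k t / Real.log t) atTop atTop) (c : κ → ℤ) (hc : c ≠ 0) :
    Tendsto (fun t => |∑ k, (c k : ℝ) * F k t| / Real.log t) atTop atTop := by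
  have hne : (Finset.univ.filter (fun k => c k ≠ 0)).Nonempty := by
    obtain ⟨k, hk⟩ := Function.ne_iff.1 hc
    exact ⟨k, Finset.mem_filter.2 ⟨Finset.mem_univ k, hk⟩⟩
  set m := (Finset.univ.filter (fun k => c k ≠ 0)).max' hne with hm
  have hcm : c m ≠ 0 := (Finset.mem_filter.1 (Finset.max'_mem _ hne)).2
  have hpos : ∀ k, ∀ᶠ t in atTop, 0 < F k t := by
    intro k
    filter_upwards [(hl k).eventually_gt_atTop 0, eventually_gt_atTop (1 : ℝ)] with t h1 h2
    exact (div_pos_iff_of_pos_right (Real.log_pos h2)).1 h1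
  have hlim : Tendsto (fun t => (∑ k, (c k : ℝ) * F k t) / F m t) atTop (𝓝 (c m)) := by
    have h1 : Tendsto (fun t => ∑ k, (c k : ℝ) * (F k t / F m t)) atTop
        (𝓝 (∑ k, if k = m then (c m : ℝ) else 0)) := by
      refine tendsto_finsetSum _ fun k _ => ?_
      by_cases h : k = m
      · rw [if_pos h, h]
        refine tendsto_const_nhds.congr' ?_
        filter_upwards [hpos m] with t ht
        rw [div_self ht.ne', mul_one]
      · rw [if_neg h]
        by_cases h0 : c k = 0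
        · simp [h0]
        · have hlt : k < m := lt_of_le_of_ne
            (Finset.le_max' _ k (Finset.mem_filter.2 ⟨Finset.mem_univ k, h0⟩)) h
          have := (hF k m hlt).const_mul (c k : ℝ)
          rwa [mul_zero] at this
    rw [Finset.sum_ite_eq' Finset.univ m (fun _ => (c m : ℝ)), if_pos (Finset.mem_univ m)] at h1
    refine h1.congr fun t => ?_
    rw [Finset.sum_div]
    exact Finset.sum_congr rfl fun k _ => by ring
  have h2 := hlim.abs.pos_mul_atTop (abs_pos.2 (by exact_mod_cast hcm)) (hl m)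
  refine h2.congr' ?_
  filter_upwards [hpos m] with t ht
  rw [abs_div, abs_of_pos ht]
  field_simp

/-- The counting theorem for exponentials. -/
theorem expmain {κ : Type} [Fintype κ] [DecidableEq κ] (F : κ → ℝ → ℝ) (a0 : ℝ)
    (hf : ∀ k, AnalyticOnNhd ℝ (F k) (Ici a0))
    (hH : ∀ c : κ → ℤ, c ≠ 0 → Tendsto (fun t => |∑ k, (c k : ℝ) * F k t| / Real.log t) atTop atTop)
    (d : ℕ) (A a b : ℝ) (ha : a0 ≤ a) (hab : a < b) (β : ℝ)
    (hβ : 2 - 2 / (((d : ℝ) + 1) ^ Fintype.card κ + 1) < β) :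
    ∃ C : ℝ, 0 < C ∧ ∀ T : ℝ, 1 ≤ T →
      {q : ℚ | (q : ℝ) ∈ Icc a b ∧ (q.den : ℝ) ≤ T ∧
        Rel d (T ^ A) (fun k => ((Real.exp (F k q) : ℝ) : ℂ))}.Finite ∧
      ({q : ℚ | (q : ℝ) ∈ Icc a b ∧ (q.den : ℝ) ≤ T ∧
        Rel d (T ^ A) (fun k => ((Real.exp (F k q) : ℝ) : ℂ))}.ncard : ℝ) ≤ C * T ^ β := by
  have han : ∀ k, AnalyticOnNhd ℝ (fun t => Real.exp (F k t)) (Ici a0) :=
    fun k t ht => (hf k t ht).rexp
  have hLB : LB (fun k t => Real.exp (F k t)) (fun t => Real.log t + ∑ k, |F k t|) := by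
    refine LB_of_growth _ _ (fun k => Eventually.of_forall fun t => Real.exp_pos _)
      (fun k => ⟨a0, (han k).continuousOn⟩) ?_ ?_ ?_
    · intro c hc
      simpa only [Real.log_exp] using hH c hc
    · refine Eventually.of_forall fun t => ?_
      have : 0 ≤ ∑ k, |F k t| := Finset.sum_nonneg fun k _ => abs_nonneg _
      linarith
    · intro k
      refine ⟨1, ?_⟩
      filter_upwards [Real.tendsto_log_atTop.eventually_ge_atTop 1] with t h3
      have h4 : |F k t| ≤ ∑ k, |F k t| :=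
        Finset.single_le_sum (f := fun k => |F k t|) (fun k _ => abs_nonneg _) (Finset.mem_univ k)
      rw [Real.log_exp]
      linarith
  have hmain := count (fun k t => Real.exp (F k t)) (fun _ => 0) _ a0 han hLB d A a b ha hab β hβ
  have heq : ∀ q : ℚ, (fun k => Complex.I ^ 0 * ((Real.exp (F k q) : ℝ) : ℂ)) =
      fun k => ((Real.exp (F k q) : ℝ) : ℂ) := by
    intro q
    funext k
    rw [pow_zero, one_mul]
  simpa only [heq] using hmain

/-- real version of `Rel` -/
theorem Rel_ofReal {κ : Type} (d : ℕ) (H : ℝ) (x : κ → ℝ)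
    (h : ∃ P : MvPolynomial κ ℤ, P ≠ 0 ∧ (∀ k, P.degreeOf k ≤ d) ∧ (∀ e, |((P.coeff e : ℤ) : ℝ)| ≤ H) ∧
      MvPolynomial.aeval x P = 0) : Rel d H (fun k => ((x k : ℝ) : ℂ)) := by
  obtain ⟨P, h1, h2, h3, h4⟩ := h
  refine ⟨P, h1, h2, h3, ?_⟩
  have := MvPolynomial.aeval_algebraMap_apply ℂ x P
  rw [h4, map_zero] at this
  exact this

theorem chain_div (W : ℕ → ℝ → ℝ) (h0 : ∀ m, Tendsto (W m) atTop atTop)
    (h : ∀ m, ∀ᶠ t in atTop, Real.exp (W m t) ≤ W (m + 1) t) (k l : ℕ) (hkl : k < l) :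
    Tendsto (fun t => W k t / W l t) atTop (𝓝 0) := by
  have h1 : ∀ l, k < l → ∀ᶠ t in atTop, Real.exp (W k t) ≤ W l t := by
    intro l hl
    induction l with
    | zero => omega
    | succ l ih =>
      rcases Nat.lt_succ_iff_lt_or_eq.1 hl with hlt | rfl
      · filter_upwards [ih hlt, h l] with t h2 h3
        have := Real.add_one_le_exp (W l t)
        linarith
      · exact h k
  have h2 : Tendsto (fun x : ℝ => x * Real.exp (-x)) atTop (𝓝 0) := by
    simpa using Real.tendsto_pow_mul_exp_neg_atTop_nhds_zero 1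
  refine squeeze_zero' ?_ ?_ (h2.comp (h0 k))
  · filter_upwards [(h0 k).eventually_ge_atTop 0, (h0 l).eventually_ge_atTop 0] with t h3 h4
    exact div_nonneg h3 h4
  · filter_upwards [(h0 k).eventually_ge_atTop 0, h1 l hkl] with t h3 h4
    simp only [Function.comp]
    rw [Real.exp_neg, ← div_eq_mul_inv]
    exact div_le_div_of_nonneg_left h3 (Real.exp_pos _) h4

theorem W_tendsto (W : ℕ → ℝ → ℝ) (h0 : Tendsto (W 0) atTop atTop)
    (h : ∀ m, ∀ᶠ t in atTop, Real.exp (W m t) ≤ W (m + 1) t) (m : ℕ) : Tendsto (W m) atTop atTop := by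
  induction m with
  | zero => exact h0
  | succ m ih =>
    refine tendsto_atTop_mono' _ ?_ ih
    filter_upwards [h m] with t ht
    have := Real.add_one_le_exp (W m t)
    linarith

/-- iterated exponentials -/
theorem itermain (n : ℕ) (m : Fin n → ℕ) (hm : StrictMono m) (f : ℝ → ℝ) (a : ℝ)
    (hf : AnalyticOnNhd ℝ f (Ici a)) (hg : Tendsto (fun t => f t / Real.log t) atTop atTop)
    (d : ℕ) (A b : ℝ) (hab : a < b) (β : ℝ) (hβ : 2 - 2 / (((d : ℝ) + 1) ^ n + 1) < β) :
    ∃ C : ℝ, 0 < C ∧ ∀ T : ℝ, 1 ≤ T →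
      {q : ℚ | (q : ℝ) ∈ Icc a b ∧ (q.den : ℝ) ≤ T ∧
        Rel d (T ^ A) (fun k => ((Real.exp^[m k + 1] (f q) : ℝ) : ℂ))}.Finite ∧
      ({q : ℚ | (q : ℝ) ∈ Icc a b ∧ (q.den : ℝ) ≤ T ∧
        Rel d (T ^ A) (fun k => ((Real.exp^[m k + 1] (f q) : ℝ) : ℂ))}.ncard : ℝ) ≤ C * T ^ β := by
  set W : ℕ → ℝ → ℝ := fun m t => Real.exp^[m] (f t) with hW
  have hWs : ∀ m t, W (m + 1) t = Real.exp (W m t) := fun m t => by
    simp only [hW, Function.iterate_succ_apply']
  have hstep : ∀ m, ∀ᶠ t in atTop, Real.exp (W m t) ≤ W (m + 1) t := fun m =>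
    Eventually.of_forall fun t => (hWs m t).ge
  have hf0 : Tendsto (W 0) atTop atTop := by
    refine tendsto_atTop_mono' _ ?_ hg
    filter_upwards [hg.eventually_ge_atTop 0, Real.tendsto_log_atTop.eventually_ge_atTop 1] with t h1 h2
    simp only [hW, Function.iterate_zero, id]
    have h3 : 0 ≤ f t := by
      have := mul_nonneg h1 (by linarith : (0 : ℝ) ≤ Real.log t)
      rwa [div_mul_cancel₀ _ (by linarith)] at this
    exact div_le_self h3 h2
  have hWt := W_tendsto W hf0 hstep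
  have hWan : ∀ m, AnalyticOnNhd ℝ (W m) (Ici a) := by
    intro m
    induction m with
    | zero => simpa [hW] using hf
    | succ m ih =>
      intro t ht
      have : W (m + 1) = fun t => Real.exp (W m t) := funext (hWs m)
      rw [this]
      exact (ih t ht).rexp
  have hWl : ∀ m, Tendsto (fun t => W m t / Real.log t) atTop atTop := by
    intro m
    induction m with
    | zero => simpa [hW] using hg
    | succ m ih =>
      refine tendsto_atTop_mono' _ ?_ ih
      filter_upwards [Real.tendsto_log_atTop.eventually_ge_atTop 1] with t h2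
      rw [hWs]
      have := Real.add_one_le_exp (W m t)
      exact div_le_div_of_nonneg_right (by linarith) (by linarith)
  have hmain := expmain (fun k => W (m k)) a (fun k => hWan _)
    (H_chain _ (fun k l hkl => chain_div W hWt hstep _ _ (hm hkl)) (fun k => hWl _)) d A a b le_rfl hab β
    (by rwa [Fintype.card_fin])
  simp only [Function.iterate_succ_apply']
  exact hmain

/-- the tower `√r ^ (√r ^ ⋯ ^ √r)` -/
noncomputable def tower (r : ℝ) : ℕ → ℝ
  | 0 => √r
  | m + 1 => (√r) ^ (tower r m)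

theorem tower_succ (r : ℝ) (hr : 0 < r) (m : ℕ) :
    tower r (m + 1) = Real.exp (Real.log r / 2 * tower r m) := by
  rw [tower, Real.rpow_def_of_pos (Real.sqrt_pos.2 hr), Real.log_sqrt hr.le]

theorem towermain (n : ℕ) (m : Fin n → ℕ) (hm : StrictMono m) (a : ℝ) (ha : 0 < a)
    (d : ℕ) (A b : ℝ) (hab : a < b) (β : ℝ) (hβ : 2 - 2 / (((d : ℝ) + 1) ^ n + 1) < β) :
    ∃ C : ℝ, 0 < C ∧ ∀ T : ℝ, 1 ≤ T →
      {q : ℚ | (q : ℝ) ∈ Icc a b ∧ (q.den : ℝ) ≤ T ∧
        Rel d (T ^ A) (fun k => ((tower q (m k + 1) : ℝ) : ℂ))}.Finite ∧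
      ({q : ℚ | (q : ℝ) ∈ Icc a b ∧ (q.den : ℝ) ≤ T ∧
        Rel d (T ^ A) (fun k => ((tower q (m k + 1) : ℝ) : ℂ))}.ncard : ℝ) ≤ C * T ^ β := by
  set W : ℕ → ℝ → ℝ := fun m t => tower t m with hW
  have hW0 : Tendsto (W 0) atTop atTop := by
    have : W 0 = Real.sqrt := by funext t; simp [hW, tower]
    rw [this]
    exact Real.tendsto_sqrt_atTop
  -- positivity
  have hpos : ∀ m, ∀ t, 0 < t → 0 < W m t := by
    intro m t ht
    cases m with
    | zero => simpa [hW, tower] using ht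
    | succ m =>
      simp only [hW]
      rw [tower_succ t ht]
      exact Real.exp_pos _
  have hstep : ∀ m, ∀ᶠ t in atTop, Real.exp (W m t) ≤ W (m + 1) t := by
    intro m
    filter_upwards [eventually_ge_atTop (Real.exp 2), eventually_gt_atTop (0 : ℝ)] with t h1 h2
    simp only [hW]
    rw [tower_succ t h2]
    apply Real.exp_le_exp.2
    have h3 : 2 ≤ Real.log t := (Real.le_log_iff_exp_le h2).2 h1
    have h4 := (hpos m t h2).le
    simp only [hW] at h4
    nlinarith
  have hWt := W_tendsto W hW0 hstep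
  have hWan : ∀ m, AnalyticOnNhd ℝ (W m) (Ici a) := by
    intro m
    induction m with
    | zero =>
      intro t ht
      have ht0 : 0 < t := ha.trans_le ht
      have : W 0 = Real.sqrt := by funext t; simp [hW, tower]
      rw [this]
      have h1 : AnalyticAt ℝ (fun t : ℝ => Real.exp (Real.log t / 2)) t :=
        ((analyticAt_log ht0).div_const).rexp
      refine h1.congr ?_
      filter_upwards [eventually_gt_nhds ht0] with s hs
      rw [← Real.log_sqrt hs.le, Real.exp_log (Real.sqrt_pos.2 hs)]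
    | succ m ih =>
      intro t ht
      have ht0 : 0 < t := ha.trans_le ht
      have h1 : AnalyticAt ℝ (fun t : ℝ => Real.exp (Real.log t / 2 * W m t)) t :=
        (((analyticAt_log ht0).div_const).mul (ih t ht)).rexp
      refine h1.congr ?_
      filter_upwards [eventually_gt_nhds ht0] with s hs
      exact (tower_succ s hs m).symm
  have hFan : ∀ m, AnalyticOnNhd ℝ (fun t => Real.log t / 2 * W m t) (Ici a) := by
    intro m t ht
    have ht0 : 0 < t := ha.trans_le ht
    exact ((analyticAt_log ht0).div_const).mul (hWan m t ht)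
  have hmain := expmain (fun k t => Real.log t / 2 * W (m k) t) a (fun k => hFan _)
    (H_chain _ (by
      intro k l hkl
      refine (chain_div W hWt hstep _ _ (hm hkl)).congr' ?_
      filter_upwards [eventually_gt_atTop (1 : ℝ)] with t ht
      have := (Real.log_pos ht).ne'
      rw [mul_div_mul_left _ _ (by positivity)])
      (by
      intro k
      refine ((hWt (m k)).const_mul_atTop (show (0 : ℝ) < 1 / 2 by norm_num)).congr' ?_
      filter_upwards [eventually_gt_atTop (1 : ℝ)] with t ht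
      have := (Real.log_pos ht).ne'
      field_simp)) d A a b le_rfl hab β
    (by rwa [Fintype.card_fin])
  have heq : ∀ q : ℝ, a ≤ q → (fun k => ((Real.exp (Real.log q / 2 * W (m k) q) : ℝ) : ℂ)) =
      fun k => ((tower q (m k + 1) : ℝ) : ℂ) := by
    intro q hq
    funext k
    rw [tower_succ q (ha.trans_le hq)]
  have hset : ∀ T : ℝ, {q : ℚ | (q : ℝ) ∈ Icc a b ∧ (q.den : ℝ) ≤ T ∧
        Rel d (T ^ A) (fun k => ((tower q (m k + 1) : ℝ) : ℂ))} =
      {q : ℚ | (q : ℝ) ∈ Icc a b ∧ (q.den : ℝ) ≤ T ∧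
        Rel d (T ^ A) (fun k => ((Real.exp (Real.log q / 2 * W (m k) q) : ℝ) : ℂ))} := by
    intro T
    ext q
    simp only [Set.mem_ofPred_eq]
    constructor
    · rintro ⟨h1, h2, h3⟩
      exact ⟨h1, h2, by rw [heq q h1.1]; exact h3⟩
    · rintro ⟨h1, h2, h3⟩
      exact ⟨h1, h2, by rw [heq q h1.1] at h3; exact h3⟩
  simp only [hset]
  exact hmain

end Pool.Agent.TH21.MS
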